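import Mathlib

open MeasureTheory ProbabilityTheory Filter Topology
open scoped ENNReal NNReal

namespace Run7.h242.Arrow

/-- The unit vector `e_i` (for `a = (i, true)`) or `-e_i` (for `a = (i, false)`) of `ℤ^d`. -/
def dir {d : ℕ} (a : Fin d × Bool) : Fin d → ℤ :=
  fun j => if j = a.1 then (if a.2 then 1 else -1) else 0

/-- An environment: a unit arrow `dir (ω x)` at every site `x` of `ℤ^d`. -/
abbrev Env (d : ℕ) := (Fin d → ℤ) → Fin d × Bool

/-- The law `μ` of the environment: independent uniform unit arrows. -/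
noncomputable def envLaw (d : ℕ) [NeZero d] : Measure (Env d) :=
  Measure.infinitePi fun _ => (PMF.uniformOfFintype (Fin d × Bool)).toMeasure

open Classical in
/-- The transition probability `p(x, z, ω)`. -/
noncomputable def step {d : ℕ} (ε : ℝ) (ω : Env d) (x z : Fin d → ℤ) : ℝ :=
  if x - z = dir (ω x) then 1 - (2 * (d : ℝ) - 1) * ε
  else if ∃ a, x - z = dir a then ε else 0

/-- `kern ε ω n x` is the quenched probability `p_ω(n, x)` that the chain started at `0` is at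
`x` at time `n`. -/
noncomputable def kern {d : ℕ} (ε : ℝ) (ω : Env d) : ℕ → (Fin d → ℤ) → ℝ
  | 0, x => if x = 0 then 1 else 0
  | n + 1, x => ∑' z, kern ε ω n z * step ε ω z x

/-- The averaged kernel `m₁(n, x)`. -/
noncomputable def avg (d : ℕ) [NeZero d] (ε : ℝ) (n : ℕ) (x : Fin d → ℤ) : ℝ :=
  ∫ ω, kern ε ω n x ∂(envLaw d)

/-- Under `m₁(n, ·)` the law of `X_n / √n` converges weakly to the centred Gaussian law with
covariance `v` times the identity. -/
def CLT (d : ℕ) [NeZero d] (ε : ℝ) (v : ℝ≥0) : Prop :=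
  ∀ f : BoundedContinuousFunction (Fin d → ℝ) ℝ,
    Tendsto (fun n : ℕ => ∑' x : Fin d → ℤ, avg d ε n x * f fun i => (x i : ℝ) / Real.sqrt n)
      atTop (𝓝 (∫ y, f y ∂(Measure.pi fun _ : Fin d => gaussianReal 0 v)))

/-- Condition (ii): for all `C, δ > 0` the supremum over `|x| ≤ C √n` with `m₁(n, x) > 0` of
`μ(|p_ω(n, x) / m₁(n, x) - 1| > δ)` tends to `0`. -/
def SelfAveraging (d : ℕ) [NeZero d] (ε : ℝ) : Prop :=
  ∀ C δ : ℝ, 0 < C → 0 < δ →
    Tendsto (fun n : ℕ => ⨆ x : {x : Fin d → ℤ //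
        Real.sqrt (∑ i, (x i : ℝ) ^ 2) ≤ C * Real.sqrt n ∧ 0 < avg d ε n x},
      envLaw d {ω | δ < |kern ε ω n x / avg d ε n x - 1|}) atTop (𝓝 0)

/-- The model homogenizes. -/
def Homogenizes (d : ℕ) [NeZero d] (ε : ℝ) : Prop :=
  (∃ v : ℝ≥0, 0 < v ∧ CLT d ε v) ∧ SelfAveraging d ε

end Run7.h242.Arrow
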