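import Pool.Agent.Run7.h242.ArrowDefs

open MeasureTheory ProbabilityTheory Filter Topology
open scoped ENNReal NNReal

namespace Run7.h242.Arrow

variable {d : ℕ}

theorem dir_inj : Function.Injective (dir : Fin d × Bool → Fin d → ℤ) := by
  rintro ⟨i, b⟩ ⟨j, c⟩ h
  have h1 := congrFun h i
  have h2 := congrFun h j
  simp only [dir] at h1 h2
  by_cases hij : i = j
  · subst hij
    cases b <;> cases c <;> simp_all
  · simp only [if_neg hij, if_true] at h1
    cases b <;> simp at h1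

theorem dir_neg (i : Fin d) (b : Bool) : dir (i, !b) = -dir (i, b) := by
  funext j
  simp only [dir, Pi.neg_apply]
  split_ifs <;> simp_all

theorem step_dir (ε : ℝ) (ω : Env d) (a : Fin d × Bool) :
    step ε ω (dir a) 0 = if ω (dir a) = a then 1 - (2 * (d : ℝ) - 1) * ε else ε := by
  unfold step
  rw [sub_zero]
  by_cases h : ω (dir a) = a
  · rw [if_pos h, if_pos (by rw [h])]
  · rw [if_neg h, if_neg (fun hh => h (dir_inj hh).symm), if_pos ⟨a, rfl⟩]

theorem step_zero_dir_ge {ε : ℝ} (h1 : ε * (2 * d) ≤ 1) (ω : Env d)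
    (a : Fin d × Bool) : ε ≤ step ε ω 0 (dir a) := by
  unfold step
  obtain ⟨i, b⟩ := a
  have h2 : (0 : Fin d → ℤ) - dir (i, b) = dir (i, !b) := by rw [dir_neg]; simp
  rw [h2]
  split_ifs with h3 h4
  · nlinarith
  · exact le_rfl
  · exact absurd ⟨_, rfl⟩ h4

theorem step_dir_zero_ge {ε : ℝ} (h1 : ε * (2 * d) ≤ 1) (ω : Env d)
    (a : Fin d × Bool) : ε ≤ step ε ω (dir a) 0 := by
  rw [step_dir]
  split_ifs
  · nlinarith
  · exact le_rfl

theorem step_nonneg {ε : ℝ} (h0 : 0 ≤ ε) (h1 : ε * (2 * d) ≤ 1) (ω : Env d)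
    (x z : Fin d → ℤ) : 0 ≤ step ε ω x z := by
  unfold step
  split_ifs
  · nlinarith
  · exact h0
  · exact le_rfl

theorem step_le_one {ε : ℝ} (h0 : 0 ≤ ε) (h1 : ε * (2 * d) ≤ 1) (hd : 1 ≤ d) (ω : Env d)
    (x z : Fin d → ℤ) : step ε ω x z ≤ 1 := by
  have hd' : (1 : ℝ) ≤ d := by exact_mod_cast hd
  unfold step
  split_ifs
  · nlinarith
  · nlinarith
  · exact zero_le_one

/-- neighbours of a site -/
noncomputable def nb (x : Fin d → ℤ) : Finset (Fin d → ℤ) :=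
  Finset.univ.image fun a : Fin d × Bool => x + dir a

theorem step_eq_zero {ε : ℝ} (ω : Env d) {x z : Fin d → ℤ} (h : z ∉ nb x) :
    step ε ω z x = 0 := by
  unfold step
  have h2 : ¬ ∃ a, z - x = dir a := by
    rintro ⟨a, ha⟩
    apply h
    unfold nb
    rw [Finset.mem_image]
    exact ⟨a, Finset.mem_univ _, by rw [← ha]; abel⟩
  rw [if_neg (fun hh => h2 ⟨_, hh⟩), if_neg h2]

theorem kern_succ (ε : ℝ) (ω : Env d) (n : ℕ) (x : Fin d → ℤ) :
    kern ε ω (n + 1) x = ∑ z ∈ nb x, kern ε ω n z * step ε ω z x := by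
  rw [kern]
  exact tsum_eq_sum fun z hz => by rw [step_eq_zero ω hz, mul_zero]

theorem kern_succ' (ε : ℝ) (ω : Env d) (n : ℕ) (x : Fin d → ℤ) :
    kern ε ω (n + 1) x = ∑ a : Fin d × Bool, kern ε ω n (x + dir a) * step ε ω (x + dir a) x := by
  rw [kern_succ, nb, Finset.sum_image]
  intro a _ b _ hab
  exact dir_inj (add_left_cancel hab)

theorem kern_nonneg {ε : ℝ} (h0 : 0 ≤ ε) (h1 : ε * (2 * d) ≤ 1) (ω : Env d) (n : ℕ)
    (x : Fin d → ℤ) : 0 ≤ kern ε ω n x := by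
  induction n generalizing x with
  | zero => rw [kern]; split_ifs <;> norm_num
  | succ n ih =>
    rw [kern_succ]
    exact Finset.sum_nonneg fun z _ => mul_nonneg (ih z) (step_nonneg h0 h1 ω z x)

theorem kern_bdd {ε : ℝ} (h0 : 0 ≤ ε) (h1 : ε * (2 * d) ≤ 1) (hd : 1 ≤ d) (n : ℕ) :
    ∀ (ω : Env d) (x : Fin d → ℤ), kern ε ω n x ≤ (2 * d) ^ n := by
  induction n with
  | zero => intro ω x; rw [kern]; split_ifs <;> norm_num
  | succ n ih =>
    intro ω x
    rw [kern_succ']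
    calc ∑ a : Fin d × Bool, kern ε ω n (x + dir a) * step ε ω (x + dir a) x
        ≤ ∑ _a : Fin d × Bool, ((2 * d) ^ n : ℝ) * 1 := by
          apply Finset.sum_le_sum
          intro a _
          exact mul_le_mul (ih ω _) (step_le_one h0 h1 hd ω _ _) (step_nonneg h0 h1 ω _ _)
            (by positivity)
      _ = (2 * d) ^ (n + 1) := by
          simp [Finset.card_univ, Fintype.card_prod]
          ring

theorem measurable_step (ε : ℝ) (x z : Fin d → ℤ) :
    Measurable fun ω : Env d => step ε ω x z := by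
  have : (fun ω : Env d => step ε ω x z) =
      (fun c : Fin d × Bool => step ε (fun _ => c) x z) ∘ (fun ω : Env d => ω x) := by
    funext ω; simp [step]
  rw [this]
  exact (measurable_of_countable _).comp (measurable_pi_apply x)

theorem measurable_kern (ε : ℝ) (n : ℕ) (x : Fin d → ℤ) :
    Measurable fun ω : Env d => kern ε ω n x := by
  induction n generalizing x with
  | zero => simp only [kern]; exact measurable_const
  | succ n ih =>
    simp_rw [kern_succ]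
    exact Finset.measurable_sum _ fun z _ => (ih z).mul (measurable_step ε z x)

theorem kern_even_odd {ε : ℝ} (h0 : 0 ≤ ε) (h1 : ε * (2 * d) ≤ 1) [NeZero d] (ω : Env d)
    (m : ℕ) : ε ^ (2 * m) ≤ kern ε ω (2 * m) 0 ∧
      ∀ a, ε ^ (2 * m + 1) ≤ kern ε ω (2 * m + 1) (dir a) := by
  have key : ∀ m, ε ^ (2 * m) ≤ kern ε ω (2 * m) 0 →
      ∀ a, ε ^ (2 * m + 1) ≤ kern ε ω (2 * m + 1) (dir a) := by
    intro m hm a
    obtain ⟨i, b⟩ := a
    rw [kern_succ']
    have h2 : dir (i, b) + dir (i, !b) = (0 : Fin d → ℤ) := by rw [dir_neg]; simp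
    have h3 : kern ε ω (2 * m) (dir (i, b) + dir (i, !b)) *
        step ε ω (dir (i, b) + dir (i, !b)) (dir (i, b)) ≤
        ∑ a : Fin d × Bool, kern ε ω (2 * m) (dir (i, b) + dir a) *
          step ε ω (dir (i, b) + dir a) (dir (i, b)) :=
      Finset.single_le_sum (f := fun a : Fin d × Bool => kern ε ω (2 * m) (dir (i, b) + dir a) *
          step ε ω (dir (i, b) + dir a) (dir (i, b)))
        (fun a _ => mul_nonneg (kern_nonneg h0 h1 ω _ _) (step_nonneg h0 h1 ω _ _))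
        (Finset.mem_univ _)
    refine le_trans ?_ h3
    rw [h2, pow_succ]
    exact mul_le_mul hm (step_zero_dir_ge h1 ω _) h0 (kern_nonneg h0 h1 ω _ _)
  induction m with
  | zero =>
    have h2 : ε ^ (2 * 0) ≤ kern ε ω (2 * 0) 0 := by simp [kern]
    exact ⟨h2, key 0 h2⟩
  | succ m ih =>
    have h2 : ε ^ (2 * (m + 1)) ≤ kern ε ω (2 * (m + 1)) 0 := by
      have e : 2 * (m + 1) = (2 * m + 1) + 1 := by ring
      rw [e, kern_succ']
      obtain ⟨a⟩ : Nonempty (Fin d × Bool) := inferInstance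
      have h3 := Finset.single_le_sum (f := fun a : Fin d × Bool =>
          kern ε ω (2 * m + 1) (0 + dir a) * step ε ω (0 + dir a) 0)
        (fun a _ => mul_nonneg (kern_nonneg h0 h1 ω _ _) (step_nonneg h0 h1 ω _ _))
        (Finset.mem_univ a)
      refine le_trans ?_ h3
      simp only [zero_add]
      rw [pow_succ]
      exact mul_le_mul (ih.2 a) (step_dir_zero_ge h1 ω _) h0 (kern_nonneg h0 h1 ω _ _)
    exact ⟨h2, key (m + 1) h2⟩

instance [NeZero d] : IsProbabilityMeasure (envLaw d) := by unfold envLaw; infer_instance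

theorem integrable_kern {ε : ℝ} (h0 : 0 ≤ ε) (h1 : ε * (2 * d) ≤ 1) [NeZero d] (n : ℕ)
    (x : Fin d → ℤ) : Integrable (fun ω : Env d => kern ε ω n x) (envLaw d) := by
  have hd : 1 ≤ d := Nat.one_le_iff_ne_zero.2 (NeZero.ne d)
  refine Integrable.of_bound (measurable_kern ε n x).aestronglyMeasurable ((2 * d) ^ n)
    (Eventually.of_forall fun ω => ?_)
  rw [Real.norm_of_nonneg (kern_nonneg h0 h1 ω n x)]
  exact kern_bdd h0 h1 hd n ω x

theorem le_avg {ε : ℝ} (h0 : 0 ≤ ε) (h1 : ε * (2 * d) ≤ 1) [NeZero d] (n : ℕ)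
    (x : Fin d → ℤ) (c : ℝ) (h : ∀ ω : Env d, c ≤ kern ε ω n x) : c ≤ avg d ε n x := by
  unfold avg
  calc c = ∫ _ω, c ∂(envLaw d) := by simp
    _ ≤ _ := integral_mono (integrable_const _) (integrable_kern h0 h1 n x) h

theorem env_pos [NeZero d] (t : (Fin d → ℤ) → Set (Fin d × Bool))
    (ht : ∀ a, (t (dir a)).Nonempty) :
    0 < envLaw d {ω | ∀ a, ω (dir a) ∈ t (dir a)} := by
  have h1 : {ω : Env d | ∀ a, ω (dir a) ∈ t (dir a)} =
      Set.pi (Finset.univ.image (dir : Fin d × Bool → Fin d → ℤ) : Finset (Fin d → ℤ)) t := by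
    ext ω
    constructor
    · intro h z hz
      rw [Finset.mem_coe, Finset.mem_image] at hz
      obtain ⟨a, -, rfl⟩ := hz
      exact h a
    · intro h a
      exact h _ (by rw [Finset.mem_coe]; exact Finset.mem_image_of_mem _ (Finset.mem_univ a))
  rw [h1, envLaw, Measure.infinitePi_pi _ (fun _ _ => MeasurableSet.of_discrete)]
  rw [pos_iff_ne_zero, Finset.prod_ne_zero_iff]
  intro z hz
  rw [Finset.mem_image] at hz
  obtain ⟨a, -, rfl⟩ := hz
  obtain ⟨c, hc⟩ := ht a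
  intro h
  rw [PMF.toMeasure_apply_eq_zero_iff _ MeasurableSet.of_discrete] at h
  exact (Set.disjoint_left.1 h) (by simp) hc

theorem exists_good [NeZero d] {t : (Fin d → ℤ) → Set (Fin d × Bool)} {B : Set (Env d)}
    (h : envLaw d B < envLaw d {ω | ∀ a, ω (dir a) ∈ t (dir a)}) :
    ∃ ω : Env d, (∀ a, ω (dir a) ∈ t (dir a)) ∧ ω ∉ B := by
  by_contra hcon
  push Not at hcon
  exact absurd (measure_mono (fun ω hω => hcon ω hω)) (not_le.2 h)

theorem not_selfAveraging [NeZero d] {ε : ℝ} (h0 : 0 < ε) (h1 : ε < 1 / (2 * d)) :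
    ¬ SelfAveraging d ε := by
  intro hS
  have hd : 0 < (d : ℝ) := by exact_mod_cast Nat.pos_of_ne_zero (NeZero.ne d)
  have h1' : ε * (2 * d) < 1 := by rwa [lt_div_iff₀ (by positivity)] at h1
  set q := 1 - (2 * (d : ℝ) - 1) * ε with hq
  have hqε : ε < q := by rw [hq]; nlinarith
  -- choose δ
  obtain ⟨δ, hδ0, hδ1, hδ⟩ : ∃ δ : ℝ, 0 < δ ∧ δ < 1 ∧ ε * (1 + δ) ^ 2 < q * (1 - δ) ^ 2 := by
    have hc : Tendsto (fun δ : ℝ => q * (1 - δ) ^ 2 - ε * (1 + δ) ^ 2) (𝓝[>] 0)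
        (𝓝 (q * (1 - 0) ^ 2 - ε * (1 + 0) ^ 2)) := by
      apply Tendsto.mono_left _ nhdsWithin_le_nhds
      exact Continuous.tendsto (by fun_prop) 0
    have hpos : 0 < q * (1 - 0) ^ 2 - ε * (1 + 0) ^ 2 := by nlinarith
    have h2 := (hc.eventually (lt_mem_nhds hpos)).and
      (Ioo_mem_nhdsGT (show (0 : ℝ) < 1 by norm_num))
    obtain ⟨δ, hδ1, hδ2⟩ := h2.exists
    exact ⟨δ, hδ2.1, hδ2.2, by linarith⟩
  have hT := hS 1 δ one_pos hδ0
  set T1 : (Fin d → ℤ) → Set (Fin d × Bool) := fun z => {c | dir c = z} with hT1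
  set T2 : (Fin d → ℤ) → Set (Fin d × Bool) := fun z => {c | dir c ≠ z} with hT2
  set E1 := envLaw d {ω | ∀ a, ω (dir a) ∈ T1 (dir a)} with hE1
  set E2 := envLaw d {ω | ∀ a, ω (dir a) ∈ T2 (dir a)} with hE2
  have hE1p : 0 < E1 := env_pos T1 fun a => ⟨a, rfl⟩
  have hE2p : 0 < E2 := env_pos T2 fun a => by
    obtain ⟨i, b⟩ := a
    refine ⟨(i, !b), fun h => ?_⟩
    have := dir_inj h
    cases b <;> simp at this
  set N : ℝ≥0∞ := ((Fintype.card (Fin d × Bool) + 1 : ℕ) : ℝ≥0∞) with hN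
  have hN0 : N ≠ 0 := by
    rw [hN]; exact Nat.cast_ne_zero.2 (Nat.succ_ne_zero (Fintype.card (Fin d × Bool)))
  have hNt : N ≠ ∞ := by rw [hN]; exact ENNReal.natCast_ne_top _
  have hη : 0 < min E1 E2 / N := ENNReal.div_pos (lt_min hE1p hE2p).ne' hNt
  have hev := hT.eventually (gt_mem_nhds hη)
  obtain ⟨M, hM⟩ := eventually_atTop.1 hev
  -- the times
  set m := M with hm
  have hb1 := hM (2 * m + 1) (by omega)
  have hb2 := hM (2 * m + 1 + 1) (by omega)
  have a1pos : ∀ a : Fin d × Bool, 0 < avg d ε (2 * m + 1) (dir a) := fun a =>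
    lt_of_lt_of_le (pow_pos h0 _) (le_avg h0.le h1'.le _ _ _ fun ω =>
      (kern_even_odd h0.le h1'.le ω m).2 a)
  have a2pos : 0 < avg d ε (2 * m + 1 + 1) 0 :=
    lt_of_lt_of_le (pow_pos h0 (2 * (m + 1))) (le_avg h0.le h1'.le _ _ _ fun ω => by
      have := (kern_even_odd h0.le h1'.le ω (m + 1)).1
      have e : 2 * (m + 1) = (2 * m + 1) + 1 := by ring
      rwa [e] at this)
  have hnorm : ∀ a : Fin d × Bool,
      Real.sqrt (∑ i, ((dir a : Fin d → ℤ) i : ℝ) ^ 2) ≤ 1 * Real.sqrt ((2 * m + 1 : ℕ) : ℝ) := by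
    intro a
    rw [one_mul]
    apply Real.sqrt_le_sqrt
    have : ∑ i, ((dir a : Fin d → ℤ) i : ℝ) ^ 2 = 1 := by
      rw [Finset.sum_eq_single a.1]
      · simp only [dir, if_true]; split_ifs <;> simp
      · intro b _ hb; simp [dir, hb]
      · simp
    rw [this]
    push_cast
    have : (0 : ℝ) ≤ m := Nat.cast_nonneg m
    linarith
  set B1 : Fin d × Bool → Set (Env d) := fun a =>
    {ω | δ < |kern ε ω (2 * m + 1) (dir a) / avg d ε (2 * m + 1) (dir a) - 1|} with hB1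
  set B2 : Set (Env d) :=
    {ω | δ < |kern ε ω (2 * m + 1 + 1) 0 / avg d ε (2 * m + 1 + 1) 0 - 1|} with hB2
  have hB1m : ∀ a, envLaw d (B1 a) ≤ min E1 E2 / N := fun a =>
    le_trans (le_iSup (fun x : {x : Fin d → ℤ // Real.sqrt (∑ i, (x i : ℝ) ^ 2) ≤
        1 * Real.sqrt ((2 * m + 1 : ℕ) : ℝ) ∧ 0 < avg d ε (2 * m + 1) x} =>
      envLaw d {ω | δ < |kern ε ω (2 * m + 1) x / avg d ε (2 * m + 1) x - 1|})
      ⟨dir a, hnorm a, a1pos a⟩) hb1.le
  have hB2m : envLaw d B2 < min E1 E2 / N :=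
    lt_of_le_of_lt (le_iSup (fun x : {x : Fin d → ℤ // Real.sqrt (∑ i, (x i : ℝ) ^ 2) ≤
        1 * Real.sqrt ((2 * m + 1 + 1 : ℕ) : ℝ) ∧ 0 < avg d ε (2 * m + 1 + 1) x} =>
      envLaw d {ω | δ < |kern ε ω (2 * m + 1 + 1) x / avg d ε (2 * m + 1 + 1) x - 1|})
      ⟨0, by simp, a2pos⟩) hb2
  have hB : envLaw d ((⋃ a, B1 a) ∪ B2) < min E1 E2 := by
    calc envLaw d ((⋃ a, B1 a) ∪ B2) ≤ envLaw d (⋃ a, B1 a) + envLaw d B2 := measure_union_le _ _
      _ ≤ ∑ a, envLaw d (B1 a) + envLaw d B2 := by gcongr; exact measure_iUnion_fintype_le _ _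
      _ ≤ ∑ _a : Fin d × Bool, min E1 E2 / N + envLaw d B2 := by
          gcongr with a; exact hB1m a
      _ < ∑ _a : Fin d × Bool, min E1 E2 / N + min E1 E2 / N := by
          apply ENNReal.add_lt_add_left _ hB2m
          rw [Finset.sum_const, nsmul_eq_mul]
          apply ENNReal.mul_ne_top (ENNReal.natCast_ne_top _)
          exact ENNReal.div_ne_top ((min_le_left _ _).trans_lt (measure_lt_top _ _)).ne hN0
      _ = min E1 E2 := by
          rw [Finset.sum_const, nsmul_eq_mul]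
          have : (Fintype.card (Fin d × Bool) : ℝ≥0∞) * (min E1 E2 / N) + min E1 E2 / N =
              N * (min E1 E2 / N) := by
            rw [hN]; push_cast; ring
          rw [Finset.card_univ, this, ENNReal.mul_div_cancel hN0 hNt]
  obtain ⟨ω1, hω1, hω1B⟩ := exists_good (lt_of_lt_of_le hB (min_le_left _ _))
  obtain ⟨ω2, hω2, hω2B⟩ := exists_good (lt_of_lt_of_le hB (min_le_right _ _))
  have hk1 : kern ε ω1 (2 * m + 1 + 1) 0 = q * ∑ a, kern ε ω1 (2 * m + 1) (dir a) := by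
    rw [kern_succ', Finset.mul_sum]
    apply Finset.sum_congr rfl
    intro a _
    have h3 : ω1 (dir a) = a := dir_inj (hω1 a)
    rw [zero_add, step_dir, if_pos h3, mul_comm]
  have hk2 : kern ε ω2 (2 * m + 1 + 1) 0 = ε * ∑ a, kern ε ω2 (2 * m + 1) (dir a) := by
    rw [kern_succ', Finset.mul_sum]
    apply Finset.sum_congr rfl
    intro a _
    have h3 : ω2 (dir a) ≠ a := fun h => hω2 a (by rw [h])
    rw [zero_add, step_dir, if_neg h3, mul_comm]
  have hgood : ∀ ω, ω ∉ (⋃ a, B1 a) ∪ B2 →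
      (∀ a, (1 - δ) * avg d ε (2 * m + 1) (dir a) ≤ kern ε ω (2 * m + 1) (dir a) ∧
        kern ε ω (2 * m + 1) (dir a) ≤ (1 + δ) * avg d ε (2 * m + 1) (dir a)) ∧
      ((1 - δ) * avg d ε (2 * m + 1 + 1) 0 ≤ kern ε ω (2 * m + 1 + 1) 0 ∧
        kern ε ω (2 * m + 1 + 1) 0 ≤ (1 + δ) * avg d ε (2 * m + 1 + 1) 0) := by
    intro ω hω
    have aux : ∀ k A : ℝ, 0 < A → ¬ (δ < |k / A - 1|) → (1 - δ) * A ≤ k ∧ k ≤ (1 + δ) * A := by
      intro k A hA h
      rw [not_lt, abs_le] at h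
      have e1 : k = (k / A) * A := by field_simp
      constructor
      · rw [e1]; exact mul_le_mul_of_nonneg_right (by linarith [h.1]) hA.le
      · rw [e1]; exact mul_le_mul_of_nonneg_right (by linarith [h.2]) hA.le
    rw [Set.mem_union, not_or, Set.mem_iUnion, not_exists] at hω
    exact ⟨fun a => aux _ _ (a1pos a) (hω.1 a), aux _ _ a2pos hω.2⟩
  obtain ⟨g1, g1'⟩ := hgood ω1 hω1B
  obtain ⟨g2, g2'⟩ := hgood ω2 hω2B
  set S := ∑ a : Fin d × Bool, avg d ε (2 * m + 1) (dir a) with hSdef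
  have hSpos : 0 < S := by
    obtain ⟨a⟩ : Nonempty (Fin d × Bool) := inferInstance
    exact lt_of_lt_of_le (a1pos a) (Finset.single_le_sum
      (f := fun a : Fin d × Bool => avg d ε (2 * m + 1) (dir a))
      (fun a _ => (a1pos a).le) (Finset.mem_univ a))
  have s1 : (1 - δ) * S ≤ ∑ a, kern ε ω1 (2 * m + 1) (dir a) := by
    rw [hSdef, Finset.mul_sum]; exact Finset.sum_le_sum fun a _ => (g1 a).1
  have s2 : ∑ a, kern ε ω2 (2 * m + 1) (dir a) ≤ (1 + δ) * S := by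
    rw [hSdef, Finset.mul_sum]; exact Finset.sum_le_sum fun a _ => (g2 a).2
  have r1 : q * ((1 - δ) * S) ≤ (1 + δ) * avg d ε (2 * m + 1 + 1) 0 := by
    calc q * ((1 - δ) * S) ≤ q * ∑ a, kern ε ω1 (2 * m + 1) (dir a) :=
          mul_le_mul_of_nonneg_left s1 (by linarith)
      _ ≤ _ := by rw [← hk1]; exact g1'.2
  have r2 : (1 - δ) * avg d ε (2 * m + 1 + 1) 0 ≤ ε * ((1 + δ) * S) := by
    calc (1 - δ) * avg d ε (2 * m + 1 + 1) 0 ≤ ε * ∑ a, kern ε ω2 (2 * m + 1) (dir a) := by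
          rw [← hk2]; exact g2'.1
      _ ≤ _ := mul_le_mul_of_nonneg_left s2 h0.le
  have r3 : q * (1 - δ) ^ 2 * S ≤ ε * (1 + δ) ^ 2 * S := by
    have t1 : (1 - δ) * (q * ((1 - δ) * S)) ≤ (1 - δ) * ((1 + δ) * avg d ε (2 * m + 1 + 1) 0) :=
      mul_le_mul_of_nonneg_left r1 (by linarith)
    have t2 : (1 + δ) * ((1 - δ) * avg d ε (2 * m + 1 + 1) 0) ≤ (1 + δ) * (ε * ((1 + δ) * S)) :=
      mul_le_mul_of_nonneg_left r2 (by linarith)
    nlinarith
  have r4 := le_of_mul_le_mul_right r3 hSpos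
  linarith

end Run7.h242.Arrow
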