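import Mathlib

/-!
# Two-party protocols, external information cost and expected communication

Definitions for the question whether zero-error external information complexity equals
amortized zero-error average-case communication.
-/

open Filter Topology

namespace Run7.h242.Ext

/-- A (finite) two-party protocol with private and public randomness, as a binary tree.
At an `alice` node Alice sends one bit, which is `1` with probability `p x` (her private
randomness); at a `bob` node Bob sends one bit, which is `1` with probability `q y`; at a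
`coin` node a public coin is read, which is `1` with probability `r` (this costs no
communication).  Bit `0` leads to `t₀`, bit `1` leads to `t₁`.  A leaf carries the output. -/
inductive Protocol (X Y O : Type) : Type
  | leaf (o : O) : Protocol X Y O
  | alice (p : X → unitInterval) (t₀ t₁ : Protocol X Y O) : Protocol X Y O
  | bob (q : Y → unitInterval) (t₀ t₁ : Protocol X Y O) : Protocol X Y O
  | coin (r : unitInterval) (t₀ t₁ : Protocol X Y O) : Protocol X Y O

namespace Protocol

variable {X Y O : Type}

/-- The possible transcripts: the sequences of bits (sent bits and public coins) read along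
the root-to-leaf paths. -/
def transcripts : Protocol X Y O → List (List Bool)
  | leaf _ => [[]]
  | alice _ t₀ t₁ => t₀.transcripts.map (List.cons false) ++ t₁.transcripts.map (List.cons true)
  | bob _ t₀ t₁ => t₀.transcripts.map (List.cons false) ++ t₁.transcripts.map (List.cons true)
  | coin _ t₀ t₁ => t₀.transcripts.map (List.cons false) ++ t₁.transcripts.map (List.cons true)

/-- `t.prob x y π` is the probability that the transcript is `π` when the inputs are `x`
and `y`. -/
noncomputable def prob : Protocol X Y O → X → Y → List Bool → ℝ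
  | leaf _, _, _, [] => 1
  | leaf _, _, _, _ :: _ => 0
  | alice _ _ _, _, _, [] => 0
  | alice p t₀ _, x, y, false :: π => (1 - (p x : ℝ)) * t₀.prob x y π
  | alice p _ t₁, x, y, true :: π => (p x : ℝ) * t₁.prob x y π
  | bob _ _ _, _, _, [] => 0
  | bob q t₀ _, x, y, false :: π => (1 - (q y : ℝ)) * t₀.prob x y π
  | bob q _ t₁, x, y, true :: π => (q y : ℝ) * t₁.prob x y π
  | coin _ _ _, _, _, [] => 0
  | coin r t₀ _, x, y, false :: π => (1 - (r : ℝ)) * t₀.prob x y π
  | coin r _ t₁, x, y, true :: π => (r : ℝ) * t₁.prob x y π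

/-- `t.Reach x y o`: on inputs `x` and `y`, the protocol outputs `o` for some outcome
(of positive probability) of its randomness. -/
def Reach : Protocol X Y O → X → Y → O → Prop
  | leaf o', _, _, o => o = o'
  | alice p t₀ t₁, x, y, o =>
      ((p x : ℝ) ≠ 1 ∧ t₀.Reach x y o) ∨ ((p x : ℝ) ≠ 0 ∧ t₁.Reach x y o)
  | bob q t₀ t₁, x, y, o =>
      ((q y : ℝ) ≠ 1 ∧ t₀.Reach x y o) ∨ ((q y : ℝ) ≠ 0 ∧ t₁.Reach x y o)
  | coin r t₀ t₁, x, y, o =>
      ((r : ℝ) ≠ 1 ∧ t₀.Reach x y o) ∨ ((r : ℝ) ≠ 0 ∧ t₁.Reach x y o)

/-- The expected number of bits exchanged on inputs `x` and `y` (public coins are free). -/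
noncomputable def bits : Protocol X Y O → X → Y → ℝ
  | leaf _, _, _ => 0
  | alice p t₀ t₁, x, y => 1 + ((1 - (p x : ℝ)) * t₀.bits x y + (p x : ℝ) * t₁.bits x y)
  | bob q t₀ t₁, x, y => 1 + ((1 - (q y : ℝ)) * t₀.bits x y + (q y : ℝ) * t₁.bits x y)
  | coin r t₀ t₁, x, y => (1 - (r : ℝ)) * t₀.bits x y + (r : ℝ) * t₁.bits x y

/-- `t` computes `F` with zero error: on every input and every outcome of the randomness the
output is `F x y`. -/
def ZeroError (t : Protocol X Y O) (F : X → Y → O) : Prop :=
  ∀ x y o, t.Reach x y o → o = F x y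

variable [Fintype X] [Fintype Y]

/-- The external information cost `I_μ(Π; XY) = H(Π) - H(Π | XY)` of the protocol, in bits,
where `(X, Y) ∼ μ` and `Π` is the transcript. -/
noncomputable def extInfo (μ : X → Y → ℝ) (t : Protocol X Y O) : ℝ :=
  (t.transcripts.map fun π =>
    Real.negMulLog (∑ x, ∑ y, μ x y * t.prob x y π)
      - ∑ x, ∑ y, μ x y * Real.negMulLog (t.prob x y π)).sum / Real.log 2

/-- The expected number of bits exchanged when `(X, Y) ∼ μ`. -/
noncomputable def cost (μ : X → Y → ℝ) (t : Protocol X Y O) : ℝ :=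
  ∑ x, ∑ y, μ x y * t.bits x y

end Protocol

variable {X Y O : Type} [Fintype X] [Fintype Y]

/-- `μ` is a probability distribution on `X × Y`. -/
def IsDist (μ : X → Y → ℝ) : Prop :=
  (∀ x y, 0 ≤ μ x y) ∧ ∑ x, ∑ y, μ x y = 1

/-- Zero-error external information complexity `IC^ext(F, 0, μ)`. -/
noncomputable def ICext (F : X → Y → O) (μ : X → Y → ℝ) : ℝ :=
  sInf {r : ℝ | ∃ t : Protocol X Y O, t.ZeroError F ∧ r = t.extInfo μ}

/-- Zero-error expected communication complexity of `F` under `μ`. -/
noncomputable def CC (F : X → Y → O) (μ : X → Y → ℝ) : ℝ :=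
  sInf {r : ℝ | ∃ t : Protocol X Y O, t.ZeroError F ∧ r = t.cost μ}

omit [Fintype X] [Fintype Y] in
/-- The task `F^n`: compute `F` on `n` coordinates. -/
def powFun (F : X → Y → O) (n : ℕ) : (Fin n → X) → (Fin n → Y) → (Fin n → O) :=
  fun x y i => F (x i) (y i)

omit [Fintype X] [Fintype Y] in
/-- The product distribution `μ^n`. -/
def powDist (μ : X → Y → ℝ) (n : ℕ) : (Fin n → X) → (Fin n → Y) → ℝ :=
  fun x y => ∏ i, μ (x i) (y i)

end Run7.h242.Ext
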