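import Mathlib

/-!
# Divergence-type inequalities for four classes of three cells
-/

namespace Run7.h242.Ext

open Real

/-- `p log (p / q) - p + q`. -/
noncomputable def kl (p q : ℝ) : ℝ := p * log (p / q) - p + q

lemma kl_lin {p q c : ℝ} (hp : 0 ≤ p) (hq : 0 ≤ q) (h : q = 0 → p = 0) (hc : 0 < c) :
    p * log c + q * (1 - c) ≤ kl p q := by
  rcases hp.eq_or_lt with rfl | hp
  · simp [kl]; nlinarith
  · have hq' : 0 < q := lt_of_le_of_ne hq fun h0 => hp.ne' (h h0.symm)
    have h1 := log_le_sub_one_of_pos (show 0 < c * (q / p) by positivity)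
    rw [log_mul hc.ne' (by positivity)] at h1
    have h2 : log (q / p) = - log (p / q) := by
      rw [← log_inv, inv_div]
    rw [h2] at h1
    have h3 : p * (c * (q / p)) = c * q := by field_simp
    have h4 := mul_le_mul_of_nonneg_left h1 hp.le
    unfold kl
    nlinarith

lemma kl_nonneg {p q : ℝ} (hp : 0 ≤ p) (hq : 0 ≤ q) (h : q = 0 → p = 0) : 0 ≤ kl p q := by
  simpa using kl_lin hp hq h one_pos

lemma kl_hell {p q : ℝ} (hp : 0 ≤ p) (hq : 0 ≤ q) (h : q = 0 → p = 0) :
    (√p - √q) ^ 2 ≤ kl p q := by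
  rcases hp.eq_or_lt with rfl | hp
  · simp [kl, sq_sqrt hq]
  · have hq' : 0 < q := lt_of_le_of_ne hq fun h0 => hp.ne' (h h0.symm)
    have h1 := log_le_sub_one_of_pos (show 0 < √q / √p by positivity)
    have h2 : log (√q / √p) = - (log (p / q)) / 2 := by
      rw [← sqrt_div hq, log_sqrt (by positivity), ← inv_div p q, log_inv]
    rw [h2] at h1
    have h3 : p * (√q / √p) = √p * √q := by
      have := sqrt_pos.2 hp
      field_simp
      rw [sq_sqrt hp.le]
    have h4 := mul_le_mul_of_nonneg_left h1 hp.le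
    have h5 : (√p - √q) ^ 2 = p - 2 * (√p * √q) + q := by
      rw [sub_sq, sq_sqrt hp.le, sq_sqrt hq]; ring
    rw [h5]
    unfold kl
    nlinarith

lemma kl_cell {p q : ℝ} (hp : 0 ≤ p) (h : q = 0 → p = 0) :
    p * log p = kl p q + p * log q + p - q := by
  unfold kl
  rcases hp.eq_or_lt with rfl | hp
  · simp
  · have hq' : q ≠ 0 := fun h0 => hp.ne' (h h0)
    rw [log_div hp.ne' hq']; ring

section

variable (w T : Fin 4 → Fin 3 → ℝ)

/-- Class average (every class has total weight `1/4`). -/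
noncomputable def Tb (r : Fin 4) : ℝ := 4 * ∑ k, w r k * T r k

/-- Total within-class divergence in class `r`. -/
noncomputable def Jc (r : Fin 4) : ℝ := ∑ k, w r k * kl (T r k) (Tb w T r)

/-- Total weight. -/
noncomputable def Qt : ℝ := ∑ r, ∑ k, w r k * T r k

/-- The information summand of one leaf. -/
noncomputable def En : ℝ := negMulLog (Qt w T) - ∑ r, ∑ k, w r k * negMulLog (T r k)

variable {w T}
variable (hw : ∀ r k, 0 < w r k) (hw4 : ∀ r, ∑ k, w r k = 1 / 4) (hT : ∀ r k, 0 ≤ T r k)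

include hw hT in
lemma Tb_nonneg (r : Fin 4) : 0 ≤ Tb w T r :=
  mul_nonneg (by norm_num) (Finset.sum_nonneg fun k _ => mul_nonneg (hw r k).le (hT r k))

include hw hT in
lemma Tb_zero {r : Fin 4} (h : Tb w T r = 0) (k : Fin 3) : T r k = 0 := by
  have h1 : ∑ k, w r k * T r k = 0 := by
    have : (4 : ℝ) ≠ 0 := by norm_num
    exact (mul_eq_zero.1 h).resolve_left this
  have h2 := (Finset.sum_eq_zero_iff_of_nonneg
    (fun k _ => mul_nonneg (hw r k).le (hT r k))).1 h1 k (Finset.mem_univ _)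
  exact (mul_eq_zero.1 h2).resolve_left (hw r k).ne'

include hw hT in
lemma Jc_nonneg (r : Fin 4) : 0 ≤ Jc w T r :=
  Finset.sum_nonneg fun k _ => mul_nonneg (hw r k).le
    (kl_nonneg (hT r k) (Tb_nonneg hw hT r) fun h => Tb_zero hw hT h k)

include hw hT in
lemma cell_le_Jc (r : Fin 4) (k : Fin 3) : w r k * kl (T r k) (Tb w T r) ≤ Jc w T r :=
  Finset.single_le_sum (f := fun k => w r k * kl (T r k) (Tb w T r))
    (fun k _ => mul_nonneg (hw r k).le
      (kl_nonneg (hT r k) (Tb_nonneg hw hT r) fun h => Tb_zero hw hT h k)) (Finset.mem_univ k)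

include hw hT in
lemma Jc_le_sum (r : Fin 4) : Jc w T r ≤ ∑ r, Jc w T r :=
  Finset.single_le_sum (f := fun r => Jc w T r) (fun r _ => Jc_nonneg hw hT r)
    (Finset.mem_univ r)

include hw hw4 hT in
lemma class_eq (r : Fin 4) :
    ∑ k, w r k * (T r k * log (T r k)) = Jc w T r + Tb w T r / 4 * log (Tb w T r) := by
  have h1 : ∀ k, w r k * (T r k * log (T r k))
      = w r k * kl (T r k) (Tb w T r) + (w r k * T r k) * (log (Tb w T r) + 1)
        - w r k * Tb w T r := by
    intro k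
    rw [kl_cell (hT r k) (q := Tb w T r) fun h => Tb_zero hw hT h k]
    ring
  simp_rw [h1]
  rw [Finset.sum_sub_distrib, Finset.sum_add_distrib, ← Finset.sum_mul, ← Finset.sum_mul, hw4]
  have h2 : ∑ k, w r k * T r k = Tb w T r / 4 := by unfold Tb; ring
  rw [h2]
  unfold Jc
  ring

lemma Qt_eq : Qt w T = ∑ r, Tb w T r / 4 := by
  unfold Qt Tb
  refine Finset.sum_congr rfl fun r _ => ?_
  ring

include hw hw4 hT in
lemma En_eq : En w T = ∑ r, Jc w T r + ∑ r, Tb w T r / 4 * log (Tb w T r)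
    - Qt w T * log (Qt w T) := by
  unfold En negMulLog
  have h1 : ∀ r, ∑ k, w r k * (-(T r k) * log (T r k))
      = -(Jc w T r + Tb w T r / 4 * log (Tb w T r)) := by
    intro r
    rw [← class_eq hw hw4 hT r, ← Finset.sum_neg_distrib]
    refine Finset.sum_congr rfl fun k _ => ?_
    ring
  simp_rw [h1]
  rw [Finset.sum_neg_distrib, Finset.sum_add_distrib]
  ring

include hw hT in
lemma Qt_zero (h : Qt w T = 0) (r : Fin 4) : Tb w T r = 0 := by
  rw [Qt_eq] at h
  have h2 := (Finset.sum_eq_zero_iff_of_nonneg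
    (fun r _ => div_nonneg (Tb_nonneg hw hT r) (by norm_num))).1 h r (Finset.mem_univ _)
  linarith

include hw hT in
lemma Qt_nonneg : 0 ≤ Qt w T := by
  rw [Qt_eq]
  exact Finset.sum_nonneg fun r _ => div_nonneg (Tb_nonneg hw hT r) (by norm_num)

include hw hw4 hT in
/-- The leaf summand is at least the within-class divergence. -/
lemma J_le_En : ∑ r, Jc w T r ≤ En w T := by
  rw [En_eq hw hw4 hT]
  have h1 : ∀ r, 0 ≤ kl (Tb w T r) (Qt w T) := fun r =>
    kl_nonneg (Tb_nonneg hw hT r) (Qt_nonneg hw hT) fun h => Qt_zero hw hT h r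
  have h2 : ∀ r, Tb w T r / 4 * log (Tb w T r)
      = kl (Tb w T r) (Qt w T) / 4 + Tb w T r / 4 * (log (Qt w T) + 1) - Qt w T / 4 := by
    intro r
    have := kl_cell (Tb_nonneg hw hT r) (q := Qt w T) fun h => Qt_zero hw hT h r
    linear_combination this / 4
  have h3 : ∑ r, Tb w T r / 4 * log (Tb w T r)
      = ∑ r, kl (Tb w T r) (Qt w T) / 4 + Qt w T * (log (Qt w T) + 1) - Qt w T := by
    simp_rw [h2]
    rw [Finset.sum_sub_distrib, Finset.sum_add_distrib, ← Finset.sum_mul, ← Qt_eq]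
    simp only [Finset.sum_const, Finset.card_univ, Fintype.card_fin, nsmul_eq_mul]
    push_cast
    ring
  have h4 : 0 ≤ ∑ r, kl (Tb w T r) (Qt w T) / 4 :=
    Finset.sum_nonneg fun r _ => div_nonneg (h1 r) (by norm_num)
  rw [h3]
  linarith

include hw hw4 hT in
/-- A leaf that only meets one class. -/
lemma En_single {r₀ : Fin 4} (h : ∀ r, r ≠ r₀ → ∀ k, T r k = 0) :
    En w T = ∑ r, Jc w T r + Qt w T * log 4 := by
  rw [En_eq hw hw4 hT]
  have h1 : ∀ r, r ≠ r₀ → Tb w T r = 0 := by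
    intro r hr
    simp [Tb, h r hr]
  have h2 : Qt w T = Tb w T r₀ / 4 := by
    rw [Qt_eq]
    exact Finset.sum_eq_single r₀ (fun r _ hr => by simp [h1 r hr]) (by simp)
  have h3 : ∑ r, Tb w T r / 4 * log (Tb w T r) = Tb w T r₀ / 4 * log (Tb w T r₀) :=
    Finset.sum_eq_single r₀ (fun r _ hr => by simp [h1 r hr]) (by simp)
  rw [h3, h2]
  rcases (Tb_nonneg hw hT r₀).eq_or_lt with h0 | h0
  · simp [← h0]
  · rw [log_div h0.ne' (by norm_num)]; ring

include hw hw4 hT in
/-- A class in which only rare cells have positive likelihood. -/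
lemma Jc_rare {r : Fin 4} {ε : ℝ} (hε : 0 < ε) (R : Fin 3 → Prop) [DecidablePred R]
    (hR : ∀ k, ¬ R k → T r k = 0) (hRw : ∑ k, (if R k then w r k else 0) ≤ ε) :
    Tb w T r / 4 * log (1 / (4 * ε)) ≤ Jc w T r := by
  have h0 := Tb_nonneg hw hT r
  have hc : 0 < 1 / (4 * ε) := by positivity
  have h1 : ∀ k, w r k * T r k * log (1 / (4 * ε)) + w r k * Tb w T r
      - (if R k then w r k else 0) * (Tb w T r * (1 / (4 * ε)))
      ≤ w r k * kl (T r k) (Tb w T r) := by
    intro k
    by_cases hk : R k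
    · have := mul_le_mul_of_nonneg_left
        (kl_lin (hT r k) h0 (fun h => Tb_zero hw hT h k) hc) (hw r k).le
      simp only [hk, if_true]
      linarith
    · have hz := hR k hk
      simp [hk, hz, kl]
  have h2 := Finset.sum_le_sum fun k (_ : k ∈ Finset.univ) => h1 k
  rw [Finset.sum_sub_distrib, Finset.sum_add_distrib, ← Finset.sum_mul, ← Finset.sum_mul,
    ← Finset.sum_mul, hw4] at h2
  have h3 : ∑ k, w r k * T r k = Tb w T r / 4 := by unfold Tb; ring
  rw [h3] at h2
  have h4 : (∑ k, (if R k then w r k else 0)) * (Tb w T r * (1 / (4 * ε)))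
      ≤ ε * (Tb w T r * (1 / (4 * ε))) :=
    mul_le_mul_of_nonneg_right hRw (by positivity)
  have h5 : ε * (Tb w T r * (1 / (4 * ε))) = Tb w T r / 4 := by field_simp
  unfold Jc
  linarith

end

end Run7.h242.Ext
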