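import Pool.Agent.Run7.h242.ExtTree
import Pool.Agent.Run7.h242.ExtKl

/-!
# The example, and the first half of the lower bound for its external information
-/

namespace Run7.h242.Ext

open Real

/-- Rows of the cells. -/
def ri : Fin 4 → Fin 3 → Fin 3 := ![![0, 1, 0], ![1, 2, 2], ![0, 0, 0], ![2, 2, 2]]

/-- Columns of the cells (`0,1 = c₁,c₂`, `2,3 = e₂,e₃`, `4 = u₁`, `5 = u₃`, `6 = a`, `7 = b`,
`8 = d`). -/
def ci : Fin 4 → Fin 3 → Fin 9 := ![![0, 1, 6], ![2, 3, 7], ![4, 7, 8], ![5, 6, 8]]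

/-- The function. -/
def G : Fin 3 → Fin 9 → Bool :=
  ![![true, true, true, true, false, false, true, false, false],
    ![true, true, false, false, true, false, true, false, false],
    ![false, false, false, false, true, true, true, false, true]]

/-- The main cells. -/
def mainc : Fin 4 → Fin 3 → Bool :=
  ![![true, true, false], ![true, true, false], ![true, false, false], ![true, false, false]]

lemma comb : ∀ r₀ k₀ r k, mainc r₀ k₀ = true → r ≠ r₀ →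
    ¬ (G (ri r k) (ci r k) = G (ri r₀ k₀) (ci r₀ k₀) ∧
      G (ri r k) (ci r₀ k₀) = G (ri r₀ k₀) (ci r₀ k₀) ∧
      G (ri r₀ k₀) (ci r k) = G (ri r₀ k₀) (ci r₀ k₀)) := by
  decide

/-- The weights. -/
noncomputable def wt (g₁ g₂ g₃ ε : ℝ) : Fin 4 → Fin 3 → ℝ :=
  ![![(1 / 4 - ε * g₂) / 2, (1 / 4 - ε * g₂) / 2, ε * g₂],
    ![(1 / 4 - ε * g₂) / 2, (1 / 4 - ε * g₂) / 2, ε * g₂],
    ![1 / 4 - ε * (g₁ + g₃), ε * g₁, ε * g₃],
    ![1 / 4 - ε * (g₁ + g₃), ε * g₁, ε * g₃]]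

/-- Conditions on the parameters. -/
structure Par (g₁ g₂ g₃ ε : ℝ) : Prop where
  g1 : 0 < g₁
  g2 : 0 < g₂
  g3 : 0 < g₃
  s : g₁ + g₂ + g₃ ≤ 1 / 2
  e : 0 < ε
  e' : ε ≤ 1 / 64

section weights
variable {g₁ g₂ g₃ ε : ℝ} (h : Par g₁ g₂ g₃ ε)

include h in
lemma Par.eg : ε * g₂ ≤ 1 / 128 ∧ ε * (g₁ + g₃) ≤ 1 / 128 := by
  obtain ⟨h1, h2, h3, h4, h5, h6⟩ := h
  constructor
  · have : ε * g₂ ≤ (1 / 64) * (1 / 2) := mul_le_mul h6 (by linarith) h2.le (by norm_num)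
    linarith
  · have : ε * (g₁ + g₃) ≤ (1 / 64) * (1 / 2) :=
      mul_le_mul h6 (by linarith) (by linarith) (by norm_num)
    linarith

include h in
lemma wt_pos : ∀ r k, 0 < wt g₁ g₂ g₃ ε r k := by
  have h1 := h.eg.1
  have h2 := h.eg.2
  have e1 := mul_pos h.e h.g1
  have e2 := mul_pos h.e h.g2
  have e3 := mul_pos h.e h.g3
  intro r k
  fin_cases r <;> fin_cases k <;> simp [wt] <;> linarith

lemma wt_sum : ∀ r, ∑ k, wt g₁ g₂ g₃ ε r k = 1 / 4 := by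
  intro r
  fin_cases r <;> simp [wt, Fin.sum_univ_three] <;> ring

include h in
lemma wt_rare : ∀ r, ∑ k, (if mainc r k = false then wt g₁ g₂ g₃ ε r k else 0) ≤ ε := by
  obtain ⟨h1, h2, h3, h4, h5, h6⟩ := h
  intro r
  fin_cases r <;> simp [wt, mainc, Fin.sum_univ_three] <;> nlinarith

end weights

section leaf

variable (a : Fin 3 → ℝ) (b : Fin 9 → ℝ)

/-- Likelihoods of the cells. -/
def TT (r : Fin 4) (k : Fin 3) : ℝ := a (ri r k) * b (ci r k)

variable {a b} {o : Bool} {g₁ g₂ g₃ ε : ℝ}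

lemma leaf_ineq (h : Par g₁ g₂ g₃ ε) (ha : ∀ i, 0 ≤ a i) (hb : ∀ j, 0 ≤ b j)
    (ho : ∀ i j, a i * b j ≠ 0 → o = G i j) :
    log 4 * Qt (wt g₁ g₂ g₃ ε) (TT a b) + 1 / 2 * ∑ r, Jc (wt g₁ g₂ g₃ ε) (TT a b) r
      ≤ En (wt g₁ g₂ g₃ ε) (TT a b) := by
  have hw := wt_pos h
  have hw4 : ∀ r, ∑ k, wt g₁ g₂ g₃ ε r k = 1 / 4 := wt_sum
  have hT : ∀ r k, 0 ≤ TT a b r k := fun r k => mul_nonneg (ha _) (hb _)
  have hJ : 0 ≤ ∑ r, Jc (wt g₁ g₂ g₃ ε) (TT a b) r :=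
    Finset.sum_nonneg fun r _ => Jc_nonneg hw hT r
  by_cases hm : ∃ r₀ k₀, mainc r₀ k₀ = true ∧ TT a b r₀ k₀ ≠ 0
  · obtain ⟨r₀, k₀, hm0, hT0⟩ := hm
    have h1 : ∀ r, r ≠ r₀ → ∀ k, TT a b r k = 0 := by
      intro r hr k
      by_contra hne
      have a0 : a (ri r₀ k₀) ≠ 0 := left_ne_zero_of_mul hT0
      have b0 : b (ci r₀ k₀) ≠ 0 := right_ne_zero_of_mul hT0
      have a1 : a (ri r k) ≠ 0 := left_ne_zero_of_mul hne
      have b1 : b (ci r k) ≠ 0 := right_ne_zero_of_mul hne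
      have e0 := ho _ _ (mul_ne_zero a0 b0)
      have e1 := ho _ _ (mul_ne_zero a1 b1)
      have e2 := ho _ _ (mul_ne_zero a1 b0)
      have e3 := ho _ _ (mul_ne_zero a0 b1)
      exact comb r₀ k₀ r k hm0 hr ⟨e1.symm.trans e0, e2.symm.trans e0, e3.symm.trans e0⟩
    rw [En_single hw hw4 hT h1]
    linarith
  · push Not at hm
    have h1 := J_le_En hw hw4 hT
    have h2 : ∀ r, Tb (wt g₁ g₂ g₃ ε) (TT a b) r / 4 * log (1 / (4 * ε))
        ≤ Jc (wt g₁ g₂ g₃ ε) (TT a b) r := fun r =>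
      Jc_rare hw hw4 hT h.e (fun k => mainc r k = false)
        (fun k hk => hm r k (by simpa using hk)) (wt_rare h r)
    have h3 : Qt (wt g₁ g₂ g₃ ε) (TT a b) * log (1 / (4 * ε))
        ≤ ∑ r, Jc (wt g₁ g₂ g₃ ε) (TT a b) r := by
      rw [Qt_eq, Finset.sum_mul]
      exact Finset.sum_le_sum fun r _ => h2 r
    have h4 : 2 * log 4 ≤ log (1 / (4 * ε)) := by
      have : 2 * log 4 = log 16 := by
        rw [show (16 : ℝ) = 4 ^ 2 by norm_num, log_pow]; norm_num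
      rw [this]
      apply log_le_log (by norm_num)
      rw [le_div_iff₀ (by have := h.e; positivity)]
      linarith [h.e']
    have h5 := mul_le_mul_of_nonneg_left h4 (Qt_nonneg hw hT)
    nlinarith

end leaf

section proto

variable {X Y : Type} (xr : Fin 3 → X) (yc : Fin 9 → Y)

/-- Cell likelihoods at a tree state. -/
def St (A : X → ℝ) (B : Y → ℝ) : Fin 4 → Fin 3 → ℝ := TT (fun i => A (xr i)) (fun j => B (yc j))

/-- The total within-class divergence of a protocol. -/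
noncomputable def JJ (w : Fin 4 → Fin 3 → ℝ) (t : Protocol X Y Bool) : ℝ :=
  Protocol.lsum (fun A B _ => ∑ r, Jc w (St xr yc A B) r) t (fun _ => 1) (fun _ => 1)

variable [DecidableEq X] [DecidableEq Y]

/-- The input distribution: weight `w r k` on the cell `(r, k)`. -/
noncomputable def mu (w : Fin 4 → Fin 3 → ℝ) (x : X) (y : Y) : ℝ :=
  ∑ r, ∑ k, if xr (ri r k) = x ∧ yc (ci r k) = y then w r k else 0

variable [Fintype X] [Fintype Y]

lemma mu_sum (w : Fin 4 → Fin 3 → ℝ) (Φ : X → Y → ℝ) :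
    ∑ x, ∑ y, mu xr yc w x y * Φ x y = ∑ r, ∑ k, w r k * Φ (xr (ri r k)) (yc (ci r k)) := by
  have h1 : ∀ x y, mu xr yc w x y * Φ x y = ∑ r, ∑ k,
      (if xr (ri r k) = x then (if yc (ci r k) = y then w r k * Φ x y else 0) else 0) := by
    intro x y
    unfold mu
    rw [Finset.sum_mul]
    refine Finset.sum_congr rfl fun r _ => ?_
    rw [Finset.sum_mul]
    refine Finset.sum_congr rfl fun k _ => ?_
    by_cases hx : xr (ri r k) = x <;> by_cases hy : yc (ci r k) = y <;> simp [hx, hy]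
  simp_rw [h1]
  have h2 : ∀ x, ∑ y, ∑ r, ∑ k,
      (if xr (ri r k) = x then (if yc (ci r k) = y then w r k * Φ x y else 0) else 0)
      = ∑ r, ∑ k, ∑ y,
      (if xr (ri r k) = x then (if yc (ci r k) = y then w r k * Φ x y else 0) else 0) := by
    intro x
    rw [Finset.sum_comm]
    refine Finset.sum_congr rfl fun r _ => ?_
    rw [Finset.sum_comm]
  simp_rw [h2]
  rw [Finset.sum_comm]
  refine Finset.sum_congr rfl fun r _ => ?_
  rw [Finset.sum_comm]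
  refine Finset.sum_congr rfl fun k _ => ?_
  rw [Finset.sum_eq_single (xr (ri r k))]
  · rw [Finset.sum_eq_single (yc (ci r k))]
    · simp
    · intro y _ hy; simp [Ne.symm hy]
    · simp
  · intro x _ hx; simp [Ne.symm hx]
  · simp

lemma mu_isDist {g₁ g₂ g₃ ε : ℝ} (h : Par g₁ g₂ g₃ ε) : IsDist (mu xr yc (wt g₁ g₂ g₃ ε)) := by
  constructor
  · intro x y
    refine Finset.sum_nonneg fun r _ => Finset.sum_nonneg fun k _ => ?_
    split_ifs
    · exact (wt_pos h r k).le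
    · exact le_rfl
  · have := mu_sum xr yc (wt g₁ g₂ g₃ ε) fun _ _ => 1
    simp only [mul_one] at this
    rw [this]
    simp_rw [wt_sum]
    norm_num

lemma extInfo_eq (w : Fin 4 → Fin 3 → ℝ) (t : Protocol X Y Bool) :
    t.extInfo (mu xr yc w)
      = Protocol.lsum (fun A B _ => En w (St xr yc A B)) t (fun _ => 1) (fun _ => 1) / log 2 := by
  unfold Protocol.extInfo
  have h := Protocol.transcripts_sum (X := X) (Y := Y) (O := Bool)
    (fun P => negMulLog (∑ x, ∑ y, mu xr yc w x y * P x y)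
      - ∑ x, ∑ y, mu xr yc w x y * negMulLog (P x y)) t (fun _ => 1) (fun _ => 1)
  simp only [one_mul] at h
  rw [h]
  congr 2
  funext A B _
  rw [mu_sum, mu_sum xr yc w fun x y => negMulLog (A x * B y)]
  rfl

/-- First half: `I ≥ 2 + J / 2`. -/
theorem extInfo_ge {g₁ g₂ g₃ ε : ℝ} (h : Par g₁ g₂ g₃ ε) {F : X → Y → Bool}
    (hF : ∀ i j, F (xr i) (yc j) = G i j) {t : Protocol X Y Bool} (ht : t.ZeroError F) :
    0 ≤ JJ xr yc (wt g₁ g₂ g₃ ε) t ∧
    2 + JJ xr yc (wt g₁ g₂ g₃ ε) t / 2 ≤ t.extInfo (mu xr yc (wt g₁ g₂ g₃ ε)) := by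
  have hgood : Protocol.Good F t (fun _ => 1) (fun _ => 1) := fun x y o _ hr => ht x y o hr
  have hnn : Protocol.Nn (fun _ : X => (1 : ℝ)) (fun _ : Y => (1 : ℝ)) :=
    ⟨fun _ => zero_le_one, fun _ => zero_le_one⟩
  have hJ : 0 ≤ JJ xr yc (wt g₁ g₂ g₃ ε) t := by
    have := Protocol.lsum_mono (F := F) (φ := fun _ _ _ => 0)
      (ψ := fun A B _ => ∑ r, Jc (wt g₁ g₂ g₃ ε) (St xr yc A B) r)
      (fun A B o hn _ => Finset.sum_nonneg fun r _ =>
        Jc_nonneg (wt_pos h) (fun r k => mul_nonneg (hn.1 _) (hn.2 _)) r) t _ _ hnn hgood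
    rw [Protocol.lsum_zero] at this
    exact this
  refine ⟨hJ, ?_⟩
  rw [extInfo_eq]
  have h1 := Protocol.lsum_mono (F := F)
    (φ := fun A B _ => log 4 * Qt (wt g₁ g₂ g₃ ε) (St xr yc A B)
      + 1 / 2 * ∑ r, Jc (wt g₁ g₂ g₃ ε) (St xr yc A B) r)
    (ψ := fun A B _ => En (wt g₁ g₂ g₃ ε) (St xr yc A B))
    (fun A B o hn hg => leaf_ineq (o := o) h (fun i => hn.1 _) (fun j => hn.2 _)
      fun i j hij => by rw [← hF]; exact hg _ _ hij) t _ _ hnn hgood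
  rw [Protocol.lsum_add, Protocol.lsum_mul, Protocol.lsum_mul] at h1
  have h2 : Protocol.lsum (fun A B (_ : Bool) => Qt (wt g₁ g₂ g₃ ε) (St xr yc A B)) t
      (fun _ => 1) (fun _ => 1) = 1 := by
    unfold Qt
    rw [Protocol.lsum_sum Finset.univ
      (fun r A B _ => ∑ k, wt g₁ g₂ g₃ ε r k * St xr yc A B r k)]
    have h3 : ∀ r, Protocol.lsum (fun A B (_ : Bool) =>
        ∑ k, wt g₁ g₂ g₃ ε r k * St xr yc A B r k) t (fun _ => 1) (fun _ => 1) = 1 / 4 := by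
      intro r
      rw [Protocol.lsum_sum Finset.univ (fun k A B _ => wt g₁ g₂ g₃ ε r k * St xr yc A B r k),
        ← wt_sum (g₁ := g₁) (g₂ := g₂) (g₃ := g₃) (ε := ε) r]
      refine Finset.sum_congr rfl fun k _ => ?_
      rw [Protocol.lsum_mul]
      have := Protocol.lsum_cell (O := Bool) (xr (ri r k)) (yc (ci r k)) t
        (fun _ => 1) (fun _ => 1)
      unfold St TT
      rw [this]; ring
    simp_rw [h3]
    norm_num
  rw [h2] at h1
  have hl2 : 0 < log 2 := log_pos (by norm_num)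
  have hl2' : log 2 ≤ 1 := by
    have := log_two_lt_d9
    linarith
  have hl4 : log 4 = 2 * log 2 := by
    rw [show (4 : ℝ) = 2 ^ 2 by norm_num, log_pow]; norm_num
  rw [le_div_iff₀ hl2]
  have h5 : JJ xr yc (wt g₁ g₂ g₃ ε) t = Protocol.lsum
    (fun A B _ => ∑ r, Jc (wt g₁ g₂ g₃ ε) (St xr yc A B) r) t (fun _ => 1) (fun _ => 1) := rfl
  rw [← h5, hl4] at h1
  nlinarith

end proto

end Run7.h242.Ext
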