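import Pool.Agent.Run7.h242.ExtLow1

/-!
# The second half of the lower bound: the within-class divergence is at least `6 γ ε`
-/

namespace Run7.h242.Ext

open Real Protocol

lemma split_sqrt {a a' p p' : ℝ} (ha : 0 ≤ a) (ha' : 0 ≤ a') (hp : 0 ≤ p) (hp' : 0 ≤ p')
    (hq : 0 ≤ 1 - p) (hq' : 0 ≤ 1 - p') :
    √(a * (1 - p) * (a' * (1 - p'))) + √(a * p * (a' * p')) ≤ √(a * a') := by
  have h1 : √(a * (1 - p) * (a' * (1 - p'))) = √(a * a') * √((1 - p) * (1 - p')) := by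
    rw [← sqrt_mul (mul_nonneg ha ha')]; congr 1; ring
  have h2 : √(a * p * (a' * p')) = √(a * a') * √(p * p') := by
    rw [← sqrt_mul (mul_nonneg ha ha')]; congr 1; ring
  have h3 : √((1 - p) * (1 - p')) ≤ ((1 - p) + (1 - p')) / 2 := by
    apply sqrt_le_iff.2
    exact ⟨by linarith, by nlinarith [sq_nonneg (p - p')]⟩
  have h4 : √(p * p') ≤ (p + p') / 2 := by
    apply sqrt_le_iff.2
    exact ⟨by linarith, by nlinarith [sq_nonneg (p - p')]⟩
  rw [h1, h2]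
  nlinarith [sqrt_nonneg (a * a')]

lemma abs_bound {p q r M : ℝ} (hp : 0 ≤ p) (hq : 0 ≤ q) (hr : 0 ≤ r) (hM : 0 < M) :
    |p - r| ≤ M * (p + 2 * q + r - 2 * √(p * q) - 2 * √(q * r)) + M⁻¹ * (p + r) := by
  obtain ⟨a, ha, rfl⟩ : ∃ a, 0 ≤ a ∧ p = a ^ 2 := ⟨√p, sqrt_nonneg _, (sq_sqrt hp).symm⟩
  obtain ⟨b, hb, rfl⟩ : ∃ a, 0 ≤ a ∧ q = a ^ 2 := ⟨√q, sqrt_nonneg _, (sq_sqrt hq).symm⟩
  obtain ⟨c, hc, rfl⟩ : ∃ a, 0 ≤ a ∧ r = a ^ 2 := ⟨√r, sqrt_nonneg _, (sq_sqrt hr).symm⟩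
  have h1 : √(a ^ 2 * b ^ 2) = a * b := by
    rw [← mul_pow, sqrt_sq (mul_nonneg ha hb)]
  have h2 : √(b ^ 2 * c ^ 2) = b * c := by
    rw [← mul_pow, sqrt_sq (mul_nonneg hb hc)]
  rw [h1, h2]
  have h3 : |a ^ 2 - c ^ 2| = |a - c| * (a + c) := by
    rw [show a ^ 2 - c ^ 2 = (a - c) * (a + c) by ring, abs_mul, abs_of_nonneg (add_nonneg ha hc)]
  rw [h3]
  have h4 : |a - c| ^ 2 = (a - c) ^ 2 := sq_abs _
  have h5 : 0 < M⁻¹ := inv_pos.2 hM
  have h6 : M * M⁻¹ = 1 := mul_inv_cancel₀ hM.ne'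
  have h7 : |a - c| * (a + c) ≤ (M * |a - c| ^ 2 + M⁻¹ * (a + c) ^ 2) / 2 := by
    have h8 : 0 ≤ M * (|a - c| - M⁻¹ * (a + c)) ^ 2 := mul_nonneg hM.le (sq_nonneg _)
    have h9 : M * (|a - c| - M⁻¹ * (a + c)) ^ 2
        = M * |a - c| ^ 2 - 2 * (M * M⁻¹) * (|a - c| * (a + c))
          + (M * M⁻¹) * (M⁻¹ * (a + c) ^ 2) := by ring
    rw [h9, h6] at h8
    linarith
  have h10 : M * |a - c| ^ 2 ≤ 2 * (M * (a ^ 2 + 2 * b ^ 2 + c ^ 2 - 2 * (a * b) - 2 * (b * c))) := by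
    rw [h4]
    have : (a - c) ^ 2 ≤ 2 * (a ^ 2 + 2 * b ^ 2 + c ^ 2 - 2 * (a * b) - 2 * (b * c)) := by
      nlinarith [sq_nonneg (a - b - (b - c))]
    nlinarith
  have h11 : M⁻¹ * (a + c) ^ 2 ≤ 2 * (M⁻¹ * (a ^ 2 + c ^ 2)) := by
    have : (a + c) ^ 2 ≤ 2 * (a ^ 2 + c ^ 2) := by nlinarith [sq_nonneg (a - c)]
    nlinarith
  linarith

section
variable {X Y O : Type}

/-- Affinity functional. -/
noncomputable def psi (x x' : X) (y y' : Y) (A : X → ℝ) (B : Y → ℝ) : ℝ :=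
  √(A x * A x') * √(B y * B y')

/-- Mixed functional. -/
noncomputable def uu (x x' : X) (y : Y) (A : X → ℝ) (B : Y → ℝ) : ℝ :=
  √(A x * A x') * B y

lemma dec_psi (x x' : X) (y y' : Y) : Dec (psi x x' y y') where
  a := by
    intro A B p hn
    unfold psi
    rw [← add_mul]
    exact mul_le_mul_of_nonneg_right
      (split_sqrt (hn.1 _) (hn.1 _) (u0 _) (u0 _) (u1 _) (u1 _)) (sqrt_nonneg _)
  b := by
    intro A B q hn
    unfold psi
    rw [← mul_add]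
    exact mul_le_mul_of_nonneg_left
      (split_sqrt (hn.2 _) (hn.2 _) (u0 _) (u0 _) (u1 _) (u1 _)) (sqrt_nonneg _)

lemma dec_uu (x x' : X) (y : Y) : Dec (uu x x' y) where
  a := by
    intro A B p hn
    unfold uu
    rw [← add_mul]
    exact mul_le_mul_of_nonneg_right
      (split_sqrt (hn.1 _) (hn.1 _) (u0 _) (u0 _) (u1 _) (u1 _)) (hn.2 _)
  b := by
    intro A B q hn
    unfold uu
    apply le_of_eq; ring

/-- The stopped mass of the mixed functional is almost `1`. -/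
lemma uu_ge {S : (X → ℝ) → (Y → ℝ) → Prop} {κ : ℝ} (hκ : 0 < κ) (x x' : X) (y y' yd : Y)
    (hS : ∀ A B, Nn A B → ¬ S A B → κ * B yd ≤ √(B y * B y')) (t : Protocol X Y O) :
    1 - κ⁻¹ * (1 - lsum (fun A B _ => psi x x' y y' A B) t (fun _ => 1) (fun _ => 1))
      ≤ ssum S (uu x x' yd) (uu x x' yd) t (fun _ => 1) (fun _ => 1) := by
  have h := stopped_key (S := S) (O := O) (ψ := psi x x' y y') (u := uu x x' yd) (c := κ⁻¹)
    (dec_psi x x' y y') (inv_nonneg.2 hκ.le) ?_ ?_ t (fun _ => 1) (fun _ => 1)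
    ⟨fun _ => zero_le_one, fun _ => zero_le_one⟩
  · have h1 : uu x x' yd (fun _ => 1) (fun _ => 1) = 1 := by simp [uu]
    have h2 : psi x x' y y' (fun _ => 1) (fun _ => 1) = 1 := by simp [psi]
    rw [h1, h2] at h
    linarith
  · intro A B p hn hS'
    have h1 := hS A B hn hS'
    have h2 := split_sqrt (hn.1 x) (hn.1 x') (u0 (p x)) (u0 (p x')) (u1 (p x)) (u1 (p x'))
    have h3 : B yd - κ⁻¹ * √(B y * B y') ≤ 0 := by
      have := mul_le_mul_of_nonneg_left h1 (inv_nonneg.2 hκ.le)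
      rw [inv_mul_cancel_left₀ hκ.ne'] at this
      linarith
    unfold uu psi
    have h4 := mul_le_mul_of_nonpos_right h2 h3
    linarith
  · intro A B q hn hS'
    have h1 := (dec_psi x x' y y').b A B q hn
    have h2 := mul_le_mul_of_nonneg_left h1 (inv_nonneg.2 hκ.le)
    unfold uu
    linarith

end

section

variable {X Y : Type} (xr : Fin 3 → X) (yc : Fin 9 → Y)

variable {g₁ g₂ g₃ ε : ℝ}

/-- Total divergence at a leaf. -/
noncomputable def JL (w : Fin 4 → Fin 3 → ℝ) (A : X → ℝ) (B : Y → ℝ) : ℝ :=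
  ∑ r, Jc w (St xr yc A B) r

/-- Affinity of the two main cells of class `r`. -/
noncomputable def ps (r : Fin 4) : (X → ℝ) → (Y → ℝ) → ℝ :=
  psi (xr (ri r 0)) (xr (ri r 1)) (yc (ci r 0)) (yc (ci r 1))

lemma St_nonneg {A : X → ℝ} {B : Y → ℝ} (hn : Nn A B) (r : Fin 4) (k : Fin 3) :
    0 ≤ St xr yc A B r k := mul_nonneg (hn.1 _) (hn.2 _)

lemma hell_point (h : Par g₁ g₂ g₃ ε) {r : Fin 4} (hr : r = 0 ∨ r = 1) {A : X → ℝ} {B : Y → ℝ}
    (hn : Nn A B) :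
    St xr yc A B r 0 + St xr yc A B r 1 + (-2) * ps xr yc r A B
      ≤ 32 * JL xr yc (wt g₁ g₂ g₃ ε) A B := by
  have hw := wt_pos h
  have hT : ∀ r k, 0 ≤ St xr yc A B r k := fun r k => St_nonneg xr yc hn r k
  set T := St xr yc A B with hTdef
  set w := wt g₁ g₂ g₃ ε with hwdef
  have hb := Tb_nonneg hw hT r
  have h0 := kl_hell (hT r 0) hb fun hh => Tb_zero hw hT hh 0
  have h1 := kl_hell (hT r 1) hb fun hh => Tb_zero hw hT hh 1
  have h2 := kl_nonneg (hT r 2) hb fun hh => Tb_zero hw hT hh 2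
  have hw0 : 1 / 16 ≤ w r 0 ∧ 1 / 16 ≤ w r 1 := by
    have h3 := h.eg.1
    rcases hr with rfl | rfl <;> simp [hwdef, wt] <;> linarith
  have hJ : w r 0 * kl (T r 0) (Tb w T r) + w r 1 * kl (T r 1) (Tb w T r)
      + w r 2 * kl (T r 2) (Tb w T r) ≤ JL xr yc w A B := by
    have := Jc_le_sum hw hT r
    unfold Jc at this
    rw [Fin.sum_univ_three] at this
    exact this
  have hps : ps xr yc r A B = √(T r 0) * √(T r 1) := by
    unfold ps psi
    rw [← sqrt_mul (mul_nonneg (hn.1 _) (hn.1 _)), ← sqrt_mul (hT r 0)]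
    congr 1
    simp only [hTdef, St, TT]
    ring
  have e0 := sq_sqrt (hT r 0)
  have e1 := sq_sqrt (hT r 1)
  rw [hps]
  have h5 : (√(T r 0) - √(T r 1)) ^ 2 ≤ 2 * (√(T r 0) - √(Tb w T r)) ^ 2
      + 2 * (√(T r 1) - √(Tb w T r)) ^ 2 := by
    nlinarith [sq_nonneg ((√(T r 0) - √(Tb w T r)) + (√(T r 1) - √(Tb w T r)))]
  have h6 : T r 0 + T r 1 + (-2) * (√(T r 0) * √(T r 1)) = (√(T r 0) - √(T r 1)) ^ 2 := by
    rw [sub_sq, e0, e1]; ring
  rw [h6]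
  have k0 : 0 ≤ kl (T r 0) (Tb w T r) := (sq_nonneg _).trans h0
  have k1 : 0 ≤ kl (T r 1) (Tb w T r) := (sq_nonneg _).trans h1
  have m0 := mul_le_mul_of_nonneg_right hw0.1 k0
  have m1 := mul_le_mul_of_nonneg_right hw0.2 k1
  have m2 := mul_nonneg (hw r 2).le h2
  linarith

variable {F : X → Y → Bool} {t : Protocol X Y Bool}

lemma nn_one : Nn (fun _ : X => (1 : ℝ)) (fun _ : Y => (1 : ℝ)) :=
  ⟨fun _ => zero_le_one, fun _ => zero_le_one⟩

lemma good_one (ht : t.ZeroError F) : Good F t (fun _ => 1) (fun _ => 1) :=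
  fun x y o _ hr => ht x y o hr

lemma hell_sum (h : Par g₁ g₂ g₃ ε) {r : Fin 4} (hr : r = 0 ∨ r = 1) (ht : t.ZeroError F) :
    1 - lsum (fun A B _ => ps xr yc r A B) t (fun _ => 1) (fun _ => 1)
      ≤ 16 * JJ xr yc (wt g₁ g₂ g₃ ε) t := by
  have h1 := lsum_mono (F := F)
    (φ := fun A B _ => St xr yc A B r 0 + St xr yc A B r 1 + (-2) * ps xr yc r A B)
    (ψ := fun A B _ => 32 * JL xr yc (wt g₁ g₂ g₃ ε) A B)
    (fun A B o hn _ => hell_point xr yc h hr hn) t _ _ nn_one (good_one ht)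
  rw [lsum_add, lsum_add, lsum_mul, lsum_mul] at h1
  have h2 : ∀ k, lsum (fun A B (_ : Bool) => St xr yc A B r k) t (fun _ => 1) (fun _ => 1) = 1 := by
    intro k
    have := lsum_cell (O := Bool) (xr (ri r k)) (yc (ci r k)) t (fun _ => 1) (fun _ => 1)
    unfold St TT
    rw [this]; ring
  rw [h2, h2] at h1
  have h3 : lsum (fun A B (_ : Bool) => JL xr yc (wt g₁ g₂ g₃ ε) A B) t (fun _ => 1) (fun _ => 1)
    = JJ xr yc (wt g₁ g₂ g₃ ε) t := rfl
  rw [h3] at h1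
  linarith

/-- Linear lower bound for the divergence below a node, one cell. -/
lemma cell_lin (h : Par g₁ g₂ g₃ ε) (r : Fin 4) (k : Fin 3) {c : ℝ} (hc : 0 < c)
    (t : Protocol X Y Bool) (A : X → ℝ) (B : Y → ℝ) (hn : Nn A B) (hg : Good F t A B) :
    wt g₁ g₂ g₃ ε r k * (log c * St xr yc A B r k
      + (1 - c) * Tb (wt g₁ g₂ g₃ ε) (St xr yc A B) r)
      ≤ lsum (fun A B _ => wt g₁ g₂ g₃ ε r k * kl (St xr yc A B r k)
          (Tb (wt g₁ g₂ g₃ ε) (St xr yc A B) r)) t A B := by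
  have hw := wt_pos h
  have h1 := lsum_mono (F := F)
    (φ := fun A B _ => wt g₁ g₂ g₃ ε r k * (log c * St xr yc A B r k
      + (1 - c) * Tb (wt g₁ g₂ g₃ ε) (St xr yc A B) r))
    (ψ := fun A B _ => wt g₁ g₂ g₃ ε r k * kl (St xr yc A B r k)
          (Tb (wt g₁ g₂ g₃ ε) (St xr yc A B) r))
    (fun A B o hn _ => by
      have hT : ∀ r k, 0 ≤ St xr yc A B r k := fun r k => St_nonneg xr yc hn r k
      refine mul_le_mul_of_nonneg_left ?_ (hw r k).le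
      have := kl_lin (hT r k) (Tb_nonneg hw hT r) (fun hh => Tb_zero hw hT hh k) hc
      linarith) t A B hn hg
  refine le_trans (le_of_eq ?_) h1
  rw [lsum_mul, lsum_add, lsum_mul, lsum_mul]
  have h2 : ∀ k, lsum (fun A B (_ : Bool) => St xr yc A B r k) t A B = St xr yc A B r k := by
    intro k
    have := lsum_cell (O := Bool) (xr (ri r k)) (yc (ci r k)) t A B
    unfold St TT
    exact this
  have h3 : lsum (fun A B (_ : Bool) => Tb (wt g₁ g₂ g₃ ε) (St xr yc A B) r) t A B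
      = Tb (wt g₁ g₂ g₃ ε) (St xr yc A B) r := by
    unfold Tb
    rw [lsum_mul, lsum_sum Finset.univ (fun k A B _ => wt g₁ g₂ g₃ ε r k * St xr yc A B r k)]
    congr 1
    refine Finset.sum_congr rfl fun k _ => ?_
    rw [lsum_mul, h2]
  rw [h2, h3]

end

end Run7.h242.Ext
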