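import Pool.Agent.Run7.h242.ExtLow2

/-!
# The within-class divergence is at least `6 γ ε`
-/

namespace Run7.h242.Ext

open Real Protocol

section

variable {X Y : Type} (xr : Fin 3 → X) (yc : Fin 9 → Y)
variable {g₁ g₂ g₃ ε κ : ℝ}
variable {F : X → Y → Bool} {t : Protocol X Y Bool}

/-- The affinity of the two main columns of class `r` is small compared with column `d`. -/
def Pc (κ : ℝ) (r : Fin 4) (B : Y → ℝ) : Prop :=
  √(B (yc (ci r 0)) * B (yc (ci r 1))) < κ * B (yc 8)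

/-- The stopping rule. -/
def Sc (κ : ℝ) (_ : X → ℝ) (B : Y → ℝ) : Prop := Pc yc κ 0 B ∨ Pc yc κ 1 B

/-- Mixed functional of the rows of class `r` with column `d`. -/
noncomputable def ur (r : Fin 4) : (X → ℝ) → (Y → ℝ) → ℝ :=
  uu (xr (ri r 0)) (xr (ri r 1)) (yc 8)

lemma ur_ge (h : Par g₁ g₂ g₃ ε) (hκ : 0 < κ) {r : Fin 4} (hr : r = 0 ∨ r = 1)
    (ht : t.ZeroError F) :
    1 - κ⁻¹ * (16 * JJ xr yc (wt g₁ g₂ g₃ ε) t)
      ≤ ssum (Sc yc κ) (ur xr yc r) (ur xr yc r) t (fun _ => 1) (fun _ => 1) := by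
  have h1 := uu_ge (S := Sc (X := X) yc κ) hκ (xr (ri r 0)) (xr (ri r 1)) (yc (ci r 0))
    (yc (ci r 1)) (yc 8) (by
      intro A B _ hS
      unfold Sc Pc at hS
      push Not at hS
      rcases hr with rfl | rfl
      · exact hS.1
      · exact hS.2) t
  have h2 := hell_sum xr yc h hr ht
  have h3 := mul_le_mul_of_nonneg_left h2 (inv_nonneg.2 hκ.le)
  have h4 : lsum (fun A B _ => psi (xr (ri r 0)) (xr (ri r 1)) (yc (ci r 0)) (yc (ci r 1)) A B) t
    (fun _ => 1) (fun _ => 1) = lsum (fun A B _ => ps xr yc r A B) t (fun _ => 1) (fun _ => 1) := rfl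
  rw [h4] at h1
  unfold ur
  linarith

lemma sqrt_mul_le {p q : ℝ} (hp : 0 ≤ p) (hq : 0 ≤ q) : √(p * q) ≤ (p + q) / 2 :=
  sqrt_le_iff.2 ⟨by linarith, by nlinarith [sq_nonneg (p - q)]⟩

lemma ur_le (r : Fin 4) (ht : t.ZeroError F) :
    ssum (Sc yc κ) (ur xr yc r) (ur xr yc r) t (fun _ => 1) (fun _ => 1) ≤ 1 := by
  have hp : ∀ (A : X → ℝ) (B : Y → ℝ), Nn A B → ur xr yc r A B ≤
      (1 / 2) * (A (xr (ri r 0)) * B (yc 8)) + (1 / 2) * (A (xr (ri r 1)) * B (yc 8)) := by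
    intro A B hn
    have h1 := sqrt_mul_le (hn.1 (xr (ri r 0))) (hn.1 (xr (ri r 1)))
    have h2 := mul_le_mul_of_nonneg_right h1 (hn.2 (yc 8))
    unfold ur uu
    linarith
  have h1 := ssum_mono (S := Sc yc κ) (F := F) (f := ur xr yc r) (g := ur xr yc r)
    (f' := fun A B => (1 / 2) * (A (xr (ri r 0)) * B (yc 8)) + (1 / 2) * (A (xr (ri r 1)) * B (yc 8)))
    (g' := fun A B => (1 / 2) * (A (xr (ri r 0)) * B (yc 8)) + (1 / 2) * (A (xr (ri r 1)) * B (yc 8)))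
    (fun A B hn _ => hp A B hn) (fun A B o hn _ _ => hp A B hn) t (fun _ => 1) (fun _ => 1)
    nn_one (good_one ht)
  rw [ssum_add, ssum_mul, ssum_mul, ssum_cell, ssum_cell] at h1
  linarith

/-- Pointwise estimate for the class average on a stopped node. -/
lemma mass_point (h : Par g₁ g₂ g₃ ε) {r : Fin 4} (hr : r = 0 ∨ r = 1) {A : X → ℝ}
    {B : Y → ℝ} (hn : Nn A B) (hP : Pc yc κ r B) :
    Tb (wt g₁ g₂ g₃ ε) (St xr yc A B) r ≤
      (1 / 2) * (A (xr (ri r 0)) * B (yc (ci r 0))) + ((1 / 2) * (A (xr (ri r 1)) * B (yc (ci r 1)))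
        + ((-1) * ps xr yc r A B + (κ * ur xr yc r A B
          + 4 * ε * (A (xr (ri r 2)) * B (yc (ci r 2)))))) := by
  have hT : ∀ k, 0 ≤ St xr yc A B r k := fun k => St_nonneg xr yc hn r k
  have h0 : Tb (wt g₁ g₂ g₃ ε) (St xr yc A B) r
      = 4 * ((1 / 4 - ε * g₂) / 2) * St xr yc A B r 0
        + 4 * ((1 / 4 - ε * g₂) / 2) * St xr yc A B r 1 + 4 * (ε * g₂) * St xr yc A B r 2 := by
    unfold Tb
    rw [Fin.sum_univ_three]
    rcases hr with rfl | rfl <;> simp [wt] <;> ring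
  have h1 : ps xr yc r A B ≤ κ * ur xr yc r A B := by
    unfold ps psi ur uu
    have := mul_le_mul_of_nonneg_left hP.le (sqrt_nonneg (A (xr (ri r 0)) * A (xr (ri r 1))))
    linarith
  have e2 := mul_pos h.e h.g2
  have h2 : ε * g₂ ≤ ε := by
    have : g₂ ≤ 1 := by linarith [h.g1, h.g3, h.s]
    nlinarith [h.e]
  rw [h0]
  show 4 * ((1 / 4 - ε * g₂) / 2) * St xr yc A B r 0
        + 4 * ((1 / 4 - ε * g₂) / 2) * St xr yc A B r 1 + 4 * (ε * g₂) * St xr yc A B r 2 ≤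
      (1 / 2) * St xr yc A B r 0 + ((1 / 2) * St xr yc A B r 1
        + ((-1) * ps xr yc r A B + (κ * ur xr yc r A B + 4 * ε * St xr yc A B r 2)))
  have m0 := mul_nonneg e2.le (hT 0)
  have m1 := mul_nonneg e2.le (hT 1)
  have m2 := mul_le_mul_of_nonneg_right h2 (hT 2)
  linarith

lemma mass_nonneg (h : Par g₁ g₂ g₃ ε) (hκ : 0 < κ) {r : Fin 4} {A : X → ℝ}
    {B : Y → ℝ} (hn : Nn A B) :
    0 ≤ (1 / 2) * (A (xr (ri r 0)) * B (yc (ci r 0))) + ((1 / 2) * (A (xr (ri r 1)) * B (yc (ci r 1)))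
        + ((-1) * ps xr yc r A B + (κ * ur xr yc r A B
          + 4 * ε * (A (xr (ri r 2)) * B (yc (ci r 2)))))) := by
  have h1 := sqrt_mul_le (mul_nonneg (hn.1 (xr (ri r 0))) (hn.2 (yc (ci r 0))))
    (mul_nonneg (hn.1 (xr (ri r 1))) (hn.2 (yc (ci r 1))))
  have h2 : ps xr yc r A B = √(A (xr (ri r 0)) * B (yc (ci r 0))
      * (A (xr (ri r 1)) * B (yc (ci r 1)))) := by
    unfold ps psi
    rw [← sqrt_mul (mul_nonneg (hn.1 _) (hn.1 _))]
    congr 1; ring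
  have h3 : 0 ≤ κ * ur xr yc r A B := by
    unfold ur uu
    exact mul_nonneg hκ.le (mul_nonneg (sqrt_nonneg _) (hn.2 _))
  have h4 : 0 ≤ 4 * ε * (A (xr (ri r 2)) * B (yc (ci r 2))) :=
    mul_nonneg (by linarith [h.e]) (mul_nonneg (hn.1 _) (hn.2 _))
  rw [h2]
  linarith

open Classical in
/-- The class average has small mass on the part of the stopping line where `Pc` holds. -/
lemma mass_le (h : Par g₁ g₂ g₃ ε) (hκ : 0 < κ) {r : Fin 4} (hr : r = 0 ∨ r = 1)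
    (ht : t.ZeroError F) (C : (X → ℝ) → (Y → ℝ) → Prop) (hC : ∀ A B, C A B → Pc yc κ r B) :
    ssum (Sc yc κ) (fun A B => if C A B then Tb (wt g₁ g₂ g₃ ε) (St xr yc A B) r else 0)
      (fun _ _ => 0) t (fun _ => 1) (fun _ => 1)
      ≤ 16 * JJ xr yc (wt g₁ g₂ g₃ ε) t + κ + 4 * ε := by
  have h1 := ssum_mono (S := Sc yc κ) (F := F)
    (f := fun A B => if C A B then Tb (wt g₁ g₂ g₃ ε) (St xr yc A B) r else 0)
    (g := fun _ _ => 0)
    (f' := fun A B => (1 / 2) * (A (xr (ri r 0)) * B (yc (ci r 0)))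
        + ((1 / 2) * (A (xr (ri r 1)) * B (yc (ci r 1)))
        + ((-1) * ps xr yc r A B + (κ * ur xr yc r A B
          + 4 * ε * (A (xr (ri r 2)) * B (yc (ci r 2)))))))
    (g' := fun A B => (1 / 2) * (A (xr (ri r 0)) * B (yc (ci r 0)))
        + ((1 / 2) * (A (xr (ri r 1)) * B (yc (ci r 1)))
        + ((-1) * ps xr yc r A B + (κ * ur xr yc r A B
          + 4 * ε * (A (xr (ri r 2)) * B (yc (ci r 2)))))))
    (fun A B hn _ => by
      by_cases hc : C A B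
      · simp only [hc, if_true]
        exact mass_point xr yc h hr hn (hC A B hc)
      · simp only [hc, if_false]
        exact mass_nonneg xr yc h hκ hn)
    (fun A B o hn _ _ => mass_nonneg xr yc h hκ hn) t (fun _ => 1) (fun _ => 1)
    nn_one (good_one ht)
  rw [ssum_add, ssum_add, ssum_add, ssum_add, ssum_mul, ssum_mul, ssum_mul, ssum_mul, ssum_mul,
    ssum_cell, ssum_cell, ssum_cell] at h1
  have h2 := ur_le (κ := κ) xr yc r ht
  have h3 := hell_sum xr yc h hr ht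
  have h4 : lsum (fun A B _ => ps xr yc r A B) t (fun _ => 1) (fun _ => 1)
      ≤ ssum (Sc yc κ) (ps xr yc r) (ps xr yc r) t (fun _ => 1) (fun _ => 1) :=
    (dec_psi _ _ _ _).lsum_le_ssum t _ _ nn_one
  have h5 := mul_le_mul_of_nonneg_left h2 hκ.le
  have h6 : ssum (Sc yc κ) (fun A B => ps xr yc r A B) (fun A B => ps xr yc r A B) t
    (fun _ => 1) (fun _ => 1) = ssum (Sc yc κ) (ps xr yc r) (ps xr yc r) t
    (fun _ => 1) (fun _ => 1) := rfl
  have h7 : ssum (Sc yc κ) (fun A B => ur xr yc r A B) (fun A B => ur xr yc r A B) t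
    (fun _ => 1) (fun _ => 1) = ssum (Sc yc κ) (ur xr yc r) (ur xr yc r) t
    (fun _ => 1) (fun _ => 1) := rfl
  rw [h6, h7] at h1
  linarith

open Classical in
/-- The rare cell of class `r` has small mass there as well. -/
lemma rare_le (h : Par g₁ g₂ g₃ ε) (hκ : 0 < κ) {r : Fin 4} (hr : r = 0 ∨ r = 1)
    (ht : t.ZeroError F) (C : (X → ℝ) → (Y → ℝ) → Prop) (hC : ∀ A B, C A B → Pc yc κ r B)
    {m : ℝ} (hm0 : 0 < m) (hm1 : m ≤ 1)
    (hm : 16 * JJ xr yc (wt g₁ g₂ g₃ ε) t + κ + 4 * ε ≤ m)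
    (hJ : JJ xr yc (wt g₁ g₂ g₃ ε) t ≤ ε) :
    log (1 / m) * ssum (Sc yc κ) (fun A B => if C A B then St xr yc A B r 2 else 0)
      (fun _ _ => 0) t (fun _ => 1) (fun _ => 1) ≤ 1 + 1 / g₂ := by
  have hw := wt_pos h
  have hc : 0 < 1 / m := by positivity
  have hc1 : 1 ≤ 1 / m := by rw [le_div_iff₀ hm0]; linarith
  have h1 := ssum_le_lsum (S := Sc yc κ) (F := F)
    (f := fun A B => wt g₁ g₂ g₃ ε r 2 * (log (1 / m) * (if C A B then St xr yc A B r 2 else 0)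
      + (1 - 1 / m) * (if C A B then Tb (wt g₁ g₂ g₃ ε) (St xr yc A B) r else 0)))
    (g := fun A B => wt g₁ g₂ g₃ ε r 2 * (log (1 / m) * 0 + (1 - 1 / m) * 0))
    (φ := fun A B _ => wt g₁ g₂ g₃ ε r 2 * kl (St xr yc A B r 2)
          (Tb (wt g₁ g₂ g₃ ε) (St xr yc A B) r))
    (fun t' A B hn hg _ => by
      by_cases hcc : C A B
      · simp only [hcc, if_true]
        exact cell_lin xr yc h r 2 hc t' A B hn hg
      · simp only [hcc, if_false, mul_zero, add_zero]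
        have h2 := lsum_mono (F := F) (φ := fun _ _ _ => 0)
          (ψ := fun A B _ => wt g₁ g₂ g₃ ε r 2 * kl (St xr yc A B r 2)
            (Tb (wt g₁ g₂ g₃ ε) (St xr yc A B) r))
          (fun A B o hn _ => by
            have hT : ∀ r k, 0 ≤ St xr yc A B r k := fun r k => St_nonneg xr yc hn r k
            exact mul_nonneg (hw r 2).le (kl_nonneg (hT r 2) (Tb_nonneg hw hT r)
              fun hh => Tb_zero hw hT hh 2)) t' A B hn hg
        rw [lsum_zero] at h2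
        exact h2)
    (fun A B o hn _ _ => by
      have hT : ∀ r k, 0 ≤ St xr yc A B r k := fun r k => St_nonneg xr yc hn r k
      simp only [mul_zero, add_zero]
      exact mul_nonneg (hw r 2).le (kl_nonneg (hT r 2) (Tb_nonneg hw hT r)
              fun hh => Tb_zero hw hT hh 2)) t (fun _ => 1) (fun _ => 1) nn_one (good_one ht)
  have h2 : lsum (fun A B _ => wt g₁ g₂ g₃ ε r 2 * kl (St xr yc A B r 2)
          (Tb (wt g₁ g₂ g₃ ε) (St xr yc A B) r)) t (fun _ => 1) (fun _ => 1)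
          ≤ JJ xr yc (wt g₁ g₂ g₃ ε) t :=
    lsum_mono (F := F) (fun A B o hn _ => by
      have hT : ∀ r k, 0 ≤ St xr yc A B r k := fun r k => St_nonneg xr yc hn r k
      exact (cell_le_Jc hw hT r 2).trans (Jc_le_sum hw hT r)) t _ _ nn_one (good_one ht)
  rw [ssum_mul, ssum_add, ssum_mul, ssum_mul] at h1
  have h3 := mass_le xr yc h hκ hr ht C hC
  set Z := ssum (Sc yc κ) (fun A B => if C A B then St xr yc A B r 2 else 0)
      (fun _ _ => 0) t (fun _ => 1) (fun _ => 1) with hZ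
  set M := ssum (Sc yc κ) (fun A B => if C A B then Tb (wt g₁ g₂ g₃ ε) (St xr yc A B) r else 0)
      (fun _ _ => 0) t (fun _ => 1) (fun _ => 1) with hM
  have h4 : wt g₁ g₂ g₃ ε r 2 = ε * g₂ := by rcases hr with rfl | rfl <;> simp [wt]
  rw [h4] at h1 h2
  have h5 : (1 - 1 / m) * M ≥ -1 := by
    have h6 : (1 / m - 1) * M ≤ (1 / m - 1) * m :=
      mul_le_mul_of_nonneg_left (h3.trans hm) (by linarith)
    have h7 : (1 / m - 1) * m = 1 - m := by field_simp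
    rw [h7] at h6
    linarith
  have h6 : ε * g₂ * (log (1 / m) * Z - 1) ≤ ε * g₂ * (1 / g₂) := by
    have h8 : ε * g₂ * (1 / g₂) = ε := by have := h.g2; field_simp
    rw [h8]
    have h9 : ε * g₂ * (log (1 / m) * Z - 1) ≤ ε * g₂ * (log (1 / m) * Z + (1 - 1 / m) * M) :=
      mul_le_mul_of_nonneg_left (by linarith) (mul_pos h.e h.g2).le
    linarith
  have h7 := le_of_mul_le_mul_left h6 (mul_pos h.e h.g2)
  linarith

/-- Difference of rows `1` and `3` on column `d`. -/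
noncomputable def Dd (A : X → ℝ) (B : Y → ℝ) : ℝ := |A (xr 0) - A (xr 2)| * B (yc 8)

lemma Dd_le (h : Par g₁ g₂ g₃ ε) {η : ℝ} (hη : 0 < η) (hε : ε = η ^ 4) (hκη : κ = η ^ 2)
    (ht : t.ZeroError F) (hJ : JJ xr yc (wt g₁ g₂ g₃ ε) t ≤ ε) :
    ssum (Sc yc κ) (Dd xr yc) (Dd xr yc) t (fun _ => 1) (fun _ => 1) ≤ 66 * η := by
  have hη' : 0 < η⁻¹ := inv_pos.2 hη
  have hκ : 0 < κ := by rw [hκη]; positivity
  have hp : ∀ (A : X → ℝ) (B : Y → ℝ), Nn A B → Dd xr yc A B ≤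
      (η⁻¹ + η) * (A (xr 0) * B (yc 8)) + (2 * η⁻¹ * (A (xr 1) * B (yc 8))
        + ((η⁻¹ + η) * (A (xr 2) * B (yc 8)) + (-(2 * η⁻¹) * ur xr yc 0 A B
          + -(2 * η⁻¹) * ur xr yc 1 A B))) := by
    intro A B hn
    have h1 := abs_bound (hn.1 (xr 0)) (hn.1 (xr 1)) (hn.1 (xr 2)) hη'
    rw [inv_inv] at h1
    have h2 := mul_le_mul_of_nonneg_right h1 (hn.2 (yc 8))
    have h3 : ur xr yc 0 A B = √(A (xr 0) * A (xr 1)) * B (yc 8) := rfl
    have h4 : ur xr yc 1 A B = √(A (xr 1) * A (xr 2)) * B (yc 8) := rfl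
    rw [h3, h4]
    unfold Dd
    refine h2.trans (le_of_eq ?_)
    ring
  have h1 := ssum_mono (S := Sc yc κ) (F := F) (f := Dd xr yc) (g := Dd xr yc)
    (f' := fun A B => (η⁻¹ + η) * (A (xr 0) * B (yc 8)) + (2 * η⁻¹ * (A (xr 1) * B (yc 8))
        + ((η⁻¹ + η) * (A (xr 2) * B (yc 8)) + (-(2 * η⁻¹) * ur xr yc 0 A B
          + -(2 * η⁻¹) * ur xr yc 1 A B))))
    (g' := fun A B => (η⁻¹ + η) * (A (xr 0) * B (yc 8)) + (2 * η⁻¹ * (A (xr 1) * B (yc 8))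
        + ((η⁻¹ + η) * (A (xr 2) * B (yc 8)) + (-(2 * η⁻¹) * ur xr yc 0 A B
          + -(2 * η⁻¹) * ur xr yc 1 A B))))
    (fun A B hn _ => hp A B hn) (fun A B o hn _ _ => hp A B hn) t (fun _ => 1) (fun _ => 1)
    nn_one (good_one ht)
  rw [ssum_add, ssum_add, ssum_add, ssum_add, ssum_mul, ssum_mul, ssum_mul, ssum_mul, ssum_mul,
    ssum_cell, ssum_cell, ssum_cell] at h1
  have e0 : ssum (Sc yc κ) (fun A B => ur xr yc 0 A B) (fun A B => ur xr yc 0 A B) t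
    (fun _ => 1) (fun _ => 1) = ssum (Sc yc κ) (ur xr yc 0) (ur xr yc 0) t
    (fun _ => 1) (fun _ => 1) := rfl
  have e1 : ssum (Sc yc κ) (fun A B => ur xr yc 1 A B) (fun A B => ur xr yc 1 A B) t
    (fun _ => 1) (fun _ => 1) = ssum (Sc yc κ) (ur xr yc 1) (ur xr yc 1) t
    (fun _ => 1) (fun _ => 1) := rfl
  rw [e0, e1] at h1
  have h2 := ur_ge xr yc h hκ (r := 0) (Or.inl rfl) ht
  have h3 := ur_ge xr yc h hκ (r := 1) (Or.inr rfl) ht
  have h4 : κ⁻¹ * (16 * JJ xr yc (wt g₁ g₂ g₃ ε) t) ≤ 16 * η ^ 2 := by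
    rw [inv_mul_le_iff₀ hκ]
    rw [hκη]
    calc 16 * JJ xr yc (wt g₁ g₂ g₃ ε) t ≤ 16 * ε := by linarith
      _ = η ^ 2 * (16 * η ^ 2) := by rw [hε]; ring
  have h5 : 1 - 16 * η ^ 2 ≤ ssum (Sc yc κ) (ur xr yc 0) (ur xr yc 0) t
    (fun _ => 1) (fun _ => 1) := by linarith
  have h6 : 1 - 16 * η ^ 2 ≤ ssum (Sc yc κ) (ur xr yc 1) (ur xr yc 1) t
    (fun _ => 1) (fun _ => 1) := by linarith
  have h7 := mul_le_mul_of_nonneg_left h5 (by positivity : 0 ≤ 2 * η⁻¹)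
  have h8 := mul_le_mul_of_nonneg_left h6 (by positivity : 0 ≤ 2 * η⁻¹)
  have h9 : 2 * η⁻¹ * (1 - 16 * η ^ 2) = 2 * η⁻¹ - 32 * η := by
    field_simp
    ring
  rw [h9] at h7 h8
  linarith

end

end Run7.h242.Ext
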