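import Pool.Agent.Run7.h242.ExtLow3

/-!
# The within-class divergence is at least `6 γ ε`: conclusion
-/

namespace Run7.h242.Ext

open Real Protocol

section

variable {X Y : Type} (xr : Fin 3 → X) (yc : Fin 9 → Y)
variable {g₁ g₂ g₃ ε κ : ℝ}
variable {F : X → Y → Bool} {t : Protocol X Y Bool}

/-- Lower bound for the divergence below a node from the two rare cells of class `2` or `3`. -/
lemma low_rs (h : Par g₁ g₂ g₃ ε) (hg1 : 1 / 4 ≤ g₁) {r : Fin 4} (hr : r = 2 ∨ r = 3)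
    (t : Protocol X Y Bool) (A : X → ℝ) (B : Y → ℝ) (hn : Nn A B) (hg : Good F t A B) :
    ε * g₃ * log (1 / (8 * g₃)) * St xr yc A B r 2 - ε * g₁ * log 2 * St xr yc A B r 1
      ≤ lsum (fun A B _ => JL xr yc (wt g₁ g₂ g₃ ε) A B) t A B := by
  have hw := wt_pos h
  have h8 : 0 < 1 / (8 * g₃) := by have := h.g3; positivity
  have h1 := cell_lin xr yc h r 1 (c := 1 / 2) (by norm_num) t A B hn hg
  have h2 := cell_lin xr yc h r 2 h8 t A B hn hg
  have h3 : lsum (fun A B _ => wt g₁ g₂ g₃ ε r 1 * kl (St xr yc A B r 1)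
          (Tb (wt g₁ g₂ g₃ ε) (St xr yc A B) r)
        + wt g₁ g₂ g₃ ε r 2 * kl (St xr yc A B r 2)
          (Tb (wt g₁ g₂ g₃ ε) (St xr yc A B) r)) t A B
          ≤ lsum (fun A B _ => JL xr yc (wt g₁ g₂ g₃ ε) A B) t A B := by
    refine lsum_mono (F := F) (fun A B o hn _ => ?_) t A B hn hg
    have hT : ∀ r k, 0 ≤ St xr yc A B r k := fun r k => St_nonneg xr yc hn r k
    refine le_trans ?_ (Jc_le_sum hw hT r)
    unfold Jc
    rw [Fin.sum_univ_three]
    have := mul_nonneg (hw r 0).le (kl_nonneg (hT r 0) (Tb_nonneg hw hT r)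
              fun hh => Tb_zero hw hT hh 0)
    linarith
  rw [lsum_add] at h3
  have hT : ∀ r k, 0 ≤ St xr yc A B r k := fun r k => St_nonneg xr yc hn r k
  have hb := Tb_nonneg hw hT r
  have w1 : wt g₁ g₂ g₃ ε r 1 = ε * g₁ := by rcases hr with rfl | rfl <;> simp [wt]
  have w2 : wt g₁ g₂ g₃ ε r 2 = ε * g₃ := by rcases hr with rfl | rfl <;> simp [wt]
  have l2 : log (1 / 2) = - log 2 := by rw [one_div, log_inv]
  rw [l2] at h1
  set TB := Tb (wt g₁ g₂ g₃ ε) (St xr yc A B) r with hTB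
  have h4 : 0 ≤ ε * g₁ * ((1 - 1 / 2) * TB) + ε * g₃ * ((1 - 1 / (8 * g₃)) * TB) := by
    have e1 : ε * g₁ * ((1 - 1 / 2) * TB) + ε * g₃ * ((1 - 1 / (8 * g₃)) * TB)
        = ε * TB * (g₁ / 2 + g₃ - 1 / 8) := by
      have := h.g3
      field_simp
      ring
    rw [e1]
    exact mul_nonneg (mul_nonneg h.e.le hb) (by linarith [h.g3])
  rw [w1] at h1 h3
  rw [w2] at h2 h3
  linarith

open Classical in
/-- The part of column `d` that is decided at the stopping line. -/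
noncomputable def Vv (κ lam : ℝ) (A : X → ℝ) (B : Y → ℝ) : ℝ :=
  if Pc yc κ 0 B then (if B (yc 6) ≤ lam * B (yc 8) then A (xr 2) * B (yc 8) else 0)
  else (if B (yc 7) ≤ lam * B (yc 8) then A (xr 0) * B (yc 8) else 0)

lemma V_le (h : Par g₁ g₂ g₃ ε) (hg1 : 1 / 4 ≤ g₁) {lam : ℝ}
    (ht : t.ZeroError F) :
    (ε * g₃ * log (1 / (8 * g₃)) - ε * g₁ * log 2 * lam) *
      ssum (Sc yc κ) (Vv xr yc κ lam) (fun _ _ => 0) t (fun _ => 1) (fun _ => 1)
      ≤ JJ xr yc (wt g₁ g₂ g₃ ε) t := by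
  have hw := wt_pos h
  have hJ0 : ∀ (A : X → ℝ) (B : Y → ℝ), Nn A B → 0 ≤ JL xr yc (wt g₁ g₂ g₃ ε) A B := by
    intro A B hn
    have hT : ∀ r k, 0 ≤ St xr yc A B r k := fun r k => St_nonneg xr yc hn r k
    exact Finset.sum_nonneg fun r _ => Jc_nonneg hw hT r
  have hl2 : 0 < log 2 := log_pos (by norm_num)
  have key : ∀ (t' : Protocol X Y Bool) (A : X → ℝ) (B : Y → ℝ), Nn A B → Good F t' A B →
      (ε * g₃ * log (1 / (8 * g₃)) - ε * g₁ * log 2 * lam) * Vv xr yc κ lam A B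
        ≤ lsum (fun A B _ => JL xr yc (wt g₁ g₂ g₃ ε) A B) t' A B := by
    intro t' A B hn hg
    have h0 : 0 ≤ lsum (fun A B _ => JL xr yc (wt g₁ g₂ g₃ ε) A B) t' A B := by
      have := lsum_mono (F := F) (φ := fun _ _ _ => 0)
        (ψ := fun A B _ => JL xr yc (wt g₁ g₂ g₃ ε) A B)
        (fun A B o hn _ => hJ0 A B hn) t' A B hn hg
      rw [lsum_zero] at this
      exact this
    have hc : 0 ≤ ε * g₁ * log 2 := mul_nonneg (mul_pos h.e h.g1).le hl2.le
    unfold Vv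
    split_ifs with hP ha hb
    · have h1 := low_rs xr yc h hg1 (r := 3) (Or.inr rfl) t' A B hn hg
      have s2 : St xr yc A B 3 2 = A (xr 2) * B (yc 8) := rfl
      have s1 : St xr yc A B 3 1 = A (xr 2) * B (yc 6) := rfl
      rw [s1, s2] at h1
      have h2 := mul_le_mul_of_nonneg_left (mul_le_mul_of_nonneg_left ha (hn.1 (xr 2))) hc
      linarith
    · simpa using h0
    · have h1 := low_rs xr yc h hg1 (r := 2) (Or.inl rfl) t' A B hn hg
      have s2 : St xr yc A B 2 2 = A (xr 0) * B (yc 8) := rfl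
      have s1 : St xr yc A B 2 1 = A (xr 0) * B (yc 7) := rfl
      rw [s1, s2] at h1
      have h2 := mul_le_mul_of_nonneg_left (mul_le_mul_of_nonneg_left hb (hn.1 (xr 0))) hc
      linarith
    · simpa using h0
  have h1 := ssum_le_lsum (S := Sc yc κ) (F := F)
    (f := fun A B => (ε * g₃ * log (1 / (8 * g₃)) - ε * g₁ * log 2 * lam) * Vv xr yc κ lam A B)
    (g := fun _ _ => (ε * g₃ * log (1 / (8 * g₃)) - ε * g₁ * log 2 * lam) * 0)
    (φ := fun A B _ => JL xr yc (wt g₁ g₂ g₃ ε) A B)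
    (fun t' A B hn hg _ => key t' A B hn hg)
    (fun A B o hn _ _ => by rw [mul_zero]; exact hJ0 A B hn) t (fun _ => 1) (fun _ => 1)
    nn_one (good_one ht)
  rw [ssum_mul] at h1
  exact h1

open Classical in
lemma V_ge (hF : ∀ i j, F (xr i) (yc j) = G i j) {lam : ℝ} (hlam : 0 < lam)
    (ht : t.ZeroError F) :
    1 ≤ ssum (Sc yc κ) (Vv xr yc κ lam) (fun _ _ => 0) t (fun _ => 1) (fun _ => 1)
      + 3 * ssum (Sc yc κ) (Dd xr yc) (Dd xr yc) t (fun _ => 1) (fun _ => 1)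
      + lam⁻¹ * (ssum (Sc yc κ) (fun A B => if Pc yc κ 0 B then St xr yc A B 0 2 else 0)
            (fun _ _ => 0) t (fun _ => 1) (fun _ => 1)
          + ssum (Sc yc κ) (fun A B => if ¬ Pc yc κ 0 B ∧ Pc yc κ 1 B then St xr yc A B 1 2 else 0)
            (fun _ _ => 0) t (fun _ => 1) (fun _ => 1)) := by
  have h1 := ssum_mono (S := Sc yc κ) (F := F)
    (f := fun A B => A (xr 2) * B (yc 8)) (g := fun A B => A (xr 2) * B (yc 8))
    (f' := fun A B => Vv xr yc κ lam A B + (3 * Dd xr yc A B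
      + lam⁻¹ * ((if Pc yc κ 0 B then St xr yc A B 0 2 else 0)
        + (if ¬ Pc yc κ 0 B ∧ Pc yc κ 1 B then St xr yc A B 1 2 else 0))))
    (g' := fun A B => 0 + (3 * Dd xr yc A B + lam⁻¹ * (0 + 0)))
    (fun A B hn hS => by
      have hD0 : 0 ≤ Dd xr yc A B := mul_nonneg (abs_nonneg _) (hn.2 _)
      have hD1 : A (xr 2) * B (yc 8) ≤ A (xr 0) * B (yc 8) + Dd xr yc A B := by
        have : A (xr 2) ≤ A (xr 0) + |A (xr 0) - A (xr 2)| := by
          have := neg_abs_le (A (xr 0) - A (xr 2)); linarith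
        have := mul_le_mul_of_nonneg_right this (hn.2 (yc 8))
        unfold Dd
        linarith
      have s0 : St xr yc A B 0 2 = A (xr 0) * B (yc 6) := rfl
      have s1 : St xr yc A B 1 2 = A (xr 2) * B (yc 7) := rfl
      have i0 : 0 < lam⁻¹ := inv_pos.2 hlam
      unfold Vv
      by_cases hP : Pc yc κ 0 B
      · simp only [hP, if_true, not_true, false_and, if_false, add_zero, s0]
        have hm : 0 ≤ lam⁻¹ * (A (xr 0) * B (yc 6)) :=
          mul_nonneg i0.le (mul_nonneg (hn.1 _) (hn.2 _))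
        split_ifs with ha
        · linarith
        · have ha' : B (yc 8) ≤ lam⁻¹ * B (yc 6) := by
            rw [inv_mul_eq_div, le_div_iff₀ hlam]; push Not at ha; linarith
          have := mul_le_mul_of_nonneg_left ha' (hn.1 (xr 0))
          linarith
      · have hP1 : Pc yc κ 1 B := hS.resolve_left hP
        simp only [hP, hP1, if_true, not_false_eq_true, and_true, if_false, zero_add, s1]
        have hm : 0 ≤ lam⁻¹ * (A (xr 2) * B (yc 7)) :=
          mul_nonneg i0.le (mul_nonneg (hn.1 _) (hn.2 _))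
        split_ifs with hb
        · linarith
        · have hb' : B (yc 8) ≤ lam⁻¹ * B (yc 7) := by
            rw [inv_mul_eq_div, le_div_iff₀ hlam]; push Not at hb; linarith
          have := mul_le_mul_of_nonneg_left hb' (hn.1 (xr 2))
          linarith)
    (fun A B o hn _ hg => by
      have hD0 : 0 ≤ Dd xr yc A B := mul_nonneg (abs_nonneg _) (hn.2 _)
      have hD : A (xr 2) * B (yc 8) ≤ Dd xr yc A B := by
        unfold Dd
        by_cases h0 : A (xr 0) * B (yc 8) = 0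
        · rcases mul_eq_zero.1 h0 with h0 | h0
          · rw [h0, zero_sub, abs_neg]
            exact mul_le_mul_of_nonneg_right (le_abs_self _) (hn.2 _)
          · simp [h0]
        · by_cases h2 : A (xr 2) * B (yc 8) = 0
          · rw [h2]; exact mul_nonneg (abs_nonneg _) (hn.2 _)
          · exfalso
            have e1 := hg _ _ h0
            have e2 := hg _ _ h2
            rw [hF] at e1 e2
            rw [e1] at e2
            exact absurd e2 (by decide)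
      linarith) t (fun _ => 1) (fun _ => 1) nn_one (good_one ht)
  rw [ssum_cell, ssum_add, ssum_add, ssum_mul, ssum_mul, ssum_add] at h1
  have e1 : ssum (Sc yc κ) (fun A B => Vv xr yc κ lam A B) (fun _ _ => 0) t (fun _ => 1)
    (fun _ => 1) = ssum (Sc yc κ) (Vv xr yc κ lam) (fun _ _ => 0) t (fun _ => 1)
    (fun _ => 1) := rfl
  have e2 : ssum (Sc yc κ) (fun A B => Dd xr yc A B) (fun A B => Dd xr yc A B) t (fun _ => 1)
    (fun _ => 1) = ssum (Sc yc κ) (Dd xr yc) (Dd xr yc) t (fun _ => 1)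
    (fun _ => 1) := rfl
  rw [e1, e2] at h1
  linarith

/-- **The lower bound for the within-class divergence.** -/
theorem J_ge (h : Par g₁ g₂ g₃ ε) (hF : ∀ i j, F (xr i) (yc j) = G i j) (ht : t.ZeroError F)
    {η : ℝ} (hη : 0 < η) (hε : ε = η ^ 4) (hη1 : 792 * η ≤ 1) (hg1 : 1 / 4 ≤ g₁)
    (hg3 : 25 ≤ log (1 / (8 * g₃))) (hK : 8 * (1 + 1 / g₂) / g₃ ≤ log (1 / (21 * η ^ 2))) :
    12 * g₃ * ε ≤ JJ xr yc (wt g₁ g₂ g₃ ε) t := by
  classical
  by_contra hcon
  push Not at hcon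
  have hs := h.s
  have p1 := h.g1
  have p2 := h.g2
  have p3 := h.g3
  have pe := h.e
  have hl2 : 0 < log 2 := log_pos (by norm_num)
  have hl2' : log 2 ≤ 1 := by have := log_two_lt_d9; linarith
  have hg3' : 12 * g₃ ≤ 1 := by
    by_contra hc
    push Not at hc
    have h1 : 1 / (8 * g₃) ≤ 2 := by rw [div_le_iff₀ (by linarith)]; linarith
    have h2 := log_le_log (by positivity) h1
    linarith
  have hJ : JJ xr yc (wt g₁ g₂ g₃ ε) t ≤ ε := by nlinarith
  set κ := η ^ 2 with hκη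
  have hκ : 0 < κ := by positivity
  have hεκ : ε ≤ κ := by
    rw [hε, hκη]
    exact pow_le_pow_of_le_one hη.le (by linarith) (by norm_num)
  have hm : 16 * JJ xr yc (wt g₁ g₂ g₃ ε) t + κ + 4 * ε ≤ 21 * κ := by linarith
  have hm1 : 21 * κ ≤ 1 := by
    rw [hκη]; nlinarith
  have z0 := rare_le xr yc h hκ (r := 0) (Or.inl rfl) ht (fun _ B => Pc yc κ 0 B)
    (fun A B hc => hc) (by positivity) hm1 hm hJ
  have z1 := rare_le xr yc h hκ (r := 1) (Or.inr rfl) ht
    (fun _ B => ¬ Pc yc κ 0 B ∧ Pc yc κ 1 B) (fun A B hc => hc.2) (by positivity) hm1 hm hJ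
  have hD := Dd_le xr yc h hη hε hκη ht hJ
  have hV := V_ge (κ := κ) xr yc hF p3 ht
  have hV2 := V_le (κ := κ) (lam := g₃) xr yc h hg1 ht
  set Z0 := ssum (Sc yc κ) (fun A B => if Pc yc κ 0 B then St xr yc A B 0 2 else 0)
            (fun _ _ => 0) t (fun _ => 1) (fun _ => 1) with hZ0
  set Z1 := ssum (Sc yc κ) (fun A B => if ¬ Pc yc κ 0 B ∧ Pc yc κ 1 B then St xr yc A B 1 2 else 0)
            (fun _ _ => 0) t (fun _ => 1) (fun _ => 1) with hZ1
  set V := ssum (Sc yc κ) (Vv xr yc κ g₃) (fun _ _ => 0) t (fun _ => 1) (fun _ => 1) with hVd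
  set D := ssum (Sc yc κ) (Dd xr yc) (Dd xr yc) t (fun _ => 1) (fun _ => 1) with hDd
  have hK0 : 0 < 8 * (1 + 1 / g₂) / g₃ := by positivity
  have hL : 0 < log (1 / (21 * κ)) := lt_of_lt_of_le hK0 hK
  have hZ : ∀ Z : ℝ, log (1 / (21 * κ)) * Z ≤ 1 + 1 / g₂ → g₃⁻¹ * Z ≤ 1 / 8 := by
    intro Z hz
    have h2 : 0 < 1 + 1 / g₂ := by positivity
    have h3 : Z ≤ (1 + 1 / g₂) / log (1 / (21 * κ)) := by
      rw [le_div_iff₀ hL]; linarith
    have h4 : (1 + 1 / g₂) / log (1 / (21 * κ)) ≤ g₃ / 8 := by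
      rw [div_le_iff₀ hL]
      have h5 := mul_le_mul_of_nonneg_left hK (by linarith : 0 ≤ g₃ / 8)
      have h6 : g₃ / 8 * (8 * (1 + 1 / g₂) / g₃) = 1 + 1 / g₂ := by field_simp
      rw [h6] at h5
      exact h5
    rw [inv_mul_le_iff₀ p3]
    linarith
  have y0 := hZ _ z0
  have z1' : log (1 / (21 * κ)) * Z1 ≤ 1 + 1 / g₂ := by
    rw [hZ1]
    convert z1
  have y1 := hZ _ z1'
  have hVhalf : 1 / 2 ≤ V := by
    have h1 : g₃⁻¹ * (Z0 + Z1) = g₃⁻¹ * Z0 + g₃⁻¹ * Z1 := by ring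
    rw [h1] at hV
    linarith
  have hc : 24 * (g₃ * ε) ≤ ε * g₃ * log (1 / (8 * g₃)) - ε * g₁ * log 2 * g₃ := by
    have h1 : g₁ * log 2 ≤ 1 := by nlinarith
    have h2 := mul_pos p3 pe
    have h3 : ε * g₃ * log (1 / (8 * g₃)) - ε * g₁ * log 2 * g₃
      = (g₃ * ε) * (log (1 / (8 * g₃)) - g₁ * log 2) := by ring
    rw [h3]
    nlinarith
  have hfin : 24 * (g₃ * ε) * (1 / 2) ≤ JJ xr yc (wt g₁ g₂ g₃ ε) t := by
    refine le_trans ?_ hV2
    refine mul_le_mul hc hVhalf (by norm_num) ?_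
    refine le_trans ?_ hc
    positivity
  linarith

end

end Run7.h242.Ext
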