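import Pool.Agent.Run7.h242.ExtUp2

/-!
# Amortized upper bound for zero-error expected communication
-/

open Filter Topology

namespace Run7.h242.Ext

open Real Protocol

/-- An exponential moment below one. -/
lemma exists_theta {ι : Type} (s : Finset ι) (m t : ι → ℝ) (hm : ∀ i ∈ s, 0 ≤ m i)
    (hm1 : ∑ i ∈ s, m i = 1) (ht : ∑ i ∈ s, m i * t i < 0) :
    ∃ θ : ℝ, 0 < θ ∧ ∑ i ∈ s, m i * exp (θ * t i) < 1 := by
  obtain ⟨K, hK1, hK⟩ : ∃ K : ℝ, 1 ≤ K ∧ ∀ i ∈ s, |t i| ≤ K := by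
    refine ⟨1 + ∑ i ∈ s, |t i|, ?_, fun i hi => ?_⟩
    · have : 0 ≤ ∑ i ∈ s, |t i| := Finset.sum_nonneg fun i _ => abs_nonneg _
      linarith
    · have := Finset.single_le_sum (f := fun i => |t i|) (fun i _ => abs_nonneg _) hi
      linarith
  set δ := -∑ i ∈ s, m i * t i with hδ
  have hδ0 : 0 < δ := by rw [hδ]; linarith
  have hK0 : 0 < K := by linarith
  set θ := min (1 / K) (δ / (2 * K ^ 2)) with hθ
  have hθ0 : 0 < θ := lt_min (by positivity) (by positivity)
  have hθ1 : θ * K ≤ 1 := by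
    have := min_le_left (1 / K) (δ / (2 * K ^ 2))
    calc θ * K ≤ 1 / K * K := mul_le_mul_of_nonneg_right this hK0.le
      _ = 1 := by field_simp
  have hθ2 : θ * K ^ 2 ≤ δ / 2 := by
    have := min_le_right (1 / K) (δ / (2 * K ^ 2))
    calc θ * K ^ 2 ≤ δ / (2 * K ^ 2) * K ^ 2 := mul_le_mul_of_nonneg_right this (by positivity)
      _ = δ / 2 := by field_simp
  refine ⟨θ, hθ0, ?_⟩
  have h1 : ∀ i ∈ s, m i * exp (θ * t i) ≤ m i + θ * (m i * t i) + θ ^ 2 * K ^ 2 * m i := by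
    intro i hi
    have h2 : |θ * t i| ≤ 1 := by
      rw [abs_mul, abs_of_pos hθ0]
      exact (mul_le_mul_of_nonneg_left (hK i hi) hθ0.le).trans hθ1
    have h3 := (abs_le.1 (abs_exp_sub_one_sub_id_le h2)).2
    have h4 : (θ * t i) ^ 2 ≤ θ ^ 2 * K ^ 2 := by
      rw [mul_pow]
      have : t i ^ 2 ≤ K ^ 2 := by
        rw [← sq_abs (t i)]
        exact pow_le_pow_left₀ (abs_nonneg _) (hK i hi) 2
      exact mul_le_mul_of_nonneg_left this (by positivity)
    have h5 : exp (θ * t i) ≤ 1 + θ * t i + θ ^ 2 * K ^ 2 := by linarith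
    have := mul_le_mul_of_nonneg_left h5 (hm i hi)
    linarith
  have h2 := Finset.sum_le_sum h1
  rw [Finset.sum_add_distrib, Finset.sum_add_distrib, ← Finset.mul_sum, ← Finset.mul_sum, hm1]
    at h2
  have h3 : ∑ i ∈ s, m i * t i = -δ := by rw [hδ]; ring
  rw [h3] at h2
  have h4 : θ ^ 2 * K ^ 2 * 1 ≤ θ * (δ / 2) := by
    have := mul_le_mul_of_nonneg_left hθ2 hθ0.le
    calc θ ^ 2 * K ^ 2 * 1 = θ * (θ * K ^ 2) := by ring
      _ ≤ θ * (δ / 2) := this
  have h5 : 0 < θ * δ := mul_pos hθ0 hδ0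
  linarith

lemma CC_le {X Y O : Type} [Fintype X] [Fintype Y] {F : X → Y → O} {ν : X → Y → ℝ}
    (hν : ∀ x y, 0 ≤ ν x y) {t : Protocol X Y O} (ht : t.ZeroError F) : CC F ν ≤ t.cost ν := by
  apply csInf_le
  · refine ⟨0, ?_⟩
    rintro r ⟨t', _, rfl⟩
    exact Finset.sum_nonneg fun x _ => Finset.sum_nonneg fun y _ =>
      mul_nonneg (hν x y) (bits_nonneg t' x y)
  · exact ⟨t, ht, rfl⟩

section

variable {X Y : Type} [Fintype X] [Fintype Y] [DecidableEq X] [DecidableEq Y] [Nonempty X]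
variable {F : X → Y → Bool} {μ g : X → Y → ℝ} {PA : Bool × Bool → X → Prop}
  {PB : Bool × Bool → Y → Prop} {col : Bool × Bool → Bool} {cl : X → Y → Bool × Bool}

omit [DecidableEq X] [DecidableEq Y] [Fintype Y] [Nonempty X] in
open Classical in
lemma typ_card (hg0 : ∀ x y, 0 ≤ g x y) (hg1 : ∀ y, ∑ x, g x y ≤ 1) (b : ℝ) (n : ℕ)
    (y : Fin n → Y) :
    ((Finset.univ.filter fun z : Fin n → X => Typ g b n z y).card : ℝ) ≤ exp (b * n) := by
  have h1 : ∑ z : Fin n → X, ∏ i, g (z i) (y i) ≤ 1 := by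
    have h2 := Finset.prod_univ_sum (fun _ : Fin n => (Finset.univ : Finset X))
      (fun i a => g a (y i))
    rw [Fintype.piFinset_univ] at h2
    rw [← h2]
    exact Finset.prod_le_one (fun i _ => Finset.sum_nonneg fun x _ => hg0 _ _)
      fun i _ => hg1 _
  have h3 : ((Finset.univ.filter fun z : Fin n → X => Typ g b n z y).card : ℝ) * exp (-(b * n))
      ≤ ∑ z : Fin n → X, ∏ i, g (z i) (y i) := by
    rw [← nsmul_eq_mul, ← Finset.sum_const]
    refine (Finset.sum_le_sum (g := fun z => ∏ i, g (z i) (y i)) fun z hz => ?_).trans ?_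
    · exact (Finset.mem_filter.1 hz).2
    · exact Finset.sum_le_sum_of_subset_of_nonneg (Finset.filter_subset _ _)
        fun z _ _ => Finset.prod_nonneg fun i _ => hg0 _ _
  have h4 := h3.trans h1
  rw [exp_neg, ← div_eq_mul_inv, div_le_one (exp_pos _)] at h4
  exact h4

omit [Nonempty X] in
open Classical in
lemma atyp_le (hμ : ∀ x y, 0 ≤ μ x y) (hgμ : ∀ x y, μ x y ≠ 0 → 0 < g x y)
    (b θ : ℝ) (hθ : 0 < θ) (n : ℕ) :
    ∑ x, ∑ y, powDist μ n x y * (if Typ g b n x y then 0 else 1)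
      ≤ (∑ x, ∑ y, μ x y * exp (θ * (-b - log (g x y)))) ^ n := by
  rw [← sum_pow]
  refine Finset.sum_le_sum fun x _ => Finset.sum_le_sum fun y _ => ?_
  unfold powDist
  rw [Finset.prod_mul_distrib]
  have h0 : 0 ≤ ∏ i, μ (x i) (y i) := Finset.prod_nonneg fun i _ => hμ _ _
  by_cases hz : ∏ i, μ (x i) (y i) = 0
  · simp [hz]
  have hpos : ∀ i, 0 < g (x i) (y i) := fun i =>
    hgμ _ _ (Finset.prod_ne_zero_iff.1 hz i (Finset.mem_univ i))
  refine mul_le_mul_of_nonneg_left ?_ h0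
  split_ifs with ht
  · exact Finset.prod_nonneg fun i _ => (exp_pos _).le
  · rw [← exp_sum, ← Finset.mul_sum]
    apply one_le_exp
    apply mul_nonneg hθ.le
    unfold Typ at ht
    push Not at ht
    have h1 := log_lt_log (Finset.prod_pos fun i _ => hpos i) ht
    rw [log_exp, log_prod fun i _ => (hpos i).ne'] at h1
    rw [Finset.sum_sub_distrib]
    simp only [Finset.sum_const, Finset.card_univ, Fintype.card_fin, nsmul_eq_mul]
    linarith

lemma one_n (hμ : IsDist μ) (hg0 : ∀ x y, 0 ≤ g x y) (hg1 : ∀ y, ∑ x, g x y ≤ 1)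
    (hgμ : ∀ x y, μ x y ≠ 0 → 0 < g x y)
    (hmono : ∀ r x y, PA r x → PB r y → F x y = col r)
    (hcl : ∀ x y, μ x y ≠ 0 → PA (cl x y) x ∧ PB (cl x y) y)
    (b θ : ℝ) (hθ : 0 < θ) (n k : ℕ) :
    CC (powFun F n) (powDist μ n) ≤ k + (2 * n + 1) + 1 + (Fintype.card X + 1) * n *
      ((∑ x, ∑ y, μ x y * exp (θ * (-b - log (g x y)))) ^ n + exp (b * n) / 2 ^ k) := by
  classical
  have hν0 : ∀ x y, 0 ≤ powDist μ n x y := fun x y => Finset.prod_nonneg fun i _ => hμ.1 _ _
  have hν1 : ∑ x, ∑ y, powDist μ n x y = 1 := by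
    unfold powDist
    rw [sum_pow, hμ.2, one_pow]
  obtain ⟨H, hH⟩ := exists_hash (V := Fin k → Bool) (powDist μ n) hν0 hν1 (Typ g b n)
    (exp (b * n)) (typ_card hg0 hg1 b n)
  obtain ⟨eX⟩ : Nonempty ((Fin n → X) ↪ (Fin (Fintype.card X * n) → Bool)) := by
    apply exists_emb
    rw [Fintype.card_fun, Fintype.card_fin, pow_mul]
    exact Nat.pow_le_pow_left Nat.lt_two_pow_self.le n
  obtain ⟨eM⟩ : Nonempty (Option (Fin n → Bool × Bool) ↪ (Fin (2 * n + 1) → Bool)) := by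
    apply exists_emb
    rw [Fintype.card_option, Fintype.card_fun, Fintype.card_fin, Fintype.card_prod,
      Fintype.card_bool, pow_succ, pow_mul]
    have : 1 ≤ (2 * 2) ^ n := Nat.one_le_pow _ _ (by norm_num)
    have h2 : (2 ^ 2) ^ n = (2 * 2) ^ n := by norm_num
    rw [h2]
    omega
  set FB : Protocol (Fin n → X) (Fin n → Y) (Fin n → Bool) :=
    fallback eX (Function.Embedding.refl (Fin n → Bool)) (powFun F n) with hFB
  have hFBb : ∀ x y, FB.bits x y = (Fintype.card X + 1) * n := by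
    intro x y
    rw [hFB, bits_fallback]
    push_cast; ring
  have hFB0 : FB.ZeroError (powFun F n) := fun x y o h => reach_fallback _ _ _ x y o h
  have hc : (0 : ℝ) ≤ (Fintype.card X + 1) * n := by positivity
  refine (CC_le hν0 (mainP_zero (b := b) (H := H) (eM := eM) (cl := cl) (g := g)
    hFB0 hmono)).trans ?_
  unfold Protocol.cost
  have hpt : ∀ x y, powDist μ n x y * (mainP g PA PB col cl b H eM FB).bits x y
      ≤ powDist μ n x y * (k + (2 * n + 1 : ℕ) + 1) + (Fintype.card X + 1) * n *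
        (powDist μ n x y * (if Typ g b n x y then 0 else 1)
          + powDist μ n x y * (if ∃ z, z ≠ x ∧ Typ g b n z y ∧ H z = H x then 1 else 0)) := by
    intro x y
    have h0 := hν0 x y
    by_cases hz : powDist μ n x y = 0
    · simp [hz]
    have hcl' : ∀ i, PA (cl (x i) (y i)) (x i) ∧ PB (cl (x i) (y i)) (y i) := fun i =>
      hcl _ _ (Finset.prod_ne_zero_iff.1 hz i (Finset.mem_univ i))
    by_cases ht : Typ g b n x y
    · by_cases hcoll : ∃ z, z ≠ x ∧ Typ g b n z y ∧ H z = H x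
      · have h1 := mul_le_mul_of_nonneg_left
          (mainP_bits_le (g := g) (PA := PA) (PB := PB) (col := col) (cl := cl) (b := b)
            (H := H) (eM := eM) hFBb hc x y) h0
        rw [if_pos ht, if_pos hcoll]
        linarith
      · rw [mainP_bits_ok x y ht hcoll hcl', if_pos ht, if_neg hcoll]
        simp
    · have h1 := mul_le_mul_of_nonneg_left
          (mainP_bits_le (g := g) (PA := PA) (PB := PB) (col := col) (cl := cl) (b := b)
            (H := H) (eM := eM) hFBb hc x y) h0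
      rw [if_neg ht]
      have h2 : 0 ≤ powDist μ n x y *
          (if ∃ z, z ≠ x ∧ Typ g b n z y ∧ H z = H x then 1 else 0) := by
        split_ifs <;> simp [h0]
      have h3 := mul_nonneg hc h2
      linarith
  have hsum := Finset.sum_le_sum fun x (_ : x ∈ Finset.univ) =>
    Finset.sum_le_sum fun y (_ : y ∈ Finset.univ) => hpt x y
  refine hsum.trans ?_
  have e1 : ∑ x, ∑ y, (powDist μ n x y * (k + (2 * n + 1 : ℕ) + 1) + (Fintype.card X + 1) * n *
        (powDist μ n x y * (if Typ g b n x y then 0 else 1)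
          + powDist μ n x y * (if ∃ z, z ≠ x ∧ Typ g b n z y ∧ H z = H x then 1 else 0)))
      = (∑ x, ∑ y, powDist μ n x y) * (k + (2 * n + 1 : ℕ) + 1) + (Fintype.card X + 1) * n *
        (∑ x, ∑ y, powDist μ n x y * (if Typ g b n x y then 0 else 1)
        + ∑ x, ∑ y, powDist μ n x y *
          (if ∃ z, z ≠ x ∧ Typ g b n z y ∧ H z = H x then 1 else 0)) := by
    simp only [Finset.sum_add_distrib, ← Finset.mul_sum, ← Finset.sum_mul]
  rw [e1, hν1, one_mul]
  have h5 := atyp_le (n := n) (b := b) hμ.1 hgμ θ hθ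
  have h6 : (Fintype.card (Fin k → Bool) : ℝ) = 2 ^ k := by
    rw [Fintype.card_fun, Fintype.card_fin, Fintype.card_bool]; push_cast; rfl
  rw [h6] at hH
  have h7 := mul_le_mul_of_nonneg_left (add_le_add h5 hH) hc
  refine add_le_add (le_of_eq ?_) ?_
  · push_cast; ring
  · convert h7

/-- **Amortized upper bound.** -/
theorem upper (hμ : IsDist μ) (hg0 : ∀ x y, 0 ≤ g x y) (hg1 : ∀ y, ∑ x, g x y ≤ 1)
    (hgμ : ∀ x y, μ x y ≠ 0 → 0 < g x y)
    (hmono : ∀ r x y, PA r x → PB r y → F x y = col r)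
    (hcl : ∀ x y, μ x y ≠ 0 → PA (cl x y) x ∧ PB (cl x y) y)
    (b₀ : ℝ) (hb₀ : ∑ x, ∑ y, μ x y * (-log (g x y)) < b₀ * log 2) :
    ∀ᶠ n : ℕ in atTop, CC (powFun F n) (powDist μ n) / n ≤ 2 + b₀ := by
  obtain ⟨b, hb1, hb2⟩ := exists_between hb₀
  obtain ⟨b', hb3, hb4⟩ := exists_between hb2
  have hl2 : 0 < log 2 := log_pos (by norm_num)
  obtain ⟨θ, hθ, hq⟩ : ∃ θ : ℝ, 0 < θ ∧
      ∑ x, ∑ y, μ x y * exp (θ * (-b - log (g x y))) < 1 := by
    obtain ⟨θ, hθ, h⟩ := exists_theta (Finset.univ : Finset (X × Y)) (fun p => μ p.1 p.2)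
      (fun p => -b - log (g p.1 p.2)) (fun p _ => hμ.1 _ _)
      (by rw [Fintype.sum_prod_type]; exact hμ.2)
      (by
        rw [Fintype.sum_prod_type]
        have : ∑ x, ∑ y, μ x y * (-b - log (g x y))
            = -b * ∑ x, ∑ y, μ x y + ∑ x, ∑ y, μ x y * (-log (g x y)) := by
          simp only [Finset.mul_sum, ← Finset.sum_add_distrib]
          refine Finset.sum_congr rfl fun x _ => Finset.sum_congr rfl fun y _ => ?_
          ring
        rw [this, hμ.2]
        linarith)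
    refine ⟨θ, hθ, ?_⟩
    rw [Fintype.sum_prod_type] at h
    exact h
  set q := ∑ x, ∑ y, μ x y * exp (θ * (-b - log (g x y))) with hqdef
  have hq0 : 0 ≤ q := Finset.sum_nonneg fun x _ => Finset.sum_nonneg fun y _ =>
    mul_nonneg (hμ.1 x y) (exp_pos _).le
  set ρ := exp (b - b') with hρ
  have hρ0 : 0 ≤ ρ := (exp_pos _).le
  have hρ1 : ρ < 1 := exp_lt_one_iff.2 (by linarith)
  -- the error term tends to zero
  have hlim : Tendsto (fun n : ℕ => 3 / (n : ℝ) + (Fintype.card X + 1) * (q ^ n + ρ ^ n)) atTop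
      (𝓝 (0 + (Fintype.card X + 1) * (0 + 0))) := by
    refine Tendsto.add ?_ (Tendsto.const_mul _ ?_)
    · exact tendsto_const_div_atTop_nhds_zero_nat 3
    · exact (tendsto_pow_atTop_nhds_zero_of_lt_one hq0 hq).add
        (tendsto_pow_atTop_nhds_zero_of_lt_one hρ0 hρ1)
  have hlim0 : (0 : ℝ) + (Fintype.card X + 1) * (0 + 0) < b₀ - b' / log 2 := by
    have : b' / log 2 < b₀ := by rw [div_lt_iff₀ hl2]; exact hb4
    linarith
  have hev := hlim.eventually (gt_mem_nhds hlim0)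
  have hb'0 : 0 ≤ b ∨ b < 0 := le_or_gt 0 b
  filter_upwards [hev, eventually_ge_atTop 1] with n hn hn1
  have hn0 : (0 : ℝ) < n := by exact_mod_cast hn1
  set k := ⌈b' * n / log 2⌉₊ with hk
  have hb0 : 0 < b := by
    refine lt_of_le_of_lt ?_ hb1
    refine Finset.sum_nonneg fun x _ => Finset.sum_nonneg fun y _ => ?_
    refine mul_nonneg (hμ.1 x y) ?_
    have : g x y ≤ 1 := (Finset.single_le_sum (f := fun x => g x y)
      (fun x _ => hg0 x y) (Finset.mem_univ x)).trans (hg1 y)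
    exact neg_nonneg.2 (log_nonpos (hg0 x y) this)
  have hk1 : (k : ℝ) ≤ b' * n / log 2 + 1 := by
    have := Nat.ceil_lt_add_one (a := b' * n / log 2) (by
      have : 0 < b' := by linarith
      positivity)
    exact this.le
  have hk2 : b' * n ≤ k * log 2 := by
    have := Nat.le_ceil (b' * n / log 2)
    rw [div_le_iff₀ hl2] at this
    exact this
  have h1 := one_n hμ hg0 hg1 hgμ hmono hcl b θ hθ n k
  rw [← hqdef] at h1
  have h2 : exp (b * n) / 2 ^ k ≤ ρ ^ n := by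
    have h3 : (2 : ℝ) ^ k = exp (k * log 2) := by
      rw [mul_comm, exp_mul, exp_log (by norm_num), rpow_natCast]
    rw [h3, ← exp_sub, hρ, ← exp_nat_mul]
    apply exp_le_exp.2
    linarith
  have h4 : CC (powFun F n) (powDist μ n) ≤ (b' * n / log 2 + 1) + (2 * n + 1) + 1
      + (Fintype.card X + 1) * n * (q ^ n + ρ ^ n) := by
    refine h1.trans ?_
    have h5 : (Fintype.card X + 1 : ℝ) * n * (q ^ n + exp (b * n) / 2 ^ k)
        ≤ (Fintype.card X + 1) * n * (q ^ n + ρ ^ n) :=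
      mul_le_mul_of_nonneg_left (by linarith) (by positivity)
    linarith
  rw [div_le_iff₀ hn0]
  refine h4.trans ?_
  have h6 : (3 / (n : ℝ) + (Fintype.card X + 1) * (q ^ n + ρ ^ n)) * n
      ≤ (b₀ - b' / log 2) * n := mul_le_mul_of_nonneg_right hn.le hn0.le
  have h7 : 3 / (n : ℝ) * n = 3 := by field_simp
  have h8 : (3 / (n : ℝ) + (Fintype.card X + 1) * (q ^ n + ρ ^ n)) * n
      = 3 + (Fintype.card X + 1) * n * (q ^ n + ρ ^ n) := by
    rw [add_mul, h7]; ring
  rw [h8] at h6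
  have h9 : b' * n / log 2 = b' / log 2 * n := by ring
  rw [h9]
  linarith

end

end Run7.h242.Ext
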