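import Pool.Agent.Run7.h242.ExtLow4
import Pool.Agent.Run7.h242.ExtUp3

/-!
# External information complexity exceeds amortized zero-error communication
-/

open Filter Topology

namespace Run7.h242.Ext

open Real Protocol

/-- Input strings. -/
abbrev W4 : Type := Fin 4 → Bool

/-- Binary code of a number. -/
def code (j : ℕ) : W4 := fun i => Nat.testBit j i

/-- Value of a string. -/
def val4 (x : W4) : ℕ :=
  (if x 0 then 1 else 0) + (if x 1 then 2 else 0) + (if x 2 then 4 else 0) + (if x 3 then 8 else 0)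

/-- Row inputs. -/
def xr (i : Fin 3) : W4 := code i
/-- Column inputs. -/
def yc (j : Fin 9) : W4 := code j
/-- Row decoder. -/
def dr (x : W4) : Fin 3 := Fin.ofNat 3 (val4 x)
/-- Column decoder. -/
def dc (y : W4) : Fin 9 := Fin.ofNat 9 (val4 y)

lemma dr_xr : ∀ i, dr (xr i) = i := by decide
lemma dc_yc : ∀ j, dc (yc j) = j := by decide

/-- The function on four-bit strings. -/
def FF (x y : W4) : Bool := G (dr x) (dc y)

lemma FF_eq (i : Fin 3) (j : Fin 9) : FF (xr i) (yc j) = G i j := by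
  unfold FF; rw [dr_xr, dc_yc]

/-- Class numbers. -/
def cidx : Bool × Bool → Fin 4
  | (false, false) => 0
  | (false, true) => 1
  | (true, false) => 2
  | (true, true) => 3

/-- Inverse of `cidx`. -/
def cinv : Fin 4 → Bool × Bool := ![(false, false), (false, true), (true, false), (true, true)]

lemma cidx_cinv : ∀ r, cidx (cinv r) = r := by decide

/-- Rows of a class. -/
def PA (c : Bool × Bool) (x : W4) : Prop := ∃ k, ri (cidx c) k = dr x
/-- Columns of a class. -/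
def PB (c : Bool × Bool) (y : W4) : Prop := ∃ k, ci (cidx c) k = dc y
/-- Colour of a class. -/
def colc (c : Bool × Bool) : Bool := G (ri (cidx c) 0) (ci (cidx c) 0)

lemma mono_aux : ∀ r k k', G (ri r k) (ci r k') = G (ri r 0) (ci r 0) := by decide

lemma mono_FF (c : Bool × Bool) (x y : W4) (hx : PA c x) (hy : PB c y) : FF x y = colc c := by
  obtain ⟨k, hk⟩ := hx
  obtain ⟨k', hk'⟩ := hy
  unfold FF colc
  rw [← hk, ← hk']
  exact mono_aux _ _ _

open Classical in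
/-- A class containing the pair `(x, y)`. -/
noncomputable def cls (x y : W4) : Bool × Bool :=
  if h : ∃ c, PA c x ∧ PB c y then h.choose else (false, false)

/-- Conditional row probabilities. -/
noncomputable def gg (g₁ g₂ : ℝ) : Fin 3 → Fin 9 → ℝ :=
  ![![1, 0, 0, 0, 1, 0, g₂ / (g₁ + g₂), g₁ / (g₁ + g₂), 1 / 2],
    ![0, 1, 1, 0, 0, 0, 0, 0, 0],
    ![0, 0, 0, 1, 0, 1, g₁ / (g₁ + g₂), g₂ / (g₁ + g₂), 1 / 2]]

/-- Conditional row probabilities on strings. -/
noncomputable def gs (g₁ g₂ : ℝ) (x y : W4) : ℝ :=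
  if xr (dr x) = x then gg g₁ g₂ (dr x) (dc y) else 0

section
variable {g₁ g₂ g₃ ε : ℝ}

lemma gg_nonneg (h1 : 0 < g₁) (h2 : 0 < g₂) : ∀ i j, 0 ≤ gg g₁ g₂ i j := by
  have a1 : 0 ≤ g₁ / (g₁ + g₂) := by positivity
  have a2 : 0 ≤ g₂ / (g₁ + g₂) := by positivity
  intro i j
  fin_cases i <;> fin_cases j <;> simp [gg] <;> assumption

lemma gg_sum (h1 : 0 < g₁) (h2 : 0 < g₂) : ∀ j, ∑ i, gg g₁ g₂ i j = 1 := by
  have h3 : g₁ + g₂ ≠ 0 := by positivity
  intro j
  fin_cases j <;> simp [gg, Fin.sum_univ_three] <;> field_simp <;> ring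

lemma gs_sum (h1 : 0 < g₁) (h2 : 0 < g₂) (y : W4) : ∑ x, gs g₁ g₂ x y ≤ 1 := by
  unfold gs
  rw [← Finset.sum_filter]
  have h3 : ∑ x ∈ Finset.univ.filter (fun x => xr (dr x) = x), gg g₁ g₂ (dr x) (dc y)
      = ∑ i, gg g₁ g₂ i (dc y) := by
    refine Finset.sum_bij' (fun x _ => dr x) (fun i _ => xr i) ?_ ?_ ?_ ?_ ?_
    · intro x _; exact Finset.mem_univ _
    · intro i _; simp [dr_xr]
    · intro x hx; exact (Finset.mem_filter.1 hx).2
    · intro i _; exact dr_xr i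
    · intro x _; rfl
  rw [h3, gg_sum h1 h2]

lemma gs_cell (r : Fin 4) (k : Fin 3) :
    gs g₁ g₂ (xr (ri r k)) (yc (ci r k)) = gg g₁ g₂ (ri r k) (ci r k) := by
  unfold gs; rw [dr_xr, dc_yc, if_pos rfl]

lemma gg_cell_pos (h1 : 0 < g₁) (h2 : 0 < g₂) : ∀ r k, 0 < gg g₁ g₂ (ri r k) (ci r k) := by
  have a1 : 0 < g₁ / (g₁ + g₂) := by positivity
  have a2 : 0 < g₂ / (g₁ + g₂) := by positivity
  intro r k
  fin_cases r <;> fin_cases k <;> simp [gg, ri, ci] <;> assumption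

lemma mu_ne {w : Fin 4 → Fin 3 → ℝ} {x y : W4} (h : mu xr yc w x y ≠ 0) :
    ∃ r k, xr (ri r k) = x ∧ yc (ci r k) = y := by
  by_contra hc
  push Not at hc
  apply h
  unfold mu
  refine Finset.sum_eq_zero fun r _ => Finset.sum_eq_zero fun k _ => ?_
  rw [if_neg]
  rintro ⟨hx, hy⟩
  exact hc r k hx hy

lemma cls_spec {w : Fin 4 → Fin 3 → ℝ} {x y : W4} (h : mu xr yc w x y ≠ 0) :
    PA (cls x y) x ∧ PB (cls x y) y := by
  obtain ⟨r, k, rfl, rfl⟩ := mu_ne h
  have h1 : ∃ c, PA c (xr (ri r k)) ∧ PB c (yc (ci r k)) := by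
    refine ⟨cinv r, ⟨k, ?_⟩, ⟨k, ?_⟩⟩
    · rw [cidx_cinv, dr_xr]
    · rw [cidx_cinv, dc_yc]
  unfold cls
  rw [dif_pos h1]
  exact h1.choose_spec

/-- The conditional entropy term. -/
lemma ent_eq : ∑ x, ∑ y, mu xr yc (wt g₁ g₂ g₃ ε) x y * (-log (gs g₁ g₂ x y))
    = ε * (2 * (g₁ * -log (g₁ / (g₁ + g₂))) + 2 * (g₂ * -log (g₂ / (g₁ + g₂)))
      + 2 * g₃ * log 2) := by
  rw [mu_sum]
  simp_rw [gs_cell]
  have l2 : log (2⁻¹ : ℝ) = - log 2 := log_inv 2
  simp [Fin.sum_univ_succ, gg, ri, ci, wt, l2]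
  ring

end

/-- The value of `g₃`. -/
noncomputable def c3 : ℝ := (1 / 2) ^ 40
/-- The value of `g₂`. -/
noncomputable def c2 : ℝ := (c3 / 8) ^ 2
/-- The auxiliary exponent. -/
noncomputable def cK : ℝ := 8 * (1 + 1 / c2) / c3
/-- The value of `η`. -/
noncomputable def cη : ℝ := exp (-cK) / 792

lemma c3_pos : 0 < c3 := by unfold c3; positivity
lemma c3_le : c3 ≤ 1 / 64 := by unfold c3; norm_num
lemma c2_pos : 0 < c2 := by unfold c2; have := c3_pos; positivity
lemma c2_le : c2 ≤ c3 / 64 := by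
  unfold c2
  have h1 := c3_pos
  have h2 := c3_le
  nlinarith
lemma cK_pos : 0 < cK := by unfold cK; have := c3_pos; have := c2_pos; positivity
lemma cη_pos : 0 < cη := by unfold cη; positivity
lemma cη_le : 792 * cη ≤ 1 := by
  unfold cη
  have : exp (-cK) ≤ 1 := by
    have := exp_le_exp.2 (show -cK ≤ 0 by linarith [cK_pos])
    rwa [exp_zero] at this
  linarith

lemma cη_K : cK ≤ log (1 / (21 * cη ^ 2)) := by
  have h0 := cη_pos
  rw [le_log_iff_exp_le (by positivity), le_div_iff₀ (by positivity)]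
  unfold cη
  have h1 : exp cK * exp (-cK) = 1 := by rw [← exp_add]; simp
  have h2 : exp (-cK) ≤ 1 := by
    have := exp_le_exp.2 (show -cK ≤ 0 by linarith [cK_pos])
    rwa [exp_zero] at this
  have h3 : exp cK * (21 * (exp (-cK) / 792) ^ 2)
      = (exp cK * exp (-cK)) * (21 / 792 ^ 2 * exp (-cK)) := by ring
  rw [h3, h1]
  linarith [exp_pos (-cK)]

lemma log_c3 : 25 ≤ log (1 / (8 * c3)) := by
  have h1 : (1 : ℝ) / (8 * c3) = 2 ^ 37 := by unfold c3; norm_num
  rw [h1, log_pow]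
  have := log_two_gt_d9
  push_cast
  linarith

lemma par : Par (1 / 4) c2 c3 (cη ^ 4) where
  g1 := by norm_num
  g2 := c2_pos
  g3 := c3_pos
  s := by linarith [c2_le, c3_le]
  e := by have := cη_pos; positivity
  e' := by
    have h0 := cη_pos
    have h1 : cη ≤ 1 / 4 := by linarith [cη_le]
    calc cη ^ 4 ≤ (1 / 4) ^ 4 := pow_le_pow_left₀ h0.le h1 4
      _ ≤ 1 / 64 := by norm_num

lemma ent_le : 2 * ((1 / 4 : ℝ) * -log (1 / 4 / (1 / 4 + c2)))
    + 2 * (c2 * -log (c2 / (1 / 4 + c2))) + 2 * c3 * log 2 < 4 * c3 * log 2 := by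
  have h2 := c2_pos
  have h3 := c3_pos
  have hle := c2_le
  have hle3 := c3_le
  have hl2 := log_two_gt_d9
  have a1 : (1 / 4 : ℝ) * -log (1 / 4 / (1 / 4 + c2)) ≤ c2 := by
    rw [← log_inv, inv_div]
    have h4 := log_le_sub_one_of_pos (show 0 < (1 / 4 + c2) / (1 / 4) by positivity)
    have h5 : (1 / 4 + c2) / (1 / 4) - 1 = 4 * c2 := by field_simp; ring
    rw [h5] at h4
    linarith
  have a2 : c2 * -log (c2 / (1 / 4 + c2)) ≤ c3 / 4 := by
    rw [← log_inv, inv_div]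
    have h4 : log ((1 / 4 + c2) / c2) ≤ log (1 / c2) := by
      apply log_le_log (by positivity)
      apply div_le_div_of_nonneg_right _ h2.le
      linarith
    have h5 : log (1 / c2) = 2 * log (8 / c3) := by
      unfold c2
      rw [← log_rpow (by positivity)]
      congr 1
      rw [rpow_two]
      field_simp
    have h6 := log_le_sub_one_of_pos (show 0 < 8 / c3 by positivity)
    have h7 : log ((1 / 4 + c2) / c2) ≤ 2 * (8 / c3) := by linarith
    calc c2 * log ((1 / 4 + c2) / c2) ≤ c2 * (2 * (8 / c3)) :=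
          mul_le_mul_of_nonneg_left h7 h2.le
      _ = c3 / 4 := by unfold c2; field_simp; ring
  nlinarith

/-- **Main theorem.** -/
theorem main_thm :
    ∃ (m : ℕ) (F : (Fin m → Bool) → (Fin m → Bool) → Bool)
      (μ : (Fin m → Bool) → (Fin m → Bool) → ℝ), 1 ≤ m ∧ IsDist μ ∧
      (∀ n : ℕ, ∃ t : Protocol (Fin n → Fin m → Bool) (Fin n → Fin m → Bool) (Fin n → Bool),
        t.ZeroError (powFun F n)) ∧
      (∃ c : ℝ, c < ICext F μ ∧
        ∀ᶠ n : ℕ in atTop, CC (powFun F n) (powDist μ n) / n ≤ c) ∧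
      ¬ Tendsto (fun n : ℕ => CC (powFun F n) (powDist μ n) / n) atTop (𝓝 (ICext F μ)) := by
  classical
  have hpar := par
  have hfb : ∀ n : ℕ, ∃ t : Protocol (Fin n → W4) (Fin n → W4) (Fin n → Bool),
        t.ZeroError (powFun FF n) := by
    intro n
    obtain ⟨eX⟩ : Nonempty ((Fin n → W4) ↪ (Fin (4 * n) → Bool)) := by
      apply exists_emb
      rw [Fintype.card_fun, Fintype.card_fin, pow_mul]
      exact Nat.pow_le_pow_left (by simp) n
    exact ⟨fallback eX (Function.Embedding.refl (Fin n → Bool)) (powFun FF n),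
      fun x y o h => reach_fallback _ _ _ x y o h⟩
  have hfb1 : ∃ t : Protocol W4 W4 Bool, t.ZeroError FF := by
    obtain ⟨eX⟩ : Nonempty (W4 ↪ (Fin 4 → Bool)) := ⟨Function.Embedding.refl _⟩
    obtain ⟨eO⟩ : Nonempty (Bool ↪ (Fin 1 → Bool)) := exists_emb (by simp)
    exact ⟨fallback eX eO FF, fun x y o h => reach_fallback _ _ _ x y o h⟩
  have hlow : ∀ t : Protocol W4 W4 Bool, t.ZeroError FF →
      2 + 6 * (c3 * cη ^ 4) ≤ t.extInfo (mu xr yc (wt (1 / 4) c2 c3 (cη ^ 4))) := by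
    intro t ht
    have h1 := J_ge xr yc hpar FF_eq ht cη_pos rfl cη_le le_rfl log_c3 cη_K
    have h2 := (extInfo_ge xr yc hpar FF_eq ht).2
    linarith
  have hIC : 2 + 6 * (c3 * cη ^ 4) ≤ ICext FF (mu xr yc (wt (1 / 4) c2 c3 (cη ^ 4))) := by
    obtain ⟨t₀, ht₀⟩ := hfb1
    unfold ICext
    refine le_csInf ⟨t₀.extInfo (mu xr yc (wt (1 / 4) c2 c3 (cη ^ 4))), t₀, ht₀, rfl⟩ ?_
    rintro r ⟨t, ht, rfl⟩
    exact hlow t ht
  have hup := upper (F := FF) (μ := mu xr yc (wt (1 / 4) c2 c3 (cη ^ 4)))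
    (g := gs (1 / 4) c2) (PA := PA) (PB := PB) (col := colc) (cl := cls)
    (mu_isDist xr yc hpar)
    (fun x y => by
      unfold gs
      split_ifs
      · exact gg_nonneg (by norm_num) c2_pos _ _
      · exact le_rfl)
    (fun y => gs_sum (by norm_num) c2_pos y)
    (fun x y h => by
      obtain ⟨r, k, rfl, rfl⟩ := mu_ne h
      rw [gs_cell]
      exact gg_cell_pos (by norm_num) c2_pos r k)
    mono_FF (fun x y h => cls_spec h) (4 * (c3 * cη ^ 4)) (by
      rw [ent_eq]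
      have h1 := mul_lt_mul_of_pos_left ent_le hpar.e
      linarith)
  have hpos : 0 < c3 * cη ^ 4 := mul_pos c3_pos hpar.e
  refine ⟨4, FF, mu xr yc (wt (1 / 4) c2 c3 (cη ^ 4)), by norm_num,
    mu_isDist xr yc hpar, hfb, ⟨2 + 4 * (c3 * cη ^ 4), by linarith, hup⟩, ?_⟩
  intro hT
  have h1 := le_of_tendsto hT hup
  linarith

end Run7.h242.Ext
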