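import Pool.Agent.Run7.h242.ExtDefs

/-!
# Sums over the leaves of a protocol tree, and over a stopping line
-/

open Filter Topology

namespace Run7.h242.Ext

namespace Protocol

variable {X Y O : Type}

/-- Sum over the leaves of `φ A B o`, where `A`, `B` are the accumulated likelihood factors
of Alice and Bob. -/
noncomputable def lsum (φ : (X → ℝ) → (Y → ℝ) → O → ℝ) :
    Protocol X Y O → (X → ℝ) → (Y → ℝ) → ℝ
  | leaf o, A, B => φ A B o
  | alice p t₀ t₁, A, B =>
      lsum φ t₀ (fun x => A x * (1 - (p x : ℝ))) B + lsum φ t₁ (fun x => A x * (p x : ℝ)) B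
  | bob q t₀ t₁, A, B =>
      lsum φ t₀ A (fun y => B y * (1 - (q y : ℝ))) + lsum φ t₁ A (fun y => B y * (q y : ℝ))
  | coin r t₀ t₁, A, B =>
      lsum φ t₀ (fun x => A x * (1 - (r : ℝ))) B + lsum φ t₁ (fun x => A x * (r : ℝ)) B

open Classical in
/-- Sum of `f` over the first nodes with `S A B`, plus the sum of `g` over the leaves that
have no such ancestor. -/
noncomputable def ssum (S : (X → ℝ) → (Y → ℝ) → Prop) (f g : (X → ℝ) → (Y → ℝ) → ℝ) :
    Protocol X Y O → (X → ℝ) → (Y → ℝ) → ℝ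
  | leaf _, A, B => if S A B then f A B else g A B
  | alice p t₀ t₁, A, B => if S A B then f A B else
      ssum S f g t₀ (fun x => A x * (1 - (p x : ℝ))) B + ssum S f g t₁ (fun x => A x * (p x : ℝ)) B
  | bob q t₀ t₁, A, B => if S A B then f A B else
      ssum S f g t₀ A (fun y => B y * (1 - (q y : ℝ))) + ssum S f g t₁ A (fun y => B y * (q y : ℝ))
  | coin r t₀ t₁, A, B => if S A B then f A B else
      ssum S f g t₀ (fun x => A x * (1 - (r : ℝ))) B + ssum S f g t₁ (fun x => A x * (r : ℝ)) B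

/-- All outputs that can still be reached on inputs of positive likelihood are correct. -/
def Good (F : X → Y → O) (t : Protocol X Y O) (A : X → ℝ) (B : Y → ℝ) : Prop :=
  ∀ x y o, A x * B y ≠ 0 → t.Reach x y o → o = F x y

/-- Nonnegative state. -/
def Nn (A : X → ℝ) (B : Y → ℝ) : Prop := (∀ x, 0 ≤ A x) ∧ (∀ y, 0 ≤ B y)

lemma u0 (r : unitInterval) : 0 ≤ (r : ℝ) := r.2.1
lemma u1 (r : unitInterval) : 0 ≤ 1 - (r : ℝ) := sub_nonneg.2 r.2.2

section Good
variable {F : X → Y → O} {A : X → ℝ} {B : Y → ℝ} {t₀ t₁ : Protocol X Y O}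

lemma Good.a0 {p : X → unitInterval} (h : Good F (alice p t₀ t₁) A B) :
    Good F t₀ (fun x => A x * (1 - (p x : ℝ))) B := by
  intro x y o hxy hr
  refine h x y o ?_ (Or.inl ⟨?_, hr⟩)
  · intro h0; apply hxy
    show A x * (1 - (p x : ℝ)) * B y = 0
    linear_combination (1 - (p x : ℝ)) * h0
  · intro h1; apply hxy; simp [h1]

lemma Good.a1 {p : X → unitInterval} (h : Good F (alice p t₀ t₁) A B) :
    Good F t₁ (fun x => A x * (p x : ℝ)) B := by
  intro x y o hxy hr
  refine h x y o ?_ (Or.inr ⟨?_, hr⟩)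
  · intro h0; apply hxy
    show A x * (p x : ℝ) * B y = 0
    linear_combination (p x : ℝ) * h0
  · intro h1; apply hxy; simp [h1]

lemma Good.b0 {q : Y → unitInterval} (h : Good F (bob q t₀ t₁) A B) :
    Good F t₀ A (fun y => B y * (1 - (q y : ℝ))) := by
  intro x y o hxy hr
  refine h x y o ?_ (Or.inl ⟨?_, hr⟩)
  · intro h0; apply hxy
    show A x * (B y * (1 - (q y : ℝ))) = 0
    linear_combination (1 - (q y : ℝ)) * h0
  · intro h1; apply hxy; simp [h1]

lemma Good.b1 {q : Y → unitInterval} (h : Good F (bob q t₀ t₁) A B) :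
    Good F t₁ A (fun y => B y * (q y : ℝ)) := by
  intro x y o hxy hr
  refine h x y o ?_ (Or.inr ⟨?_, hr⟩)
  · intro h0; apply hxy
    show A x * (B y * (q y : ℝ)) = 0
    linear_combination (q y : ℝ) * h0
  · intro h1; apply hxy; simp [h1]

lemma Good.c0 {r : unitInterval} (h : Good F (coin r t₀ t₁) A B) :
    Good F t₀ (fun x => A x * (1 - (r : ℝ))) B := by
  intro x y o hxy hr
  refine h x y o ?_ (Or.inl ⟨?_, hr⟩)
  · intro h0; apply hxy
    show A x * (1 - (r : ℝ)) * B y = 0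
    linear_combination (1 - (r : ℝ)) * h0
  · intro h1; apply hxy; simp [h1]

lemma Good.c1 {r : unitInterval} (h : Good F (coin r t₀ t₁) A B) :
    Good F t₁ (fun x => A x * (r : ℝ)) B := by
  intro x y o hxy hr
  refine h x y o ?_ (Or.inr ⟨?_, hr⟩)
  · intro h0; apply hxy
    show A x * (r : ℝ) * B y = 0
    linear_combination (r : ℝ) * h0
  · intro h1; apply hxy; simp [h1]

end Good

section Nn
variable {A : X → ℝ} {B : Y → ℝ}

lemma Nn.a0 (h : Nn A B) (p : X → unitInterval) : Nn (fun x => A x * (1 - (p x : ℝ))) B :=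
  ⟨fun x => mul_nonneg (h.1 x) (u1 _), h.2⟩
lemma Nn.a1 (h : Nn A B) (p : X → unitInterval) : Nn (fun x => A x * (p x : ℝ)) B :=
  ⟨fun x => mul_nonneg (h.1 x) (u0 _), h.2⟩
lemma Nn.b0 (h : Nn A B) (q : Y → unitInterval) : Nn A (fun y => B y * (1 - (q y : ℝ))) :=
  ⟨h.1, fun y => mul_nonneg (h.2 y) (u1 _)⟩
lemma Nn.b1 (h : Nn A B) (q : Y → unitInterval) : Nn A (fun y => B y * (q y : ℝ)) :=
  ⟨h.1, fun y => mul_nonneg (h.2 y) (u0 _)⟩

end Nn

variable {F : X → Y → O}

/-- Monotonicity of the leaf sum. -/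
theorem lsum_mono {φ ψ : (X → ℝ) → (Y → ℝ) → O → ℝ}
    (h : ∀ A B o, Nn A B → (∀ x y, A x * B y ≠ 0 → o = F x y) → φ A B o ≤ ψ A B o)
    (t : Protocol X Y O) : ∀ (A : X → ℝ) (B : Y → ℝ), Nn A B → Good F t A B →
      lsum φ t A B ≤ lsum ψ t A B := by
  induction t with
  | leaf o => exact fun A B hn hg => h A B o hn fun x y hxy => hg x y o hxy rfl
  | alice p t₀ t₁ ih₀ ih₁ =>
    exact fun A B hn hg => add_le_add (ih₀ _ _ (hn.a0 p) hg.a0) (ih₁ _ _ (hn.a1 p) hg.a1)
  | bob q t₀ t₁ ih₀ ih₁ =>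
    exact fun A B hn hg => add_le_add (ih₀ _ _ (hn.b0 q) hg.b0) (ih₁ _ _ (hn.b1 q) hg.b1)
  | coin r t₀ t₁ ih₀ ih₁ =>
    exact fun A B hn hg => add_le_add (ih₀ _ _ (hn.a0 fun _ => r) hg.c0)
      (ih₁ _ _ (hn.a1 fun _ => r) hg.c1)

theorem lsum_add (φ ψ : (X → ℝ) → (Y → ℝ) → O → ℝ) (t : Protocol X Y O) :
    ∀ (A : X → ℝ) (B : Y → ℝ), lsum (fun A B o => φ A B o + ψ A B o) t A B
      = lsum φ t A B + lsum ψ t A B := by
  induction t with
  | leaf o => exact fun A B => rfl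
  | alice p t₀ t₁ ih₀ ih₁ => intro A B; simp only [lsum, ih₀, ih₁]; ring
  | bob q t₀ t₁ ih₀ ih₁ => intro A B; simp only [lsum, ih₀, ih₁]; ring
  | coin r t₀ t₁ ih₀ ih₁ => intro A B; simp only [lsum, ih₀, ih₁]; ring

theorem lsum_mul (c : ℝ) (φ : (X → ℝ) → (Y → ℝ) → O → ℝ) (t : Protocol X Y O) :
    ∀ (A : X → ℝ) (B : Y → ℝ), lsum (fun A B o => c * φ A B o) t A B = c * lsum φ t A B := by
  induction t with
  | leaf o => exact fun A B => rfl
  | alice p t₀ t₁ ih₀ ih₁ => intro A B; simp only [lsum, ih₀, ih₁]; ring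
  | bob q t₀ t₁ ih₀ ih₁ => intro A B; simp only [lsum, ih₀, ih₁]; ring
  | coin r t₀ t₁ ih₀ ih₁ => intro A B; simp only [lsum, ih₀, ih₁]; ring

theorem lsum_cell (x : X) (y : Y) (t : Protocol X Y O) :
    ∀ (A : X → ℝ) (B : Y → ℝ), lsum (fun A B _ => A x * B y) t A B = A x * B y := by
  induction t with
  | leaf o => exact fun A B => rfl
  | alice p t₀ t₁ ih₀ ih₁ => intro A B; simp only [lsum, ih₀, ih₁]; ring
  | bob q t₀ t₁ ih₀ ih₁ => intro A B; simp only [lsum, ih₀, ih₁]; ring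
  | coin r t₀ t₁ ih₀ ih₁ => intro A B; simp only [lsum, ih₀, ih₁]; ring

theorem lsum_zero (t : Protocol X Y O) :
    ∀ (A : X → ℝ) (B : Y → ℝ), lsum (fun _ _ _ => (0 : ℝ)) t A B = 0 := by
  induction t with
  | leaf o => exact fun A B => rfl
  | alice p t₀ t₁ ih₀ ih₁ => intro A B; simp only [lsum, ih₀, ih₁]; ring
  | bob q t₀ t₁ ih₀ ih₁ => intro A B; simp only [lsum, ih₀, ih₁]; ring
  | coin r t₀ t₁ ih₀ ih₁ => intro A B; simp only [lsum, ih₀, ih₁]; ring

theorem lsum_sum {ι : Type} (s : Finset ι) (φ : ι → (X → ℝ) → (Y → ℝ) → O → ℝ)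
    (t : Protocol X Y O) (A : X → ℝ) (B : Y → ℝ) :
    lsum (fun A B o => ∑ i ∈ s, φ i A B o) t A B = ∑ i ∈ s, lsum (φ i) t A B := by
  classical
  induction s using Finset.induction_on with
  | empty => simpa using lsum_zero t A B
  | insert a s ha ih =>
    rw [Finset.sum_insert ha, ← ih, ← lsum_add]
    congr 1
    funext A B o
    rw [Finset.sum_insert ha]

/-- The transcript sum in terms of the leaf sum. -/
theorem transcripts_sum (ψ : (X → Y → ℝ) → ℝ) (t : Protocol X Y O) :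
    ∀ (A : X → ℝ) (B : Y → ℝ),
      (t.transcripts.map fun π => ψ fun x y => A x * B y * t.prob x y π).sum
        = lsum (fun A B _ => ψ fun x y => A x * B y) t A B := by
  induction t with
  | leaf o => intro A B; simp [transcripts, lsum, prob]
  | alice p t₀ t₁ ih₀ ih₁ =>
    intro A B
    simp only [transcripts, lsum, List.map_append, List.map_map, List.sum_append, ← ih₀, ← ih₁]
    congr 3
    · funext π; simp only [Function.comp, prob]; congr 1; funext x y; ring
    · funext π; simp only [Function.comp, prob]; congr 1; funext x y; ring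
  | bob q t₀ t₁ ih₀ ih₁ =>
    intro A B
    simp only [transcripts, lsum, List.map_append, List.map_map, List.sum_append, ← ih₀, ← ih₁]
    congr 3
    · funext π; simp only [Function.comp, prob]; congr 1; funext x y; ring
    · funext π; simp only [Function.comp, prob]; congr 1; funext x y; ring
  | coin r t₀ t₁ ih₀ ih₁ =>
    intro A B
    simp only [transcripts, lsum, List.map_append, List.map_map, List.sum_append, ← ih₀, ← ih₁]
    congr 3
    · funext π; simp only [Function.comp, prob]; congr 1; funext x y; ring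
    · funext π; simp only [Function.comp, prob]; congr 1; funext x y; ring

section ssum

variable {S : (X → ℝ) → (Y → ℝ) → Prop}

lemma ssum_stop {f g : (X → ℝ) → (Y → ℝ) → ℝ} (t : Protocol X Y O) {A : X → ℝ} {B : Y → ℝ}
    (h : S A B) : ssum S f g t A B = f A B := by
  cases t <;> simp [ssum, h]

/-- Monotonicity of the stopped sum. -/
theorem ssum_mono {f f' g g' : (X → ℝ) → (Y → ℝ) → ℝ}
    (hf : ∀ A B, Nn A B → S A B → f A B ≤ f' A B)
    (hg : ∀ A B (o : O), Nn A B → ¬ S A B → (∀ x y, A x * B y ≠ 0 → o = F x y) →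
      g A B ≤ g' A B)
    (t : Protocol X Y O) : ∀ (A : X → ℝ) (B : Y → ℝ), Nn A B → Good F t A B →
      ssum S f g t A B ≤ ssum S f' g' t A B := by
  induction t with
  | leaf o =>
    intro A B hn hgd
    by_cases h : S A B
    · simpa [ssum, h] using hf A B hn h
    · simpa [ssum, h] using hg A B o hn h fun x y hxy => hgd x y o hxy rfl
  | alice p t₀ t₁ ih₀ ih₁ =>
    intro A B hn hgd
    by_cases h : S A B
    · simpa [ssum, h] using hf A B hn h
    · simpa [ssum, h] using add_le_add (ih₀ _ _ (hn.a0 p) hgd.a0) (ih₁ _ _ (hn.a1 p) hgd.a1)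
  | bob q t₀ t₁ ih₀ ih₁ =>
    intro A B hn hgd
    by_cases h : S A B
    · simpa [ssum, h] using hf A B hn h
    · simpa [ssum, h] using add_le_add (ih₀ _ _ (hn.b0 q) hgd.b0) (ih₁ _ _ (hn.b1 q) hgd.b1)
  | coin r t₀ t₁ ih₀ ih₁ =>
    intro A B hn hgd
    by_cases h : S A B
    · simpa [ssum, h] using hf A B hn h
    · simpa [ssum, h] using add_le_add (ih₀ _ _ (hn.a0 fun _ => r) hgd.c0)
        (ih₁ _ _ (hn.a1 fun _ => r) hgd.c1)

theorem ssum_add (f g f' g' : (X → ℝ) → (Y → ℝ) → ℝ) (t : Protocol X Y O) :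
    ∀ (A : X → ℝ) (B : Y → ℝ),
      ssum S (fun A B => f A B + f' A B) (fun A B => g A B + g' A B) t A B
        = ssum S f g t A B + ssum S f' g' t A B := by
  induction t with
  | leaf o => intro A B; by_cases h : S A B <;> simp [ssum, h]
  | alice p t₀ t₁ ih₀ ih₁ =>
    intro A B; by_cases h : S A B <;> simp only [ssum, h, ih₀, ih₁, if_true, if_false]; ring
  | bob q t₀ t₁ ih₀ ih₁ =>
    intro A B; by_cases h : S A B <;> simp only [ssum, h, ih₀, ih₁, if_true, if_false]; ring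
  | coin r t₀ t₁ ih₀ ih₁ =>
    intro A B; by_cases h : S A B <;> simp only [ssum, h, ih₀, ih₁, if_true, if_false]; ring

theorem ssum_mul (c : ℝ) (f g : (X → ℝ) → (Y → ℝ) → ℝ) (t : Protocol X Y O) :
    ∀ (A : X → ℝ) (B : Y → ℝ),
      ssum S (fun A B => c * f A B) (fun A B => c * g A B) t A B = c * ssum S f g t A B := by
  induction t with
  | leaf o => intro A B; by_cases h : S A B <;> simp [ssum, h]
  | alice p t₀ t₁ ih₀ ih₁ =>
    intro A B; by_cases h : S A B <;> simp only [ssum, h, ih₀, ih₁, if_true, if_false]; ring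
  | bob q t₀ t₁ ih₀ ih₁ =>
    intro A B; by_cases h : S A B <;> simp only [ssum, h, ih₀, ih₁, if_true, if_false]; ring
  | coin r t₀ t₁ ih₀ ih₁ =>
    intro A B; by_cases h : S A B <;> simp only [ssum, h, ih₀, ih₁, if_true, if_false]; ring

theorem ssum_cell (x : X) (y : Y) (t : Protocol X Y O) :
    ∀ (A : X → ℝ) (B : Y → ℝ),
      ssum S (fun A B => A x * B y) (fun A B => A x * B y) t A B = A x * B y := by
  induction t with
  | leaf o => intro A B; by_cases h : S A B <;> simp [ssum, h]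
  | alice p t₀ t₁ ih₀ ih₁ =>
    intro A B; by_cases h : S A B <;> simp only [ssum, h, ih₀, ih₁, if_true, if_false]; ring
  | bob q t₀ t₁ ih₀ ih₁ =>
    intro A B; by_cases h : S A B <;> simp only [ssum, h, ih₀, ih₁, if_true, if_false]; ring
  | coin r t₀ t₁ ih₀ ih₁ =>
    intro A B; by_cases h : S A B <;> simp only [ssum, h, ih₀, ih₁, if_true, if_false]; ring

/-- Comparison of a stopped sum with a leaf sum. -/
theorem ssum_le_lsum {f g : (X → ℝ) → (Y → ℝ) → ℝ} {φ : (X → ℝ) → (Y → ℝ) → O → ℝ}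
    (hf : ∀ (t : Protocol X Y O) A B, Nn A B → Good F t A B → S A B → f A B ≤ lsum φ t A B)
    (hg : ∀ A B (o : O), Nn A B → ¬ S A B → (∀ x y, A x * B y ≠ 0 → o = F x y) →
      g A B ≤ φ A B o)
    (t : Protocol X Y O) : ∀ (A : X → ℝ) (B : Y → ℝ), Nn A B → Good F t A B →
      ssum S f g t A B ≤ lsum φ t A B := by
  induction t with
  | leaf o =>
    intro A B hn hgd
    by_cases h : S A B
    · simpa [ssum, h] using hf _ A B hn hgd h
    · simpa [ssum, h, lsum] using hg A B o hn h fun x y hxy => hgd x y o hxy rfl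
  | alice p t₀ t₁ ih₀ ih₁ =>
    intro A B hn hgd
    by_cases h : S A B
    · simpa [ssum, h] using hf _ A B hn hgd h
    · simpa [ssum, h, lsum] using
        add_le_add (ih₀ _ _ (hn.a0 p) hgd.a0) (ih₁ _ _ (hn.a1 p) hgd.a1)
  | bob q t₀ t₁ ih₀ ih₁ =>
    intro A B hn hgd
    by_cases h : S A B
    · simpa [ssum, h] using hf _ A B hn hgd h
    · simpa [ssum, h, lsum] using
        add_le_add (ih₀ _ _ (hn.b0 q) hgd.b0) (ih₁ _ _ (hn.b1 q) hgd.b1)
  | coin r t₀ t₁ ih₀ ih₁ =>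
    intro A B hn hgd
    by_cases h : S A B
    · simpa [ssum, h] using hf _ A B hn hgd h
    · simpa [ssum, h, lsum] using add_le_add (ih₀ _ _ (hn.a0 fun _ => r) hgd.c0)
        (ih₁ _ _ (hn.a1 fun _ => r) hgd.c1)

/-- `ψ` decreases in total when a node is split into its children. -/
structure Dec (ψ : (X → ℝ) → (Y → ℝ) → ℝ) : Prop where
  a : ∀ A B (p : X → unitInterval), Nn A B →
    ψ (fun x => A x * (1 - (p x : ℝ))) B + ψ (fun x => A x * (p x : ℝ)) B ≤ ψ A B
  b : ∀ A B (q : Y → unitInterval), Nn A B →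
    ψ A (fun y => B y * (1 - (q y : ℝ))) + ψ A (fun y => B y * (q y : ℝ)) ≤ ψ A B

theorem Dec.lsum_le {ψ : (X → ℝ) → (Y → ℝ) → ℝ} (hψ : Dec ψ) (t : Protocol X Y O) :
    ∀ (A : X → ℝ) (B : Y → ℝ), Nn A B → lsum (fun A B _ => ψ A B) t A B ≤ ψ A B := by
  induction t with
  | leaf o => exact fun A B _ => le_rfl
  | alice p t₀ t₁ ih₀ ih₁ =>
    exact fun A B hn => (add_le_add (ih₀ _ _ (hn.a0 p)) (ih₁ _ _ (hn.a1 p))).trans
      (hψ.a A B p hn)
  | bob q t₀ t₁ ih₀ ih₁ =>
    exact fun A B hn => (add_le_add (ih₀ _ _ (hn.b0 q)) (ih₁ _ _ (hn.b1 q))).trans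
      (hψ.b A B q hn)
  | coin r t₀ t₁ ih₀ ih₁ =>
    exact fun A B hn => (add_le_add (ih₀ _ _ (hn.a0 fun _ => r))
      (ih₁ _ _ (hn.a1 fun _ => r))).trans (hψ.a A B (fun _ => r) hn)

/-- The leaf sum of a decreasing functional is at most its stopped sum. -/
theorem Dec.lsum_le_ssum {ψ : (X → ℝ) → (Y → ℝ) → ℝ} (hψ : Dec ψ) (t : Protocol X Y O) :
    ∀ (A : X → ℝ) (B : Y → ℝ), Nn A B →
      lsum (fun A B _ => ψ A B) t A B ≤ ssum S ψ ψ t A B := by
  induction t with
  | leaf o => intro A B _; by_cases h : S A B <;> simp [ssum, lsum, h]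
  | alice p t₀ t₁ ih₀ ih₁ =>
    intro A B hn
    by_cases h : S A B
    · simpa [ssum, h] using hψ.lsum_le (alice p t₀ t₁) A B hn
    · simpa [ssum, h, lsum] using add_le_add (ih₀ _ _ (hn.a0 p)) (ih₁ _ _ (hn.a1 p))
  | bob q t₀ t₁ ih₀ ih₁ =>
    intro A B hn
    by_cases h : S A B
    · simpa [ssum, h] using hψ.lsum_le (bob q t₀ t₁) A B hn
    · simpa [ssum, h, lsum] using add_le_add (ih₀ _ _ (hn.b0 q)) (ih₁ _ _ (hn.b1 q))
  | coin r t₀ t₁ ih₀ ih₁ =>
    intro A B hn
    by_cases h : S A B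
    · simpa [ssum, h] using hψ.lsum_le (coin r t₀ t₁) A B hn
    · simpa [ssum, h, lsum] using
        add_le_add (ih₀ _ _ (hn.a0 fun _ => r)) (ih₁ _ _ (hn.a1 fun _ => r))

/-- Key stopped induction: `u` (additive at Bob's nodes) minus `κ⁻¹ ψ` does not decrease as
long as the process is not stopped. -/
theorem stopped_key {ψ u : (X → ℝ) → (Y → ℝ) → ℝ} {c : ℝ} (hψ : Dec ψ) (hc : 0 ≤ c)
    (ha : ∀ A B (p : X → unitInterval), Nn A B → ¬ S A B →
      u A B - c * ψ A B ≤
        (u (fun x => A x * (1 - (p x : ℝ))) B - c * ψ (fun x => A x * (1 - (p x : ℝ))) B)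
        + (u (fun x => A x * (p x : ℝ)) B - c * ψ (fun x => A x * (p x : ℝ)) B))
    (hb : ∀ A B (q : Y → unitInterval), Nn A B → ¬ S A B →
      u A B - c * ψ A B ≤
        (u A (fun y => B y * (1 - (q y : ℝ))) - c * ψ A (fun y => B y * (1 - (q y : ℝ))))
        + (u A (fun y => B y * (q y : ℝ)) - c * ψ A (fun y => B y * (q y : ℝ))))
    (t : Protocol X Y O) : ∀ (A : X → ℝ) (B : Y → ℝ), Nn A B →
      u A B - c * ψ A B + c * lsum (fun A B _ => ψ A B) t A B ≤ ssum S u u t A B := by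
  induction t with
  | leaf o => intro A B _; by_cases h : S A B <;> simp [ssum, lsum, h]
  | alice p t₀ t₁ ih₀ ih₁ =>
    intro A B hn
    by_cases h : S A B
    · have := mul_le_mul_of_nonneg_left (hψ.lsum_le (alice p t₀ t₁) A B hn) hc
      rw [ssum_stop _ h]; linarith
    · have h0 := ih₀ _ _ (hn.a0 p)
      have h1 := ih₁ _ _ (hn.a1 p)
      have h2 := ha A B p hn h
      simp only [ssum, h, lsum, if_false]
      linarith
  | bob q t₀ t₁ ih₀ ih₁ =>
    intro A B hn
    by_cases h : S A B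
    · have := mul_le_mul_of_nonneg_left (hψ.lsum_le (bob q t₀ t₁) A B hn) hc
      rw [ssum_stop _ h]; linarith
    · have h0 := ih₀ _ _ (hn.b0 q)
      have h1 := ih₁ _ _ (hn.b1 q)
      have h2 := hb A B q hn h
      simp only [ssum, h, lsum, if_false]
      linarith
  | coin r t₀ t₁ ih₀ ih₁ =>
    intro A B hn
    by_cases h : S A B
    · have := mul_le_mul_of_nonneg_left (hψ.lsum_le (coin r t₀ t₁) A B hn) hc
      rw [ssum_stop _ h]; linarith
    · have h0 := ih₀ _ _ (hn.a0 fun _ => r)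
      have h1 := ih₁ _ _ (hn.a1 fun _ => r)
      have h2 := ha A B (fun _ => r) hn h
      simp only [ssum, h, lsum, if_false]
      linarith

end ssum

end Protocol

end Run7.h242.Ext
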