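import Pool.Agent.Run7.h242.ExtDefs

/-!
# Building blocks for deterministic protocols
-/

namespace Run7.h242.Ext

namespace Protocol

variable {X Y O : Type}

/-- Alice sends a `k`-bit message. -/
noncomputable def sendA : (k : ℕ) → (X → Fin k → Bool) → ((Fin k → Bool) → Protocol X Y O) →
    Protocol X Y O
  | 0, _, c => c fun i => i.elim0
  | k + 1, f, c => alice (fun x => if f x 0 = true then 1 else 0)
      (sendA k (fun x => Fin.tail (f x)) fun v => c (Fin.cons false v))
      (sendA k (fun x => Fin.tail (f x)) fun v => c (Fin.cons true v))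

/-- Bob sends a `k`-bit message. -/
noncomputable def sendB : (k : ℕ) → (Y → Fin k → Bool) → ((Fin k → Bool) → Protocol X Y O) →
    Protocol X Y O
  | 0, _, c => c fun i => i.elim0
  | k + 1, f, c => bob (fun x => if f x 0 = true then 1 else 0)
      (sendB k (fun x => Fin.tail (f x)) fun v => c (Fin.cons false v))
      (sendB k (fun x => Fin.tail (f x)) fun v => c (Fin.cons true v))

lemma cons_tail_of {k : ℕ} {v : Fin (k + 1) → Bool} {b : Bool} (h : v 0 = b) :
    (Fin.cons b (Fin.tail v) : Fin (k + 1) → Bool) = v := by
  rw [← h]; exact Fin.cons_self_tail v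

lemma bits_sendA (k : ℕ) : ∀ (f : X → Fin k → Bool) (c : (Fin k → Bool) → Protocol X Y O)
    (x : X) (y : Y), (sendA k f c).bits x y = k + (c (f x)).bits x y := by
  induction k with
  | zero =>
    intro f c x y
    have : f x = fun i => i.elim0 := by funext i; exact i.elim0
    simp [sendA, this]
  | succ k ih =>
    intro f c x y
    by_cases h : f x 0 = true
    · have h1 := cons_tail_of h
      simp only [sendA, bits, ih]
      rw [if_pos h, h1]
      simp only [Set.Icc.coe_one]
      push_cast
      ring
    · have h2 : f x 0 = false := by simpa using h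
      have h1 := cons_tail_of h2
      simp only [sendA, bits, ih]
      rw [if_neg h, h1]
      simp only [Set.Icc.coe_zero]
      push_cast
      ring

lemma bits_sendB (k : ℕ) : ∀ (f : Y → Fin k → Bool) (c : (Fin k → Bool) → Protocol X Y O)
    (x : X) (y : Y), (sendB k f c).bits x y = k + (c (f y)).bits x y := by
  induction k with
  | zero =>
    intro f c x y
    have : f y = fun i => i.elim0 := by funext i; exact i.elim0
    simp [sendB, this]
  | succ k ih =>
    intro f c x y
    by_cases h : f y 0 = true
    · have h1 := cons_tail_of h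
      simp only [sendB, bits, ih]
      rw [if_pos h, h1]
      simp only [Set.Icc.coe_one]
      push_cast
      ring
    · have h2 : f y 0 = false := by simpa using h
      have h1 := cons_tail_of h2
      simp only [sendB, bits, ih]
      rw [if_neg h, h1]
      simp only [Set.Icc.coe_zero]
      push_cast
      ring

lemma reach_sendA (k : ℕ) : ∀ (f : X → Fin k → Bool) (c : (Fin k → Bool) → Protocol X Y O)
    (x : X) (y : Y) (o : O), (sendA k f c).Reach x y o → (c (f x)).Reach x y o := by
  induction k with
  | zero =>
    intro f c x y o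
    have : f x = fun i => i.elim0 := by funext i; exact i.elim0
    simp [sendA, this]
  | succ k ih =>
    intro f c x y o hr
    rcases hr with ⟨hp, hr⟩ | ⟨hp, hr⟩
    · by_cases h : f x 0 = true
      · exfalso; apply hp; simp [h]
      · have h2 : f x 0 = false := by simpa using h
        have := ih _ _ _ _ _ hr
        rwa [cons_tail_of h2] at this
    · by_cases h : f x 0 = true
      · have := ih _ _ _ _ _ hr
        rwa [cons_tail_of h] at this
      · exfalso; apply hp; simp [h]

lemma reach_sendB (k : ℕ) : ∀ (f : Y → Fin k → Bool) (c : (Fin k → Bool) → Protocol X Y O)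
    (x : X) (y : Y) (o : O), (sendB k f c).Reach x y o → (c (f y)).Reach x y o := by
  induction k with
  | zero =>
    intro f c x y o
    have : f y = fun i => i.elim0 := by funext i; exact i.elim0
    simp [sendB, this]
  | succ k ih =>
    intro f c x y o hr
    rcases hr with ⟨hp, hr⟩ | ⟨hp, hr⟩
    · by_cases h : f y 0 = true
      · exfalso; apply hp; simp [h]
      · have h2 : f y 0 = false := by simpa using h
        have := ih _ _ _ _ _ hr
        rwa [cons_tail_of h2] at this
    · by_cases h : f y 0 = true
      · have := ih _ _ _ _ _ hr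
        rwa [cons_tail_of h] at this
      · exfalso; apply hp; simp [h]

lemma bits_nonneg (t : Protocol X Y O) (x : X) (y : Y) : 0 ≤ t.bits x y := by
  induction t with
  | leaf o => simp [bits]
  | alice p t₀ t₁ ih₀ ih₁ =>
    have := mul_nonneg (sub_nonneg.2 (p x).2.2) ih₀
    have := mul_nonneg (p x).2.1 ih₁
    simp only [bits]; linarith
  | bob q t₀ t₁ ih₀ ih₁ =>
    have := mul_nonneg (sub_nonneg.2 (q y).2.2) ih₀
    have := mul_nonneg (q y).2.1 ih₁
    simp only [bits]; linarith
  | coin r t₀ t₁ ih₀ ih₁ =>
    have := mul_nonneg (sub_nonneg.2 r.2.2) ih₀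
    have := mul_nonneg r.2.1 ih₁
    simp only [bits]; linarith

/-- Send a message from a finite type along an injection into `k`-bit strings. -/
noncomputable def msgA {M : Type} [Nonempty M] {k : ℕ} (e : M ↪ (Fin k → Bool)) (f : X → M)
    (c : M → Protocol X Y O) : Protocol X Y O :=
  sendA k (fun x => e (f x)) fun v => c (Function.invFun e v)

/-- Bob sends a message from a finite type along an injection into `k`-bit strings. -/
noncomputable def msgB {M : Type} [Nonempty M] {k : ℕ} (e : M ↪ (Fin k → Bool)) (f : Y → M)
    (c : M → Protocol X Y O) : Protocol X Y O :=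
  sendB k (fun y => e (f y)) fun v => c (Function.invFun e v)

section
variable {M : Type} [Nonempty M] {k : ℕ} (e : M ↪ (Fin k → Bool))

lemma inv_e (m : M) : Function.invFun e (e m) = m := Function.leftInverse_invFun e.injective m

lemma bits_msgA (f : X → M) (c : M → Protocol X Y O) (x : X) (y : Y) :
    (msgA e f c).bits x y = k + (c (f x)).bits x y := by
  unfold msgA; rw [bits_sendA, inv_e]

lemma bits_msgB (f : Y → M) (c : M → Protocol X Y O) (x : X) (y : Y) :
    (msgB e f c).bits x y = k + (c (f y)).bits x y := by
  unfold msgB; rw [bits_sendB, inv_e]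

lemma reach_msgA {f : X → M} {c : M → Protocol X Y O} {x : X} {y : Y} {o : O}
    (h : (msgA e f c).Reach x y o) : (c (f x)).Reach x y o := by
  have := reach_sendA _ _ _ _ _ _ h
  rwa [inv_e] at this

lemma reach_msgB {f : Y → M} {c : M → Protocol X Y O} {x : X} {y : Y} {o : O}
    (h : (msgB e f c).Reach x y o) : (c (f y)).Reach x y o := by
  have := reach_sendB _ _ _ _ _ _ h
  rwa [inv_e] at this

end

lemma exists_emb {M : Type} [Fintype M] {k : ℕ} (h : Fintype.card M ≤ 2 ^ k) :
    Nonempty (M ↪ (Fin k → Bool)) := by
  apply Function.Embedding.nonempty_of_card_le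
  simpa using h

/-- The trivial protocol: Alice sends `x`, Bob answers with the value. -/
noncomputable def fallback [Nonempty X] [Nonempty O] {a b : ℕ} (eX : X ↪ (Fin a → Bool))
    (eO : O ↪ (Fin b → Bool)) (F : X → Y → O) : Protocol X Y O :=
  msgA eX id fun x => msgB eO (fun y => F x y) fun o => leaf o

lemma bits_fallback [Nonempty X] [Nonempty O] {a b : ℕ} (eX : X ↪ (Fin a → Bool))
    (eO : O ↪ (Fin b → Bool)) (F : X → Y → O) (x : X) (y : Y) :
    (fallback eX eO F).bits x y = a + b := by
  unfold fallback
  rw [bits_msgA, bits_msgB]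
  simp [bits]

lemma reach_fallback [Nonempty X] [Nonempty O] {a b : ℕ} (eX : X ↪ (Fin a → Bool))
    (eO : O ↪ (Fin b → Bool)) (F : X → Y → O) (x : X) (y : Y) (o : O)
    (h : (fallback eX eO F).Reach x y o) : o = F x y := by
  unfold fallback at h
  have h0 := reach_msgA _ h
  have h1 := reach_msgB _ h0
  exact h1

end Protocol

end Run7.h242.Ext
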