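import Pool.Agent.Run7.h242.ExtUp1

/-!
# Hashing protocol for many copies
-/

namespace Run7.h242.Ext

open Real Protocol

/-- Among all functions, a fraction `1 / |β|` has a collision at two given points. -/
lemma hash_count {α β : Type} [Fintype α] [Fintype β] [DecidableEq α] [DecidableEq β]
    {z x : α} (hzx : z ≠ x) :
    (Finset.univ.filter fun h : α → β => h z = h x).card * Fintype.card β
      = Fintype.card (α → β) := by
  have e : {h : α → β // h z = h x} × β ≃ (α → β) :=
    { toFun := fun p => Function.update p.1.1 z p.2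
      invFun := fun g => (⟨Function.update g z (g x), by
        rw [Function.update_self, Function.update_of_ne (Ne.symm hzx)]⟩, g z)
      left_inv := by
        rintro ⟨⟨h, hh⟩, v⟩
        simp only [Function.update_self, Function.update_idem, Prod.mk.injEq, Subtype.mk.injEq,
          and_true]
        rw [Function.update_of_ne (Ne.symm hzx), ← hh, Function.update_eq_self]
      right_inv := by
        intro g
        simp }
  rw [← Fintype.card_subtype, ← Fintype.card_prod]
  exact Fintype.card_congr e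

open Classical in
/-- Some hash function has small collision probability. -/
lemma exists_hash {α β V : Type} [Fintype α] [Fintype β] [Fintype V] [Nonempty V]
    (ν : α → β → ℝ) (hν : ∀ x y, 0 ≤ ν x y) (hν1 : ∑ x, ∑ y, ν x y = 1)
    (typ : α → β → Prop) (T : ℝ)
    (hT : ∀ y, ((Finset.univ.filter fun z => typ z y).card : ℝ) ≤ T) :
    ∃ H : α → V, ∑ x, ∑ y, ν x y * (if ∃ z, z ≠ x ∧ typ z y ∧ H z = H x then 1 else 0)
      ≤ T / Fintype.card V := by
  have hV : 0 < (Fintype.card V : ℝ) := by exact_mod_cast Fintype.card_pos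
  have key : ∑ H : α → V, ∑ x, ∑ y, ν x y * (if ∃ z, z ≠ x ∧ typ z y ∧ H z = H x then 1 else 0)
      ≤ ∑ H : α → V, T / Fintype.card V := by
    have h1 : ∀ x y, ∑ H : α → V, (if ∃ z, z ≠ x ∧ typ z y ∧ H z = H x then (1 : ℝ) else 0)
        ≤ T * (Fintype.card (α → V) / Fintype.card V) := by
      intro x y
      have h2 : ∀ H : α → V, (if ∃ z, z ≠ x ∧ typ z y ∧ H z = H x then (1 : ℝ) else 0)
          ≤ ∑ z ∈ Finset.univ.filter (fun z => z ≠ x ∧ typ z y),
            (if H z = H x then (1 : ℝ) else 0) := by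
        intro H
        have h0 : ∀ z ∈ Finset.univ.filter (fun z => z ≠ x ∧ typ z y),
            0 ≤ (if H z = H x then (1 : ℝ) else 0) := by
          intro z _; split_ifs <;> norm_num
        split_ifs with hz
        · obtain ⟨z, hz1, hz2, hz3⟩ := hz
          have := Finset.single_le_sum h0
            (Finset.mem_filter.2 ⟨Finset.mem_univ z, hz1, hz2⟩)
          simpa [hz3] using this
        · exact Finset.sum_nonneg h0
      refine (Finset.sum_le_sum fun H _ => h2 H).trans ?_
      rw [Finset.sum_comm]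
      have h3 : ∀ z ∈ Finset.univ.filter (fun z => z ≠ x ∧ typ z y),
          ∑ H : α → V, (if H z = H x then (1 : ℝ) else 0)
            = Fintype.card (α → V) / Fintype.card V := by
        intro z hz
        have h4 := hash_count (β := V) (Finset.mem_filter.1 hz).2.1
        rw [Finset.sum_ite, Finset.sum_const, Finset.sum_const_zero, add_zero, nsmul_eq_mul,
          mul_one, eq_div_iff hV.ne']
        exact_mod_cast h4
      rw [Finset.sum_congr rfl h3, Finset.sum_const, nsmul_eq_mul]
      refine mul_le_mul_of_nonneg_right ?_ (by positivity)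
      refine le_trans ?_ (hT y)
      have : Finset.univ.filter (fun z => z ≠ x ∧ typ z y)
          ⊆ Finset.univ.filter (fun z => typ z y) := by
        intro z hz
        simp only [Finset.mem_filter, Finset.mem_univ, true_and] at hz ⊢
        exact hz.2
      exact_mod_cast Finset.card_le_card this
    have h5 : ∑ H : α → V, ∑ x, ∑ y,
        ν x y * (if ∃ z, z ≠ x ∧ typ z y ∧ H z = H x then 1 else 0)
        = ∑ x, ∑ y, ν x y * ∑ H : α → V,
          (if ∃ z, z ≠ x ∧ typ z y ∧ H z = H x then (1 : ℝ) else 0) := by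
      rw [Finset.sum_comm]
      refine Finset.sum_congr rfl fun x _ => ?_
      rw [Finset.sum_comm]
      refine Finset.sum_congr rfl fun y _ => ?_
      rw [Finset.mul_sum]
    rw [h5]
    have h6 : ∑ x, ∑ y, ν x y * ∑ H : α → V,
          (if ∃ z, z ≠ x ∧ typ z y ∧ H z = H x then (1 : ℝ) else 0)
        ≤ ∑ x, ∑ y, ν x y * (T * (Fintype.card (α → V) / Fintype.card V)) :=
      Finset.sum_le_sum fun x _ => Finset.sum_le_sum fun y _ =>
        mul_le_mul_of_nonneg_left (h1 x y) (hν x y)
    refine h6.trans (le_of_eq ?_)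
    simp_rw [← Finset.sum_mul]
    rw [hν1, Finset.sum_const, nsmul_eq_mul, Finset.card_univ]
    ring
  obtain ⟨H, _, hH⟩ := Finset.exists_le_of_sum_le Finset.univ_nonempty key
  exact ⟨H, hH⟩

/-- Sums over strings of products factorise. -/
lemma sum_pow {X Y : Type} [Fintype X] [Fintype Y] [DecidableEq X] [DecidableEq Y]
    (φ : X → Y → ℝ) (n : ℕ) :
    ∑ x : Fin n → X, ∑ y : Fin n → Y, ∏ i, φ (x i) (y i) = (∑ x, ∑ y, φ x y) ^ n := by
  have h1 : ∀ x : Fin n → X, ∑ y : Fin n → Y, ∏ i, φ (x i) (y i) = ∏ i, ∑ b, φ (x i) b := by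
    intro x
    rw [Finset.prod_univ_sum, Fintype.piFinset_univ]
  simp_rw [h1]
  have h2 := Finset.prod_univ_sum (fun _ : Fin n => (Finset.univ : Finset X))
    (fun _ a => ∑ b, φ a b)
  rw [Fintype.piFinset_univ] at h2
  rw [← h2]
  simp

section main

variable {X Y : Type}
variable (F : X → Y → Bool) (g : X → Y → ℝ) (PA : Bool × Bool → X → Prop)
  (PB : Bool × Bool → Y → Prop) (col : Bool × Bool → Bool) (cl : X → Y → Bool × Bool)

/-- Typical strings. -/
def Typ (b : ℝ) (n : ℕ) (z : Fin n → X) (y : Fin n → Y) : Prop :=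
  exp (-(b * n)) ≤ ∏ i, g (z i) (y i)

open Classical in
/-- Bob's answer: decode `x` from its hash and name the classes. -/
noncomputable def bmsg {n k : ℕ} (b : ℝ) (H : (Fin n → X) → Fin k → Bool) (v : Fin k → Bool)
    (y : Fin n → Y) : Option (Fin n → Bool × Bool) :=
  if h : ∃ z, Typ g b n z y ∧ H z = v then
    (if ∀ i, PB (cl (h.choose i) (y i)) (y i) then some fun i => cl (h.choose i) (y i) else none)
  else none

/-- What follows Bob's answer. -/
noncomputable def after {n : ℕ} (FB : Protocol (Fin n → X) (Fin n → Y) (Fin n → Bool)) :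
    Option (Fin n → Bool × Bool) → Protocol (Fin n → X) (Fin n → Y) (Fin n → Bool)
  | none => FB
  | some r => alice (open Classical in fun x => if ∀ i, PA (r i) (x i) then 1 else 0) FB
      (leaf fun i => col (r i))

/-- The protocol. -/
noncomputable def mainP {n k m : ℕ} (b : ℝ) (H : (Fin n → X) → Fin k → Bool)
    (eM : Option (Fin n → Bool × Bool) ↪ (Fin m → Bool))
    (FB : Protocol (Fin n → X) (Fin n → Y) (Fin n → Bool)) :
    Protocol (Fin n → X) (Fin n → Y) (Fin n → Bool) :=
  sendA k H fun v => msgB eM (bmsg g PB cl b H v) (after PA col FB)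

variable {F g PA PB col cl}

lemma bmsg_some {n k : ℕ} {b : ℝ} {H : (Fin n → X) → Fin k → Bool} {v : Fin k → Bool}
    {y : Fin n → Y} {r : Fin n → Bool × Bool} (h : bmsg g PB cl b H v y = some r) :
    ∀ i, PB (r i) (y i) := by
  unfold bmsg at h
  split_ifs at h with h1 h2
  rw [Option.some.injEq] at h
  intro i
  rw [← h]
  exact h2 i

lemma mainP_zero {n k m : ℕ} {b : ℝ} {H : (Fin n → X) → Fin k → Bool}
    {eM : Option (Fin n → Bool × Bool) ↪ (Fin m → Bool)}
    {FB : Protocol (Fin n → X) (Fin n → Y) (Fin n → Bool)}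
    (hFB : FB.ZeroError (powFun F n))
    (hmono : ∀ r x y, PA r x → PB r y → F x y = col r) :
    (mainP g PA PB col cl b H eM FB).ZeroError (powFun F n) := by
  intro x y o hr
  unfold mainP at hr
  have h1 := reach_sendA _ _ _ _ _ _ hr
  have h2 := reach_msgB _ h1
  cases h3 : bmsg g PB cl b H (H x) y with
  | none =>
    rw [h3] at h2
    exact hFB x y o h2
  | some r =>
    rw [h3] at h2
    have h4 := bmsg_some h3
    rcases h2 with ⟨_, h2⟩ | ⟨hp, h2⟩
    · exact hFB x y o h2
    · have h5 : ∀ i, PA (r i) (x i) := by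
        by_contra hc
        apply hp
        beta_reduce
        rw [if_neg hc]
        rfl
      have h6 : o = fun i => col (r i) := h2
      rw [h6]
      funext i
      exact (hmono _ _ _ (h5 i) (h4 i)).symm

lemma mainP_bits_le {n k m : ℕ} {b : ℝ} {H : (Fin n → X) → Fin k → Bool}
    {eM : Option (Fin n → Bool × Bool) ↪ (Fin m → Bool)}
    {FB : Protocol (Fin n → X) (Fin n → Y) (Fin n → Bool)} {c : ℝ}
    (hFB : ∀ x y, FB.bits x y = c) (hc : 0 ≤ c) (x : Fin n → X) (y : Fin n → Y) :
    (mainP g PA PB col cl b H eM FB).bits x y ≤ k + m + 1 + c := by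
  unfold mainP
  rw [bits_sendA, bits_msgB]
  cases h3 : bmsg g PB cl b H (H x) y with
  | none => simp only [after, hFB]; linarith
  | some r =>
    simp only [after, bits, hFB]
    by_cases h : ∀ i, PA (r i) (x i)
    · rw [if_pos h]; simp; linarith
    · rw [if_neg h]; simp; linarith

lemma mainP_bits_ok {n k m : ℕ} {b : ℝ} {H : (Fin n → X) → Fin k → Bool}
    {eM : Option (Fin n → Bool × Bool) ↪ (Fin m → Bool)}
    {FB : Protocol (Fin n → X) (Fin n → Y) (Fin n → Bool)} (x : Fin n → X) (y : Fin n → Y)
    (htyp : Typ g b n x y) (hcoll : ¬ ∃ z, z ≠ x ∧ Typ g b n z y ∧ H z = H x)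
    (hcl : ∀ i, PA (cl (x i) (y i)) (x i) ∧ PB (cl (x i) (y i)) (y i)) :
    (mainP g PA PB col cl b H eM FB).bits x y = k + m + 1 := by
  have h : ∃ z, Typ g b n z y ∧ H z = H x := ⟨x, htyp, rfl⟩
  have hx : h.choose = x := by
    by_contra hne
    exact hcoll ⟨h.choose, hne, h.choose_spec.1, h.choose_spec.2⟩
  have hb : bmsg g PB cl b H (H x) y = some fun i => cl (x i) (y i) := by
    unfold bmsg
    rw [dif_pos h, hx, if_pos fun i => (hcl i).2]
  unfold mainP
  rw [bits_sendA, bits_msgB, hb]
  simp only [after, bits]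
  rw [if_pos fun i => (hcl i).1]
  simp
  ring

end main

end Run7.h242.Ext
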