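import Mathlib

/-!
# Flarb operations on binary trees: definitions
-/

namespace Run7.h242.Flarb

/-- Binary trees whose nodes are natural numbers. -/
inductive BT : Type
  | nil : BT
  | node (l : BT) (k : ℕ) (r : BT) : BT

namespace BT

/-- The nodes in symmetric order. -/
def inorder : BT → List ℕ
  | nil => []
  | node l k r => l.inorder ++ k :: r.inorder

/-- The relationship between a node `k` and the root of its left (`b = false`) or right
(`b = true`) subtree. -/
def link (b : Bool) (k : ℕ) : BT → Finset (Bool × ℕ × ℕ)
  | nil => ∅
  | node _ j _ => {(b, k, j)}

/-- All parent/left-child relationships `(false, k, j)` and parent/right-child relationships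
`(true, k, j)` (`j` is the child of `k`). -/
def ptrs : BT → Finset (Bool × ℕ × ℕ)
  | nil => ∅
  | node l k r => link false k l ∪ link true k r ∪ l.ptrs ∪ r.ptrs

/-- The number of relationships that change from the tree `t` to the tree `t'`. -/
def changes (t t' : BT) : ℕ := (symmDiff t.ptrs t'.ptrs).card

/-- The nodes of `t` in `S` form an empty or anchored (connected, containing the root) set. -/
def Conn (S : Finset ℕ) : BT → Prop
  | nil => True
  | node l k r => (k ∈ S ∧ l.Conn S ∧ r.Conn S) ∨ ∀ x ∈ (node l k r).inorder, x ∉ S

/-- `S` is an anchored subtree of `t`: a connected set of nodes of `t` that contains the root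
(empty when `t` is empty). -/
def Anchored (S : Finset ℕ) (t : BT) : Prop :=
  (∀ x ∈ S, x ∈ t.inorder) ∧
  match t with
  | nil => True
  | node l k r => k ∈ S ∧ l.Conn S ∧ r.Conn S

/-- Cut `t` along its anchored subtree `S`: the list of the nodes of `S` in symmetric order,
each together with the hanging subtree that lies just before it in symmetric order, and the
hanging subtree that lies after the last of them. -/
def dec (S : Finset ℕ) : BT → List (BT × ℕ) × BT
  | nil => ([], nil)
  | node l k r =>
    if k ∈ S then ((l.dec S).1 ++ ((l.dec S).2, k) :: (r.dec S).1, (r.dec S).2)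
    else ([], node l k r)

/-- The rightmost path through the nodes of the list, with the given left subtrees, and with
`h` as the right subtree of the last node. -/
def path : List (BT × ℕ) → BT → BT
  | [], h => h
  | (t, k) :: L, h => node t k (path L h)

/-- Rearrange the anchored subtree `S` of `t` into a rightmost path, preserving the symmetric
order; the subtrees hanging off `S` keep their shape. -/
def rearrange (S : Finset ℕ) (t : BT) : BT := path (t.dec S).1 (t.dec S).2

/-- The flarb of the anchored subtree `S` of `t`: add a new root `r` with left subtree `t` and
no right child, and rearrange `S ∪ {r}` into a rightmost path. -/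
def flarb (S : Finset ℕ) (t : BT) (r : ℕ) : BT := rearrange (insert r S) (node t r nil)

end BT

/-- `T 0, …, T n` is a sequence of `n` flarbs starting from the empty tree; the node added by
the `i`-th flarb (`i = 0, …, n - 1`) is called `i`, and `S i` is the anchored subtree used. -/
def IsFlarbSeq (n : ℕ) (T : ℕ → BT) (S : ℕ → Finset ℕ) : Prop :=
  T 0 = BT.nil ∧ ∀ i < n, (T i).Anchored (S i) ∧ T (i + 1) = BT.flarb (S i) (T i) i

/-- The total number of pointer changes. -/
def totalCost (n : ℕ) (T : ℕ → BT) : ℕ := ∑ i ∈ Finset.range n, (T i).changes (T (i + 1))

end Run7.h242.Flarb
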