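import Pool.Agent.Run7.h242.FlarbPf

/-!
# A sequence of flarbs with `Ω(n log n)` pointer changes: the recursion
-/

namespace Run7.h242.Flarb

open BT

/-- Childless roots `b, …, b + m - 1`. -/
def leaves (b m : ℕ) : List (BT × ℕ) := (List.range' b m).map fun k => (nil, k)

lemma leaves_zero (b : ℕ) : leaves b 0 = [] := rfl

lemma leaves_succ (b m : ℕ) : leaves b (m + 1) = (nil, b) :: leaves (b + 1) m := by
  simp [leaves, List.range'_succ]

lemma leaves_succ' (b m : ℕ) : leaves b (m + 1) = leaves b m ++ [(nil, b + m)] := by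
  simp [leaves, List.range'_concat]

lemma leaves_append (b m k : ℕ) : leaves b m ++ leaves (b + m) k = leaves b (m + k) := by
  simp [leaves, ← List.map_append, List.range'_append_1]

/-- A run of `m` steps on a region starting with the new root `b`, with `c i` openings in the
`i`-th step, which ends with `m` childless roots. -/
def IsRun (b m : ℕ) (Q : ℕ → List (BT × ℕ)) (c : ℕ → ℕ) : Prop :=
  Q 0 = [] ∧ Q m = leaves b m ∧
    ∀ i < m, ∃ O : List ℕ, O.length = c i ∧ RStep (Q i) (Q (i + 1)) (b + i) O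

/-- Number of openings. -/
def fo : ℕ → ℕ
  | 0 => 0
  | d + 1 => 2 * fo d + (2 ^ d - 1)

lemma fo_eq (d : ℕ) : 2 * fo d + 2 * 2 ^ d = d * 2 ^ d + 2 := by
  induction d with
  | zero => simp [fo]
  | succ d ih =>
    have h1 : 1 ≤ 2 ^ d := Nat.one_le_two_pow
    simp only [fo]
    rw [pow_succ]
    have h2 : 2 * (2 * fo d + (2 ^ d - 1)) + 2 * (2 ^ d * 2)
        = 2 * (2 * fo d + 2 * 2 ^ d) + 2 * (2 ^ d - 1) := by ring
    rw [h2, ih]
    obtain ⟨k, hk⟩ : ∃ k, 2 ^ d = k + 1 := ⟨2 ^ d - 1, by omega⟩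
    rw [hk]
    simp only [Nat.add_sub_cancel]
    ring

/-- The doubled run. -/
def Q2 (b m : ℕ) (Q Q' : ℕ → List (BT × ℕ)) (i : ℕ) : List (BT × ℕ) :=
  if i ≤ m then Q i else
    leaves b (i - (m + 1)) ++ (path (leaves (b + (i - (m + 1))) (m - (i - (m + 1)))) nil, b + m)
      :: Q' (i - (m + 1))

lemma exists_run (d : ℕ) : ∀ b, ∃ Q c, IsRun b (2 ^ d - 1) Q c ∧
    ∑ i ∈ Finset.range (2 ^ d - 1), c i = fo d := by
  induction d with
  | zero =>
    intro b
    refine ⟨fun _ => [], fun _ => 0, ⟨rfl, rfl, fun i hi => ?_⟩, by simp [fo]⟩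
    simp at hi
  | succ d ih =>
    intro b
    set m := 2 ^ d - 1 with hm
    have hm2 : 2 ^ (d + 1) - 1 = m + 1 + m := by
      have : 1 ≤ 2 ^ d := Nat.one_le_two_pow
      rw [pow_succ]; omega
    obtain ⟨Q, c, ⟨hQ0, hQm, hQ⟩, hc⟩ := ih b
    obtain ⟨Q', c', ⟨hQ0', hQm', hQ'⟩, hc'⟩ := ih (b + m + 1)
    rw [hm2]
    refine ⟨Q2 b m Q Q', fun i => if i < m then c i else if i = m then 0 else c' (i - (m + 1)) + 1,
      ⟨?_, ?_, ?_⟩, ?_⟩
    · simp [Q2, hQ0]
    · have h1 : ¬ (m + 1 + m ≤ m) := by omega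
      have h2 : m + 1 + m - (m + 1) = m := by omega
      simp only [Q2, h1, if_false, h2, Nat.sub_self, leaves_zero, hQm']
      have h3 : leaves b m ++ (path [] nil, b + m) :: leaves (b + m + 1) m
          = (leaves b m ++ [(nil, b + m)]) ++ leaves (b + (m + 1)) m := by
        simp [path, add_assoc]
      rw [h3, ← leaves_succ', leaves_append]
    · intro i hi
      rcases lt_trichotomy i m with him | him | him
      · obtain ⟨O, hO, hs⟩ := hQ i him
        refine ⟨O, by simp [him, hO], ?_⟩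
        simpa [Q2, him.le, Nat.succ_le_of_lt him] using hs
      · subst him
        refine ⟨[], by simp, ?_⟩
        have h1 : ¬ (m + 1 ≤ m) := by omega
        simp only [Q2, le_refl, if_true, h1, if_false, Nat.sub_self, leaves_zero, Nat.add_zero,
          Nat.sub_zero, hQ0', hQm]
        exact ⟨[], leaves b m, [], by simp, Op.nil, by simp⟩
      · obtain ⟨j, rfl⟩ : ∃ j, i = m + 1 + j := ⟨i - (m + 1), by omega⟩
        have hj : j < m := by omega
        obtain ⟨O, hO, hs⟩ := hQ' j hj
        refine ⟨(b + m) :: O, ?_, ?_⟩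
        · have h1 : ¬ (m + 1 + j < m) := by omega
          have h2 : m + 1 + j ≠ m := by omega
          have h3 : m + 1 + j - (m + 1) = j := by omega
          simp [h1, h2, h3, hO]
        · have h1 : ¬ (m + 1 + j ≤ m) := by omega
          have h2 : ¬ (m + 1 + j + 1 ≤ m) := by omega
          have h3 : m + 1 + j - (m + 1) = j := by omega
          have h4 : m + 1 + j + 1 - (m + 1) = j + 1 := by omega
          simp only [Q2, h1, h2, if_false, h3, h4]
          obtain ⟨p, hp⟩ : ∃ p, m - j = p + 1 := ⟨m - j - 1, by omega⟩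
          have hp' : m - (j + 1) = p := by omega
          rw [hp, hp', leaves_succ, leaves_succ']
          have hop : Op (leaves b j ++ [(path ((nil, b + j) :: leaves (b + j + 1) p) nil, b + m)])
              (leaves b j ++ [(nil, b + j), (path (leaves (b + j + 1) p) nil, b + m)])
              ([] ++ [b + m]) :=
            Op.append (Op.opn nil (b + j) _ _ Op.nil) (Op.refl _)
          have hs' := hs.prepend hop
          have e1 : b + m + 1 + j = b + (m + 1 + j) := by ring
          rw [e1] at hs'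
          simpa [List.append_assoc, add_assoc] using hs'
    · rw [Finset.sum_range_add, Finset.sum_range_succ]
      have s1 : ∑ x ∈ Finset.range m,
          (if x < m then c x else if x = m then 0 else c' (x - (m + 1)) + 1) = fo d := by
        rw [← hc]
        refine Finset.sum_congr rfl fun x hx => ?_
        simp [Finset.mem_range.1 hx]
      have s2 : ∑ x ∈ Finset.range m,
          (if m + 1 + x < m then c (m + 1 + x) else if m + 1 + x = m then 0
            else c' (m + 1 + x - (m + 1)) + 1) = fo d + m := by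
        rw [← hc']
        have : ∀ x ∈ Finset.range m, (if m + 1 + x < m then c (m + 1 + x) else
            if m + 1 + x = m then 0 else c' (m + 1 + x - (m + 1)) + 1) = c' x + 1 := by
          intro x _
          have h1 : ¬ (m + 1 + x < m) := by omega
          have h2 : m + 1 + x ≠ m := by omega
          have h3 : m + 1 + x - (m + 1) = x := by omega
          simp [h1, h2, h3]
        rw [Finset.sum_congr rfl this, Finset.sum_add_distrib]
        simp
      rw [s1, s2]
      simp [fo, ← hm]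
      ring

lemma RStep.ios_eq {Q Q' r O} (h : RStep Q Q' r O) : ios Q' = ios Q ++ [r] := by
  obtain ⟨K, W, K', rfl, hop, rfl⟩ := h
  simp [hop.ios_eq, inorder_path, inorder]

/-- `2 ^ d` flarbs with about `(d / 2) 2 ^ d` pointer changes. -/
theorem exists_seq (d : ℕ) : ∃ T S, IsFlarbSeq (2 ^ d) T S ∧ fo d ≤ totalCost (2 ^ d) T := by
  obtain ⟨Q, c, ⟨hQ0, _, hQ⟩, hc⟩ := exists_run d 1
  set m := 2 ^ d - 1 with hm
  have h2 : 2 ^ d = m + 1 := by
    have : 1 ≤ 2 ^ d := Nat.one_le_two_pow
    omega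
  have hios : ∀ i ≤ m, ios ((nil, 0) :: Q i) = List.range (i + 1) := by
    intro i
    induction i with
    | zero => intro _; simp [hQ0, inorder]
    | succ i ih =>
      intro hi
      obtain ⟨O, _, hs⟩ := hQ i (by omega)
      have := ih (by omega)
      rw [List.range_succ, ← this, ios_cons, ios_cons, hs.ios_eq, add_comm 1 i]
      simp [inorder]
  set T : ℕ → BT := fun i => match i with
    | 0 => nil
    | i + 1 => path ((nil, 0) :: Q i) nil with hT
  have hstep : ∀ i < m, ∃ S : Finset ℕ, (T (i + 1)).Anchored S ∧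
      T (i + 1 + 1) = flarb S (T (i + 1)) (i + 1) ∧ c i ≤ changes (T (i + 1)) (T (i + 1 + 1)) := by
    intro i hi
    obtain ⟨O, hO, hs⟩ := hQ i hi
    have hs' := hs.prepend (Op.refl [(nil, 0)])
    have hi1 := hios i hi.le
    obtain ⟨K, W, K', h1, hop, h2⟩ := hs
    have hop' := hop.append (Op.refl [(nil, 0)])
    have e1 : (nil, 0) :: Q i = ([(nil, 0)] ++ K) ++ W := by simp [h1]
    have e2 : (nil, 0) :: Q (i + 1) = ([(nil, 0)] ++ K') ++ [(path W nil, 1 + i)] := by simp [h2]
    have hn : (ios (([(nil, 0)] ++ K) ++ W) ++ [1 + i]).Nodup := by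
      rw [← e1, hi1, add_comm 1 i, ← List.range_succ]
      exact List.nodup_range
    obtain ⟨S, a, b, c'⟩ := flarb_step (r := 1 + i) hop' (by simp) hn
    refine ⟨S, ?_, ?_, ?_⟩
    · show (path ((nil, 0) :: Q i) nil).Anchored S
      rw [e1]; exact a
    · show path ((nil, 0) :: Q (i + 1)) nil = flarb S (path ((nil, 0) :: Q i) nil) (i + 1)
      rw [e1, e2, b, add_comm 1 i]
    · show c i ≤ changes (path ((nil, 0) :: Q i) nil) (path ((nil, 0) :: Q (i + 1)) nil)
      rw [e1, e2, ← hO]
      simpa using c'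
  choose! S hS1 hS2 hS3 using hstep
  refine ⟨T, fun i => if i = 0 then ∅ else S (i - 1), ⟨rfl, ?_⟩, ?_⟩
  · intro i hi
    rw [h2] at hi
    rcases i with _ | i
    · refine ⟨⟨by simp, trivial⟩, ?_⟩
      simp [hT, hQ0, flarb, rearrange, dec, path]
    · have := hS1 i (by omega)
      have h' := hS2 i (by omega)
      simp only [Nat.add_eq_zero_iff, one_ne_zero, and_false, if_false, Nat.add_sub_cancel]
      exact ⟨this, h'⟩
  · unfold totalCost
    rw [h2, Finset.sum_range_succ', ← hc]
    refine le_trans (Finset.sum_le_sum fun i hi => ?_) (Nat.le_add_right _ _)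
    exact hS3 i (Finset.mem_range.1 hi)

/-- **Main theorem.** -/
theorem main_flarb :
    (∀ d : ℕ, ∃ T S, IsFlarbSeq (2 ^ d) T S ∧
      (d : ℝ) / 2 * 2 ^ d - 2 ^ d < (totalCost (2 ^ d) T : ℝ)) ∧
    ∀ C : ℝ, ∃ n T S, IsFlarbSeq n T S ∧ C * (n : ℝ) < (totalCost n T : ℝ) := by
  have h1 : ∀ d : ℕ, ∃ T S, IsFlarbSeq (2 ^ d) T S ∧
      (d : ℝ) / 2 * 2 ^ d - 2 ^ d < (totalCost (2 ^ d) T : ℝ) := by
    intro d
    obtain ⟨T, S, h, hc⟩ := exists_seq d
    refine ⟨T, S, h, ?_⟩
    have e := fo_eq d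
    have e' : (2 : ℝ) * fo d + 2 * 2 ^ d = d * 2 ^ d + 2 := by exact_mod_cast e
    have hc' : (fo d : ℝ) ≤ totalCost (2 ^ d) T := by exact_mod_cast hc
    linarith
  refine ⟨h1, fun C => ?_⟩
  obtain ⟨d, hd⟩ := exists_nat_ge (2 * C + 2)
  obtain ⟨T, S, h, hc⟩ := h1 d
  refine ⟨2 ^ d, T, S, h, lt_of_le_of_lt ?_ hc⟩
  push_cast
  have hp : (0 : ℝ) < 2 ^ d := by positivity
  nlinarith

end Run7.h242.Flarb
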