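import Pool.Agent.Run7.h242.FlarbDefs

/-!
# A sequence of flarbs with `Ω(n log n)` pointer changes
-/

namespace Run7.h242.Flarb

open BT

/-- Symmetric order of a list of roots with hanging subtrees. -/
def ios (L : List (BT × ℕ)) : List ℕ := L.flatMap fun p => p.1.inorder ++ [p.2]

@[simp] lemma ios_nil : ios [] = [] := rfl
@[simp] lemma ios_cons (p : BT × ℕ) (L) : ios (p :: L) = p.1.inorder ++ p.2 :: ios L := by
  simp [ios]
@[simp] lemma ios_append (L M) : ios (L ++ M) = ios L ++ ios M := by simp [ios]

lemma inorder_path (L h) : (path L h).inorder = ios L ++ h.inorder := by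
  induction L with
  | nil => simp [path]
  | cons p L ih => obtain ⟨t, k⟩ := p; simp [path, inorder, ih]

lemma path_append (L M h) : path (L ++ M) h = path L (path M h) := by
  induction L with
  | nil => rfl
  | cons p L ih => obtain ⟨t, k⟩ := p; simp [path, ih]

/-- `Op K K' O`: the roots in `O` are opened, releasing their first child. -/
inductive Op : List (BT × ℕ) → List (BT × ℕ) → List ℕ → Prop
  | nil : Op [] [] []
  | keep {K K' O} (t : BT) (k : ℕ) : Op K K' O → Op ((t, k) :: K) ((t, k) :: K') O
  | opn {K K' O} (h : BT) (j : ℕ) (t : BT) (k : ℕ) : Op K K' O →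
      Op ((node h j t, k) :: K) ((h, j) :: (t, k) :: K') (k :: O)

lemma Op.refl (K : List (BT × ℕ)) : Op K K [] := by
  induction K with
  | nil => exact Op.nil
  | cons p K ih => obtain ⟨t, k⟩ := p; exact Op.keep t k ih

lemma Op.append {K K' O P P' O'} (h : Op K K' O) (h' : Op P P' O') :
    Op (P ++ K) (P' ++ K') (O' ++ O) := by
  induction h' with
  | nil => simpa using h
  | keep t k _ ih => exact Op.keep t k ih
  | opn h j t k _ ih => exact Op.opn h j t k ih

lemma Op.ios_eq {K K' O} (h : Op K K' O) : ios K' = ios K := by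
  induction h with
  | nil => rfl
  | keep t k _ ih => simp [ih]
  | opn h j t k _ ih => simp [ih, inorder]

lemma Op.ne_nil {K K' O} (h : Op K K' O) (hK : K ≠ []) : K' ≠ [] := by
  cases h with
  | nil => exact hK
  | keep => simp
  | opn => simp

/-- `t` has no node in `S`. -/
def Clean (S : Finset ℕ) (t : BT) : Prop := ∀ x ∈ t.inorder, x ∉ S

lemma dec_clean {S : Finset ℕ} {t : BT} (h : Clean S t) : t.dec S = ([], t) := by
  cases t with
  | nil => rfl
  | node l k r =>
    have : k ∉ S := h k (by simp [inorder])
    simp [dec, this]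

lemma conn_clean {S : Finset ℕ} {t : BT} (h : Clean S t) : t.Conn S := by
  cases t with
  | nil => trivial
  | node l k r => exact Or.inr h

lemma dec_path {S : Finset ℕ} {K K' O} (hop : Op K K' O) (h1 : ∀ p ∈ K', p.2 ∈ S)
    (h2 : ∀ p ∈ K', Clean S p.1) (h : BT) :
    (path K h).dec S = (K' ++ (h.dec S).1, (h.dec S).2) := by
  induction hop with
  | nil => simp [path]
  | keep t k _ ih =>
    have a1 : k ∈ S := h1 (t, k) (by simp)
    have a2 : Clean S t := h2 (t, k) (by simp)
    have ih' := ih (fun p hp => h1 p (by simp [hp])) (fun p hp => h2 p (by simp [hp]))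
    simp [path, dec, a1, dec_clean a2, ih']
  | opn h' j t k _ ih =>
    have a1 : k ∈ S := h1 (t, k) (by simp)
    have a2 : Clean S t := h2 (t, k) (by simp)
    have b1 : j ∈ S := h1 (h', j) (by simp)
    have b2 : Clean S h' := h2 (h', j) (by simp)
    have ih' := ih (fun p hp => h1 p (by simp [hp])) (fun p hp => h2 p (by simp [hp]))
    simp [path, dec, a1, b1, dec_clean a2, dec_clean b2, ih']

lemma conn_path {S : Finset ℕ} {K K' O} (hop : Op K K' O) (h1 : ∀ p ∈ K', p.2 ∈ S)
    (h2 : ∀ p ∈ K', Clean S p.1) (h : BT) (hh : Clean S h) : (path K h).Conn S := by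
  induction hop with
  | nil => simpa [path] using conn_clean hh
  | keep t k _ ih =>
    have ih' := ih (fun p hp => h1 p (by simp [hp])) (fun p hp => h2 p (by simp [hp]))
    exact Or.inl ⟨h1 (t, k) (by simp), conn_clean (h2 (t, k) (by simp)), ih'⟩
  | opn h' j t k _ ih =>
    have ih' := ih (fun p hp => h1 p (by simp [hp])) (fun p hp => h2 p (by simp [hp]))
    exact Or.inl ⟨h1 (t, k) (by simp), Or.inl ⟨h1 (h', j) (by simp),
      conn_clean (h2 (h', j) (by simp)), conn_clean (h2 (t, k) (by simp))⟩, ih'⟩

lemma mem_ptrs {t : BT} {b : Bool} {k j : ℕ} (h : (b, k, j) ∈ t.ptrs) :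
    k ∈ t.inorder ∧ j ∈ t.inorder := by
  induction t with
  | nil => simp [ptrs] at h
  | node l a r ihl ihr =>
    simp only [ptrs, Finset.mem_union] at h
    have hlink : ∀ (b' : Bool) (s : BT), (b, k, j) ∈ link b' a s → k = a ∧ j ∈ s.inorder := by
      intro b' s hs
      cases s with
      | nil => simp [link] at hs
      | node l' c r' =>
        simp only [link, Finset.mem_singleton, Prod.mk.injEq] at hs
        obtain ⟨_, rfl, rfl⟩ := hs
        exact ⟨rfl, by simp [inorder]⟩
    rcases h with ((h | h) | h) | h
    · obtain ⟨rfl, hj⟩ := hlink _ _ h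
      simp [inorder, hj]
    · obtain ⟨rfl, hj⟩ := hlink _ _ h
      simp [inorder, hj]
    · have := ihl h; simp [inorder, this.1, this.2]
    · have := ihr h; simp [inorder, this.1, this.2]

lemma ptr_root {L : List (BT × ℕ)} {h t : BT} {k j : ℕ} (hn : (path L h).inorder.Nodup)
    (hm : (t, k) ∈ L) (hp : (false, k, j) ∈ (path L h).ptrs) : (false, k, j) ∈ link false k t := by
  induction L with
  | nil => simp at hm
  | cons p L ih =>
    obtain ⟨t₁, k₁⟩ := p
    simp only [path, inorder] at hn
    have hn' := List.nodup_append.1 hn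
    have hn2 := List.nodup_cons.1 hn'.2.1
    simp only [path, ptrs, Finset.mem_union] at hp
    rcases List.mem_cons.1 hm with heq | hm'
    · obtain ⟨rfl, rfl⟩ := Prod.mk.injEq .. ▸ heq
      rcases hp with ((hp | hp) | hp) | hp
      · exact hp
      · exfalso
        generalize path L h = s at hp
        cases s <;> simp [link] at hp
      · exact absurd rfl (hn'.2.2 _ (mem_ptrs hp).1 _ (by simp))
      · exact absurd (mem_ptrs hp).1 hn2.1
    · have hk : k ∈ (path L h).inorder := by
        rw [inorder_path]
        refine List.mem_append_left _ ?_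
        simp only [ios, List.mem_flatMap]
        exact ⟨(t, k), hm', by simp⟩
      have hne : k ≠ k₁ := fun e => hn2.1 (e ▸ hk)
      have hlink : ∀ (b' : Bool) (s : BT), (false, k, j) ∉ link b' k₁ s := by
        intro b' s hs
        cases s with
        | nil => simp [link] at hs
        | node l' c r' =>
          simp only [link, Finset.mem_singleton, Prod.mk.injEq] at hs
          exact hne hs.2.1
      rcases hp with ((hp | hp) | hp) | hp
      · exact absurd hp (hlink _ _)
      · exact absurd hp (hlink _ _)
      · exact absurd rfl (hn'.2.2 _ (mem_ptrs hp).1 _ (List.mem_cons_of_mem _ hk))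
      · exact ih hn2.2 hm' hp

lemma mem_ptrs_path {L : List (BT × ℕ)} {h t : BT} {k : ℕ} (hm : (t, k) ∈ L)
    {q : Bool × ℕ × ℕ} (hq : q ∈ link false k t) : q ∈ (path L h).ptrs := by
  induction L with
  | nil => simp at hm
  | cons p L ih =>
    obtain ⟨t₁, k₁⟩ := p
    simp only [path, ptrs, Finset.mem_union]
    rcases List.mem_cons.1 hm with heq | hm'
    · obtain ⟨rfl, rfl⟩ := Prod.mk.injEq .. ▸ heq
      exact Or.inl (Or.inl (Or.inl hq))
    · exact Or.inr (ih hm')

/-- Facts about an opened root. -/
lemma Op.mem_opened {K K' O} (h : Op K K' O) {o : ℕ} (ho : o ∈ O) :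
    ∃ h' j t, (node h' j t, o) ∈ K ∧ (t, o) ∈ K' := by
  induction h with
  | nil => simp at ho
  | keep t k _ ih =>
    obtain ⟨h', j, t', a, b⟩ := ih ho
    exact ⟨h', j, t', by simp [a], by simp [b]⟩
  | opn h'' j' t'' k _ ih =>
    rcases List.mem_cons.1 ho with rfl | ho'
    · exact ⟨h'', j', t'', by simp, by simp⟩
    · obtain ⟨h', j, t', a, b⟩ := ih ho'
      exact ⟨h', j, t', by simp [a], by simp [b]⟩

lemma Op.opened_sublist {K K' O} (h : Op K K' O) : O.Sublist (ios K) := by
  induction h with
  | nil => simp
  | @keep K K' O t k _ ih =>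
    rw [ios_cons]
    exact (ih.trans (List.sublist_cons_self _ _)).trans (List.sublist_append_right _ _)
  | @opn K K' O h' j t k _ ih =>
    rw [ios_cons]
    exact (ih.cons_cons k).trans (List.sublist_append_right _ _)

/-- One flarb, described on lists of roots. -/
def RStep (Q Q' : List (BT × ℕ)) (r : ℕ) (O : List ℕ) : Prop :=
  ∃ K W K', Q = K ++ W ∧ Op K K' O ∧ Q' = K' ++ [(path W nil, r)]

lemma RStep.prepend {Q Q' r O P P' O'} (h : RStep Q Q' r O) (h' : Op P P' O') :
    RStep (P ++ Q) (P' ++ Q') r (O' ++ O) := by
  obtain ⟨K, W, K', rfl, hop, rfl⟩ := h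
  exact ⟨P ++ K, W, P' ++ K', by simp, hop.append h', by simp⟩

lemma changes_ge {K K' W O} {r : ℕ} (hop : Op K K' O)
    (hn : (path (K' ++ [(path W nil, r)]) nil).inorder.Nodup)
    (hn2 : (path (K ++ W) nil).inorder.Nodup) :
    O.length ≤ changes (path (K ++ W) nil) (path (K' ++ [(path W nil, r)]) nil) := by
  classical
  have hOn : O.Nodup := by
    rw [inorder_path, ios_append] at hn2
    exact (List.Sublist.nodup (hop.opened_sublist)
      (List.nodup_append.1 (List.nodup_append.1 hn2).1).1)
  rw [← List.toFinset_card_of_nodup hOn]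
  have hex : ∀ o ∈ O.toFinset, ∃ q : Bool × ℕ × ℕ, q.2.1 = o ∧
      q ∈ symmDiff (path (K ++ W) nil).ptrs (path (K' ++ [(path W nil, r)]) nil).ptrs := by
    intro o ho
    obtain ⟨h', j, t, hm, hm'⟩ := hop.mem_opened (List.mem_toFinset.1 ho)
    refine ⟨(false, o, j), rfl, ?_⟩
    rw [Finset.mem_symmDiff]
    left
    constructor
    · exact mem_ptrs_path (List.mem_append_left _ hm) (by simp [link])
    · intro hq
      have hq' := ptr_root hn (List.mem_append_left _ hm') hq
      have hj : j ∈ t.inorder := by
        cases t with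
        | nil => simp [link] at hq'
        | node l c r' =>
          simp only [link, Finset.mem_singleton, Prod.mk.injEq, true_and] at hq'
          simp [inorder, hq']
      rw [inorder_path, ios_append] at hn2
      have hK := (List.nodup_append.1 (List.nodup_append.1 hn2).1).1
      have hin : (node h' j t).inorder.Nodup := by
        have hsub : ((node h' j t).inorder).Sublist (ios K) := by
          obtain ⟨A, B, hAB⟩ := List.append_of_mem hm
          rw [hAB, ios_append, ios_cons]
          exact (List.sublist_append_left _ _).trans (List.sublist_append_right _ _)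
        exact hK.sublist hsub
      simp only [inorder] at hin
      exact (List.nodup_cons.1 (List.nodup_append.1 hin).2.1).1 hj
  choose! f hf1 hf2 using hex
  refine Finset.card_le_card_of_injOn f (fun o ho => hf2 o ho) ?_
  intro a ha b hb hab
  rw [← hf1 a ha, ← hf1 b hb, hab]

/-- A step on lists of roots is a flarb with at least as many changes as opened roots. -/
lemma flarb_step {K K' W O} {r : ℕ} (hop : Op K K' O) (hK : K ≠ [])
    (hn : (ios (K ++ W) ++ [r]).Nodup) :
    ∃ S : Finset ℕ, (path (K ++ W) nil).Anchored S ∧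
      path (K' ++ [(path W nil, r)]) nil = flarb S (path (K ++ W) nil) r ∧
      O.length ≤ changes (path (K ++ W) nil) (path (K' ++ [(path W nil, r)]) nil) := by
  classical
  have hn2 : (path (K ++ W) nil).inorder.Nodup := by
    rw [inorder_path]; simpa [inorder] using (List.nodup_append.1 hn).1
  have hn1 : (path (K' ++ [(path W nil, r)]) nil).inorder.Nodup := by
    rw [inorder_path]
    simpa [inorder, hop.ios_eq, inorder_path] using hn
  have hnK : (ios K').Nodup := by
    rw [hop.ios_eq]
    rw [ios_append] at hn
    exact (List.nodup_append.1 (List.nodup_append.1 hn).1).1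
  set S : Finset ℕ := (K'.map Prod.snd).toFinset with hS
  have hmem : ∀ p ∈ K', p.2 ∈ S := fun p hp => by
    rw [hS, List.mem_toFinset]; exact List.mem_map_of_mem hp
  have hSin : ∀ x ∈ S, x ∈ ios K := by
    intro x hx
    rw [← hop.ios_eq]
    rw [hS, List.mem_toFinset, List.mem_map] at hx
    obtain ⟨p, hp, rfl⟩ := hx
    simp only [ios, List.mem_flatMap]
    exact ⟨p, hp, by simp⟩
  have hr : r ∉ ios (K ++ W) := fun h => by
    exact (List.nodup_append.1 hn).2.2 r h r (by simp) rfl
  have hclean : ∀ p ∈ K', ∀ x ∈ p.1.inorder, x ∉ S := by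
    intro p hp x hx hxS
    rw [hS, List.mem_toFinset, List.mem_map] at hxS
    obtain ⟨p', hp', rfl⟩ := hxS
    obtain ⟨A, B, hAB⟩ := List.append_of_mem hp
    rw [hAB] at hp' hnK
    simp only [ios_append, ios_cons] at hnK
    have n1 := List.nodup_append.1 hnK
    have n2 := List.nodup_append.1 n1.2.1
    rcases List.mem_append.1 hp' with h1 | h1
    · refine n1.2.2 p'.2 ?_ p'.2 ?_ rfl
      · simp only [ios, List.mem_flatMap]; exact ⟨p', h1, by simp⟩
      · exact List.mem_append_left _ hx
    · rcases List.mem_cons.1 h1 with h2 | h2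
      · refine n2.2.2 p'.2 hx p'.2 ?_ rfl
        rw [h2]; simp
      · refine n2.2.2 p'.2 hx p'.2 (List.mem_cons_of_mem _ ?_) rfl
        simp only [ios, List.mem_flatMap]; exact ⟨p', h2, by simp⟩
  have hWclean : Clean S (path W nil) := by
    intro x hx hxS
    rw [inorder_path] at hx
    have hx' : x ∈ ios W := by simpa [inorder] using hx
    rw [ios_append] at hn
    exact (List.nodup_append.1 (List.nodup_append.1 hn).1).2.2 x (hSin x hxS) x hx' rfl
  refine ⟨S, ?_, ?_, changes_ge hop hn1 hn2⟩
  · -- anchored
    refine ⟨fun x hx => ?_, ?_⟩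
    · rw [inorder_path, ios_append]
      exact List.mem_append_left _ (List.mem_append_left _ (hSin x hx))
    · rw [path_append]
      cases hop with
      | nil => exact absurd rfl hK
      | keep t k hop' =>
        exact ⟨hmem (t, k) (by simp), conn_clean (hclean (t, k) (by simp)),
          conn_path hop' (fun p hp => hmem p (by simp [hp])) (fun p hp => hclean p (by simp [hp]))
            _ hWclean⟩
      | opn h' j t k hop' =>
        exact ⟨hmem (t, k) (by simp), Or.inl ⟨hmem (h', j) (by simp),
          conn_clean (hclean (h', j) (by simp)), conn_clean (hclean (t, k) (by simp))⟩,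
          conn_path hop' (fun p hp => hmem p (by simp [hp])) (fun p hp => hclean p (by simp [hp]))
            _ hWclean⟩
  · -- the flarb
    have hcl' : ∀ t : BT, (∀ x ∈ t.inorder, x ∈ ios (K ++ W)) → Clean S t →
        Clean (insert r S) t := by
      intro t ht hc x hx hxS
      rcases Finset.mem_insert.1 hxS with rfl | h
      · exact hr (ht _ hx)
      · exact hc x hx h
    have hd : (path (K ++ W) nil).dec (insert r S) = (K', path W nil) := by
      rw [path_append, dec_path hop (fun p hp => Finset.mem_insert_of_mem (hmem p hp))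
        (fun p hp => hcl' _ (fun x hx => ?_) (hclean p hp))]
      · rw [dec_clean (hcl' _ (fun x hx => ?_) hWclean)]
        · simp
        · rw [inorder_path] at hx
          rw [ios_append]
          exact List.mem_append_right _ (by simpa [inorder] using hx)
      · rw [ios_append, ← hop.ios_eq]
        refine List.mem_append_left _ ?_
        simp only [ios, List.mem_flatMap]
        exact ⟨p, hp, by simp [hx]⟩
    unfold flarb rearrange
    simp [dec, hd]

end Run7.h242.Flarb
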