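import Mathlib

open MeasureTheory Set
open scoped ENNReal NNReal

namespace Run7.h242.Lip

/-- Lebesgue measure on `[0,1]`. -/
noncomputable def leb : Measure ℝ := volume.restrict (Icc (0 : ℝ) 1)

/-- For `U : L^β[0,1] → L^β[0,1]` (possibly nonlinear): `U` maps the functions of `L^β` that lie
in `L^p` into `L^p`, and there `‖U x - U y‖_p ≤ M ‖x - y‖_p`. -/
def LipOn {β : ℝ} (U : Lp ℂ (ENNReal.ofReal β) leb → Lp ℂ (ENNReal.ofReal β) leb)
    (p : ℝ) (M : ℝ≥0) : Prop :=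
  (∀ x : Lp ℂ (ENNReal.ofReal β) leb,
      MemLp x (ENNReal.ofReal p) leb → MemLp (U x) (ENNReal.ofReal p) leb) ∧
  ∀ x y : Lp ℂ (ENNReal.ofReal β) leb,
      MemLp x (ENNReal.ofReal p) leb → MemLp y (ENNReal.ofReal p) leb →
        eLpNorm (fun t => U x t - U y t) (ENNReal.ofReal p) leb ≤
          M * eLpNorm (fun t => x t - y t) (ENNReal.ofReal p) leb

end Run7.h242.Lip
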