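import Mathlib

open MeasureTheory Filter Topology Set
open scoped ENNReal NNReal

namespace Run7.h242.Lip

noncomputable def F (b a l v : ℝ) : ℝ := l ^ b + Real.exp v * (1 - l) ^ a

theorem exists_min {b a : ℝ} (hb : 0 < b) (ha : 0 < a) (v : ℝ) :
    ∃ l ∈ Icc (0 : ℝ) 1, ∀ l' ∈ Icc (0 : ℝ) 1, F b a l v ≤ F b a l' v := by
  have hc : Continuous (fun l : ℝ => F b a l v) := by
    unfold F
    have h1 : Continuous fun l : ℝ => l ^ b := Real.continuous_rpow_const hb.le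
    have h2 : Continuous fun l : ℝ => (1 - l) ^ a :=
      (Real.continuous_rpow_const ha.le).comp (continuous_const.sub continuous_id)
    exact h1.add (continuous_const.mul h2)
  obtain ⟨l, hl, hmin⟩ := (isCompact_Icc (a := (0:ℝ)) (b := 1)).exists_isMinOn
    (nonempty_Icc.2 zero_le_one) hc.continuousOn
  exact ⟨l, hl, fun l' hl' => hmin hl'⟩

open Classical in
noncomputable def L (b a v : ℝ) : ℝ :=
  if h : 0 < b ∧ 0 < a then Classical.choose (exists_min h.1 h.2 v) else 0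

noncomputable def psi (b a v : ℝ) : ℝ := F b a (L b a v) v

section
variable {b a : ℝ} (hb : 0 < b) (ha : 0 < a)
include hb ha

theorem L_mem (v : ℝ) : L b a v ∈ Icc (0 : ℝ) 1 := by
  have h : 0 < b ∧ 0 < a := ⟨hb, ha⟩
  unfold L; rw [dif_pos h]
  exact (Classical.choose_spec (exists_min h.1 h.2 v)).1

theorem psi_le (v l : ℝ) (hl : l ∈ Icc (0 : ℝ) 1) : psi b a v ≤ F b a l v := by
  have h : 0 < b ∧ 0 < a := ⟨hb, ha⟩
  have := (Classical.choose_spec (exists_min h.1 h.2 v)).2 l hl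
  unfold psi L; rw [dif_pos h]
  exact this

theorem L_mono : Monotone (L b a) := by
  intro v v' hvv
  rcases hvv.eq_or_lt with rfl | hlt
  · exact le_rfl
  have h1 := psi_le hb ha v (L b a v') (L_mem hb ha v')
  have h2 := psi_le hb ha v' (L b a v) (L_mem hb ha v)
  unfold psi F at h1 h2
  have he : Real.exp v < Real.exp v' := Real.exp_lt_exp.2 hlt
  have h3 : (Real.exp v' - Real.exp v) * ((1 - L b a v') ^ a - (1 - L b a v) ^ a) ≤ 0 := by
    nlinarith
  have h4 : (1 - L b a v') ^ a ≤ (1 - L b a v) ^ a := by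
    by_contra hcon
    push Not at hcon
    have : 0 < (Real.exp v' - Real.exp v) * ((1 - L b a v') ^ a - (1 - L b a v) ^ a) :=
      mul_pos (sub_pos.2 he) (sub_pos.2 hcon)
    linarith
  have h5 := (Real.rpow_le_rpow_iff (sub_nonneg.2 (L_mem hb ha v').2)
    (sub_nonneg.2 (L_mem hb ha v).2) ha).1 h4
  linarith

theorem measurable_L : Measurable (L b a) := (L_mono hb ha).measurable

theorem measurable_psi : Measurable (psi b a) := by
  unfold psi F
  have := measurable_L hb ha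
  fun_prop

theorem psi_le_one (v : ℝ) : psi b a v ≤ 1 := by
  have := psi_le hb ha v 1 ⟨zero_le_one, le_rfl⟩
  simpa [F, Real.zero_rpow ha.ne'] using this

theorem psi_le_exp (v : ℝ) : psi b a v ≤ Real.exp v := by
  have := psi_le hb ha v 0 ⟨le_rfl, zero_le_one⟩
  simpa [F, Real.zero_rpow hb.ne'] using this

theorem psi_pos (v : ℝ) : 0 < psi b a v := by
  have hL := L_mem hb ha v
  unfold psi F
  rcases hL.1.eq_or_lt with h0 | h0
  · rw [← h0]
    simp only [sub_zero, Real.one_rpow, mul_one]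
    have := Real.exp_pos v
    have h2 : (0 : ℝ) ≤ (0 : ℝ) ^ b := Real.rpow_nonneg le_rfl _
    linarith
  · have h1 : 0 < (L b a v) ^ b := Real.rpow_pos_of_pos h0 _
    have h2 : 0 ≤ Real.exp v * (1 - L b a v) ^ a :=
      mul_nonneg (Real.exp_pos v).le (Real.rpow_nonneg (sub_nonneg.2 hL.2) _)
    linarith

end

/-- `phi b a v u = inf` over splittings of `u` of `u0 ^ b + exp v * u1 ^ a`. -/
noncomputable def phi (b a v u : ℝ) : ℝ := u ^ b * psi b a (v + (a - b) * Real.log u)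

theorem phi_nonneg {b a : ℝ} (hb : 0 < b) (ha : 0 < a) (v u : ℝ) (hu : 0 ≤ u) :
    0 ≤ phi b a v u :=
  mul_nonneg (Real.rpow_nonneg hu _) (psi_pos hb ha _).le

theorem scale {b a : ℝ} {u : ℝ} (hu : 0 < u) (l v : ℝ) (hl : l ∈ Icc (0 : ℝ) 1) :
    u ^ b * F b a l (v + (a - b) * Real.log u) =
      (l * u) ^ b + Real.exp v * ((1 - l) * u) ^ a := by
  unfold F
  rw [Real.mul_rpow hl.1 hu.le, Real.mul_rpow (sub_nonneg.2 hl.2) hu.le, Real.exp_add]
  have h1 : Real.exp ((a - b) * Real.log u) = u ^ a / u ^ b := by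
    rw [mul_comm, ← Real.rpow_def_of_pos hu, Real.rpow_sub hu]
  rw [h1]
  have hub : u ^ b ≠ 0 := (Real.rpow_pos_of_pos hu _).ne'
  field_simp

theorem phi_le {b a : ℝ} (hb : 0 < b) (ha : 0 < a) (v u p q : ℝ) (hu : 0 ≤ u) (hp : 0 ≤ p)
    (hq : 0 ≤ q) (h : u ≤ p + q) : phi b a v u ≤ p ^ b + Real.exp v * q ^ a := by
  rcases hu.eq_or_lt with rfl | hu
  · unfold phi
    rw [Real.zero_rpow hb.ne', zero_mul]
    exact add_nonneg (Real.rpow_nonneg hp _)
      (mul_nonneg (Real.exp_pos v).le (Real.rpow_nonneg hq _))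
  · set l := min (p / u) 1 with hl
    have hl0 : 0 ≤ l := le_min (div_nonneg hp hu.le) zero_le_one
    have hl1 : l ≤ 1 := min_le_right _ _
    have h1 : l * u ≤ p := by
      calc l * u ≤ (p / u) * u := mul_le_mul_of_nonneg_right (min_le_left _ _) hu.le
        _ = p := div_mul_cancel₀ _ hu.ne'
    have h2 : (1 - l) * u ≤ q := by
      rcases le_total (p / u) 1 with h' | h'
      · rw [hl, min_eq_left h', sub_mul, one_mul, div_mul_cancel₀ _ hu.ne']
        linarith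
      · rw [hl, min_eq_right h']
        simpa using hq
    calc phi b a v u ≤ u ^ b * F b a l (v + (a - b) * Real.log u) :=
          mul_le_mul_of_nonneg_left (psi_le hb ha _ l ⟨hl0, hl1⟩) (Real.rpow_nonneg hu.le _)
      _ = (l * u) ^ b + Real.exp v * ((1 - l) * u) ^ a := scale hu l v ⟨hl0, hl1⟩
      _ ≤ p ^ b + Real.exp v * q ^ a := by
          gcongr

theorem phi_eq {b a : ℝ} (hb : 0 < b) (ha : 0 < a) (v u : ℝ) (hu : 0 ≤ u) :
    phi b a v u = (L b a (v + (a - b) * Real.log u) * u) ^ b +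
      Real.exp v * ((1 - L b a (v + (a - b) * Real.log u)) * u) ^ a := by
  rcases hu.eq_or_lt with rfl | hu
  · simp [phi, Real.zero_rpow hb.ne', Real.zero_rpow ha.ne']
  · unfold phi psi
    exact scale hu _ v (L_mem hb ha _)

/-- the constant of the Mellin identity -/
noncomputable def cc (b a s : ℝ) : ℝ≥0∞ :=
  ∫⁻ v : ℝ, ENNReal.ofReal (psi b a v * Real.exp (-s * v))

theorem cc_pos {b a s : ℝ} (hb : 0 < b) (ha : 0 < a) : cc b a s ≠ 0 := by
  unfold cc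
  have hm : Measurable fun v : ℝ => ENNReal.ofReal (psi b a v * Real.exp (-s * v)) := by
    have := measurable_psi hb ha
    fun_prop
  rw [Ne, lintegral_eq_zero_iff hm]
  intro h
  have h2 : ∀ᵐ v : ℝ, False := by
    filter_upwards [h] with v hv
    have h3 : 0 < psi b a v * Real.exp (-s * v) := mul_pos (psi_pos hb ha v) (Real.exp_pos _)
    simp only [Pi.zero_apply, ENNReal.ofReal_eq_zero] at hv
    linarith
  have h3 : (volume : Measure ℝ) = 0 := by
    simp [ae_iff] at h2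
  have h4 : (volume : Measure ℝ) (Icc 0 1) = 1 := by simp
  rw [h3] at h4
  simp at h4

theorem cc_lt_top {b a s : ℝ} (hb : 0 < b) (ha : 0 < a) (hs0 : 0 < s) (hs1 : s < 1) :
    cc b a s ≠ ∞ := by
  unfold cc
  have hI1 : IntegrableOn (fun v : ℝ => Real.exp (-s * v)) (Ioi 0) :=
    exp_neg_integrableOn_Ioi 0 hs0
  have hI2 : IntegrableOn (fun v : ℝ => Real.exp ((1 - s) * v)) (Iic 0) := by
    have := integrableOn_exp_mul_Iic (a := 1 - s) (by linarith) 0
    simpa using this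
  have h1 : ∫⁻ v in Ioi (0:ℝ), ENNReal.ofReal (psi b a v * Real.exp (-s * v)) < ∞ := by
    refine lt_of_le_of_lt (lintegral_mono fun v => ?_) hI1.lintegral_lt_top
    apply ENNReal.ofReal_le_ofReal
    have := psi_le_one hb ha v
    nlinarith [Real.exp_pos (-s * v)]
  have h2 : ∫⁻ v in Iic (0:ℝ), ENNReal.ofReal (psi b a v * Real.exp (-s * v)) < ∞ := by
    refine lt_of_le_of_lt (lintegral_mono fun v => ?_) hI2.lintegral_lt_top
    apply ENNReal.ofReal_le_ofReal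
    have h := psi_le_exp hb ha v
    have h3 : Real.exp ((1 - s) * v) = Real.exp v * Real.exp (-s * v) := by
      rw [← Real.exp_add]; ring_nf
    rw [h3]
    exact mul_le_mul_of_nonneg_right h (Real.exp_pos _).le
  have h3 := lintegral_union_le (μ := (volume : Measure ℝ))
    (fun v : ℝ => ENNReal.ofReal (psi b a v * Real.exp (-s * v))) (Ioi (0:ℝ)) (Iic 0)
  rw [Ioi_union_Iic, setLIntegral_univ] at h3
  exact (lt_of_le_of_lt h3 (ENNReal.add_lt_top.2 ⟨h1, h2⟩)).ne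

theorem mellin {b a s : ℝ} (hb : 0 < b) (ha : 0 < a) (k u : ℝ) (hu : 0 ≤ u)
    (hg : 0 < b + s * (a - b)) :
    ∫⁻ v : ℝ, ENNReal.ofReal (Real.exp (-s * v) * phi b a (v + k) u) =
      ENNReal.ofReal (Real.exp (s * k)) * (ENNReal.ofReal (u ^ (b + s * (a - b))) * cc b a s) := by
  rcases hu.eq_or_lt with rfl | hu
  · have h0 : ∀ v, phi b a v 0 = 0 := fun v => by simp [phi, Real.zero_rpow hb.ne']
    simp [h0, Real.zero_rpow hg.ne']
  set κ := k + (a - b) * Real.log u with hκ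
  have h1 : ∀ v : ℝ, ENNReal.ofReal (Real.exp (-s * v) * phi b a (v + k) u) =
      (fun w : ℝ => ENNReal.ofReal (Real.exp (s * κ) * u ^ b) *
        ENNReal.ofReal (psi b a w * Real.exp (-s * w))) (v + κ) := by
    intro v
    simp only
    rw [← ENNReal.ofReal_mul (by positivity)]
    congr 1
    unfold phi
    have h2 : v + k + (a - b) * Real.log u = v + κ := by rw [hκ]; ring
    rw [h2]
    have h3 : Real.exp (-s * v) = Real.exp (s * κ) * Real.exp (-s * (v + κ)) := by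
      rw [← Real.exp_add]; ring_nf
    rw [h3]; ring
  simp_rw [h1]
  rw [lintegral_add_right_eq_self (μ := (volume : Measure ℝ))
    (fun w : ℝ => ENNReal.ofReal (Real.exp (s * κ) * u ^ b) *
        ENNReal.ofReal (psi b a w * Real.exp (-s * w))) κ]
  rw [lintegral_const_mul]
  · rw [← mul_assoc, ← ENNReal.ofReal_mul (Real.exp_pos _).le]
    unfold cc
    congr 2
    rw [hκ, mul_add, Real.exp_add, Real.rpow_add hu, mul_assoc, mul_comm (u ^ b)]
    congr 2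
    rw [Real.rpow_def_of_pos hu]
    ring_nf
  · have := measurable_psi hb ha
    fun_prop

section key

variable {Ω : Type*} [MeasurableSpace Ω] {μ : Measure Ω}
  {E : Type*} [NormedAddCommGroup E] [NormedSpace ℝ E]

theorem measurable_phi {b a : ℝ} (hb : 0 < b) (ha : 0 < a) :
    Measurable (fun p : ℝ × ℝ => phi b a p.1 p.2) := by
  unfold phi
  have := measurable_psi hb ha
  fun_prop

theorem step {b a : ℝ} (hb : 0 < b) (ha : 0 < a)
    (f g : Ω → E) (hf : StronglyMeasurable f)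
    (hfb : MemLp f (ENNReal.ofReal b) μ)
    {M0 M1 : ℝ} (h0 : 0 < M0) (h1 : 0 < M1)
    (H : ∀ f0 f1 : Ω → E, MemLp f0 (ENNReal.ofReal b) μ → MemLp f1 (ENNReal.ofReal a) μ →
      (∀ ω, f0 ω + f1 ω = f ω) →
      ∃ g0 g1 : Ω → E, (∀ᵐ ω ∂μ, g ω = g0 ω + g1 ω) ∧
        AEStronglyMeasurable g0 μ ∧ AEStronglyMeasurable g1 μ ∧
        ∫⁻ ω, ‖g0 ω‖ₑ ^ b ∂μ ≤ ENNReal.ofReal (M0 ^ b) * ∫⁻ ω, ‖f0 ω‖ₑ ^ b ∂μ ∧
        ∫⁻ ω, ‖g1 ω‖ₑ ^ a ∂μ ≤ ENNReal.ofReal (M1 ^ a) * ∫⁻ ω, ‖f1 ω‖ₑ ^ a ∂μ) (v : ℝ) :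
    ∫⁻ ω, ENNReal.ofReal (phi b a v ‖g ω‖) ∂μ ≤ ENNReal.ofReal (M0 ^ b) *
      ∫⁻ ω, ENNReal.ofReal (phi b a (v + (a * Real.log M1 - b * Real.log M0)) ‖f ω‖) ∂μ := by
  set k := a * Real.log M1 - b * Real.log M0 with hk
  have hek : Real.exp k * M0 ^ b = M1 ^ a := by
    rw [hk, Real.exp_sub, mul_comm a, mul_comm b, ← Real.rpow_def_of_pos h0,
      ← Real.rpow_def_of_pos h1]
    have : M0 ^ b ≠ 0 := (Real.rpow_pos_of_pos h0 _).ne'
    field_simp
  set l : Ω → ℝ := fun ω => L b a (v + k + (a - b) * Real.log ‖f ω‖) with hl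
  have hlm : Measurable l := by
    have h2 := measurable_L hb ha
    have h3 : Measurable fun ω => ‖f ω‖ := hf.norm.measurable
    fun_prop
  have hl01 : ∀ ω, l ω ∈ Icc (0 : ℝ) 1 := fun ω => L_mem hb ha _
  set f0 : Ω → E := fun ω => l ω • f ω with hf0
  set f1 : Ω → E := fun ω => (1 - l ω) • f ω with hf1
  have hf0m : StronglyMeasurable f0 := hlm.stronglyMeasurable.smul hf
  have hf1m : StronglyMeasurable f1 := (hlm.const_sub 1).stronglyMeasurable.smul hf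
  have hn0 : ∀ ω, ‖f0 ω‖ = l ω * ‖f ω‖ := fun ω => by
    rw [hf0]; simp only; rw [norm_smul, Real.norm_of_nonneg (hl01 ω).1]
  have hn1 : ∀ ω, ‖f1 ω‖ = (1 - l ω) * ‖f ω‖ := fun ω => by
    rw [hf1]; simp only; rw [norm_smul, Real.norm_of_nonneg (sub_nonneg.2 (hl01 ω).2)]
  have he : ∀ (x : E) (p : ℝ), 0 < p → ‖x‖ₑ ^ p = ENNReal.ofReal (‖x‖ ^ p) := fun x p hp => by
    rw [← ofReal_norm, ENNReal.ofReal_rpow_of_nonneg (norm_nonneg _) hp.le]
  have hphi : ∀ ω, ENNReal.ofReal (phi b a (v + k) ‖f ω‖) =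
      ‖f0 ω‖ₑ ^ b + ENNReal.ofReal (Real.exp (v + k)) * ‖f1 ω‖ₑ ^ a := by
    intro ω
    rw [he _ _ hb, he _ _ ha, ← ENNReal.ofReal_mul (Real.exp_pos _).le, ← ENNReal.ofReal_add]
    · rw [phi_eq hb ha _ _ (norm_nonneg _), hn0, hn1]
    · exact Real.rpow_nonneg (norm_nonneg _) _
    · exact mul_nonneg (Real.exp_pos _).le (Real.rpow_nonneg (norm_nonneg _) _)
  have hb' : ENNReal.ofReal b ≠ 0 := by simpa using hb
  have ha' : ENNReal.ofReal a ≠ 0 := by simpa using ha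
  have hfin : ∫⁻ ω, ‖f ω‖ₑ ^ b ∂μ < ∞ := by
    have := (eLpNorm_lt_top_iff_lintegral_rpow_enorm_lt_top hb' ENNReal.ofReal_ne_top).1 hfb.2
    simpa [ENNReal.toReal_ofReal hb.le] using this
  have hf0b : MemLp f0 (ENNReal.ofReal b) μ := by
    refine hfb.mono hf0m.aestronglyMeasurable (Eventually.of_forall fun ω => ?_)
    rw [hn0]
    exact mul_le_of_le_one_left (norm_nonneg _) (hl01 ω).2
  have hf1a : MemLp f1 (ENNReal.ofReal a) μ := by
    refine ⟨hf1m.aestronglyMeasurable, ?_⟩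
    rw [eLpNorm_lt_top_iff_lintegral_rpow_enorm_lt_top ha' ENNReal.ofReal_ne_top,
      ENNReal.toReal_ofReal ha.le]
    have h2 : ∀ ω, ENNReal.ofReal (Real.exp (v + k)) * ‖f1 ω‖ₑ ^ a ≤ ‖f ω‖ₑ ^ b := by
      intro ω
      calc ENNReal.ofReal (Real.exp (v + k)) * ‖f1 ω‖ₑ ^ a
          ≤ ‖f0 ω‖ₑ ^ b + ENNReal.ofReal (Real.exp (v + k)) * ‖f1 ω‖ₑ ^ a := le_add_self
        _ = ENNReal.ofReal (phi b a (v + k) ‖f ω‖) := (hphi ω).symm
        _ ≤ ENNReal.ofReal (‖f ω‖ ^ b) := by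
            apply ENNReal.ofReal_le_ofReal
            unfold phi
            exact mul_le_of_le_one_right (Real.rpow_nonneg (norm_nonneg _) _)
              (psi_le_one hb ha _)
        _ = ‖f ω‖ₑ ^ b := (he _ _ hb).symm
    have h3 : ENNReal.ofReal (Real.exp (v + k)) * ∫⁻ ω, ‖f1 ω‖ₑ ^ a ∂μ < ∞ := by
      rw [← lintegral_const_mul _ (hf1m.enorm.pow_const a)]
      exact lt_of_le_of_lt (lintegral_mono h2) hfin
    have h4 : ENNReal.ofReal (Real.exp (v + k)) ≠ 0 := by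
      simpa using Real.exp_pos (v + k)
    by_contra hcon
    rw [not_lt, top_le_iff] at hcon
    rw [hcon, ENNReal.mul_top h4] at h3
    exact lt_irrefl _ h3
  obtain ⟨g0, g1, hgg, hg0m, hg1m, hg0, hg1⟩ := H f0 f1 hf0b hf1a (fun ω => by
    simp only [hf0, hf1]; rw [← add_smul]; simp)
  calc ∫⁻ ω, ENNReal.ofReal (phi b a v ‖g ω‖) ∂μ
      ≤ ∫⁻ ω, (‖g0 ω‖ₑ ^ b + ENNReal.ofReal (Real.exp v) * ‖g1 ω‖ₑ ^ a) ∂μ := by
        apply lintegral_mono_ae
        filter_upwards [hgg] with ω hω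
        rw [he _ _ hb, he _ _ ha, ← ENNReal.ofReal_mul (Real.exp_pos _).le, ← ENNReal.ofReal_add]
        · apply ENNReal.ofReal_le_ofReal
          exact phi_le hb ha _ _ _ _ (norm_nonneg _) (norm_nonneg _) (norm_nonneg _)
            (by rw [hω]; exact norm_add_le _ _)
        · exact Real.rpow_nonneg (norm_nonneg _) _
        · exact mul_nonneg (Real.exp_pos _).le (Real.rpow_nonneg (norm_nonneg _) _)
    _ = ∫⁻ ω, ‖g0 ω‖ₑ ^ b ∂μ + ENNReal.ofReal (Real.exp v) * ∫⁻ ω, ‖g1 ω‖ₑ ^ a ∂μ := by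
        rw [lintegral_add_left' (hg0m.enorm.pow_const b),
          lintegral_const_mul'' _ (hg1m.enorm.pow_const a)]
    _ ≤ ENNReal.ofReal (M0 ^ b) * ∫⁻ ω, ‖f0 ω‖ₑ ^ b ∂μ +
        ENNReal.ofReal (Real.exp v) * (ENNReal.ofReal (M1 ^ a) * ∫⁻ ω, ‖f1 ω‖ₑ ^ a ∂μ) := by
        gcongr
    _ = ENNReal.ofReal (M0 ^ b) * (∫⁻ ω, ‖f0 ω‖ₑ ^ b ∂μ +
        ENNReal.ofReal (Real.exp (v + k)) * ∫⁻ ω, ‖f1 ω‖ₑ ^ a ∂μ) := by
        rw [mul_add, ← mul_assoc, ← mul_assoc, ← hek, ← ENNReal.ofReal_mul (Real.exp_pos _).le,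
          ← ENNReal.ofReal_mul (Real.rpow_nonneg h0.le _), Real.exp_add]
        congr 3
        ring
    _ = ENNReal.ofReal (M0 ^ b) * ∫⁻ ω, ENNReal.ofReal (phi b a (v + k) ‖f ω‖) ∂μ := by
        congr 1
        simp_rw [hphi]
        rw [lintegral_add_left (hf0m.enorm.pow_const b),
          lintegral_const_mul _ (hf1m.enorm.pow_const a)]

theorem key [SFinite μ] {b a s : ℝ} (hb : 0 < b) (ha : 0 < a) (hs0 : 0 < s) (hs1 : s < 1)
    (hg' : 0 < b + s * (a - b))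
    (f g : Ω → E) (hf : StronglyMeasurable f) (hg : StronglyMeasurable g)
    (hfb : MemLp f (ENNReal.ofReal b) μ)
    {M0 M1 : ℝ} (h0 : 0 < M0) (h1 : 0 < M1)
    (H : ∀ f0 f1 : Ω → E, MemLp f0 (ENNReal.ofReal b) μ → MemLp f1 (ENNReal.ofReal a) μ →
      (∀ ω, f0 ω + f1 ω = f ω) →
      ∃ g0 g1 : Ω → E, (∀ᵐ ω ∂μ, g ω = g0 ω + g1 ω) ∧
        AEStronglyMeasurable g0 μ ∧ AEStronglyMeasurable g1 μ ∧
        ∫⁻ ω, ‖g0 ω‖ₑ ^ b ∂μ ≤ ENNReal.ofReal (M0 ^ b) * ∫⁻ ω, ‖f0 ω‖ₑ ^ b ∂μ ∧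
        ∫⁻ ω, ‖g1 ω‖ₑ ^ a ∂μ ≤ ENNReal.ofReal (M1 ^ a) * ∫⁻ ω, ‖f1 ω‖ₑ ^ a ∂μ) :
    ∫⁻ ω, ‖g ω‖ₑ ^ (b + s * (a - b)) ∂μ ≤
      ENNReal.ofReal (M0 ^ b * Real.exp (s * (a * Real.log M1 - b * Real.log M0))) *
        ∫⁻ ω, ‖f ω‖ₑ ^ (b + s * (a - b)) ∂μ := by
  set k := a * Real.log M1 - b * Real.log M0 with hk
  have he : ∀ (x : E) (p : ℝ), 0 < p → ‖x‖ₑ ^ p = ENNReal.ofReal (‖x‖ ^ p) := fun x p hp => by
    rw [← ofReal_norm, ENNReal.ofReal_rpow_of_nonneg (norm_nonneg _) hp.le]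
  have hphim := measurable_phi hb ha
  -- the mixed integral
  have swap : ∀ (h : Ω → E) (r : ℝ), StronglyMeasurable h →
      ∫⁻ v : ℝ, ENNReal.ofReal (Real.exp (-s * v)) *
        ∫⁻ ω, ENNReal.ofReal (phi b a (v + r) ‖h ω‖) ∂μ =
      ENNReal.ofReal (Real.exp (s * r)) * cc b a s * ∫⁻ ω, ‖h ω‖ₑ ^ (b + s * (a - b)) ∂μ := by
    intro h r hh
    have hh' : Measurable fun ω => ‖h ω‖ := hh.norm.measurable
    have m1 : ∀ v : ℝ, Measurable fun ω => ENNReal.ofReal (phi b a (v + r) ‖h ω‖) := by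
      intro v
      exact (hphim.comp (measurable_const.prodMk hh')).ennreal_ofReal
    calc ∫⁻ v : ℝ, ENNReal.ofReal (Real.exp (-s * v)) *
        ∫⁻ ω, ENNReal.ofReal (phi b a (v + r) ‖h ω‖) ∂μ
        = ∫⁻ v : ℝ, ∫⁻ ω, ENNReal.ofReal (Real.exp (-s * v) * phi b a (v + r) ‖h ω‖) ∂μ := by
          apply lintegral_congr
          intro v
          rw [← lintegral_const_mul _ (m1 v)]
          apply lintegral_congr
          intro ω
          rw [ENNReal.ofReal_mul (Real.exp_pos _).le]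
      _ = ∫⁻ ω, (∫⁻ v : ℝ, ENNReal.ofReal (Real.exp (-s * v) * phi b a (v + r) ‖h ω‖)) ∂μ := by
          apply lintegral_lintegral_swap
          apply Measurable.aemeasurable
          apply Measurable.ennreal_ofReal
          apply Measurable.mul
          · fun_prop
          · exact hphim.comp ((measurable_fst.add_const r).prodMk (hh'.comp measurable_snd))
      _ = ∫⁻ ω, ENNReal.ofReal (Real.exp (s * r)) * cc b a s * ‖h ω‖ₑ ^ (b + s * (a - b)) ∂μ := by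
          apply lintegral_congr
          intro ω
          rw [mellin hb ha r ‖h ω‖ (norm_nonneg _) hg', he _ _ hg']
          ring
      _ = _ := by
          rw [lintegral_const_mul _ (hh.enorm.pow_const _)]
  have hmain : cc b a s * ∫⁻ ω, ‖g ω‖ₑ ^ (b + s * (a - b)) ∂μ ≤
      cc b a s * (ENNReal.ofReal (M0 ^ b * Real.exp (s * k)) *
        ∫⁻ ω, ‖f ω‖ₑ ^ (b + s * (a - b)) ∂μ) := by
    have e1 := swap g 0 hg
    have e2 := swap f k hf
    simp only [add_zero, mul_zero, Real.exp_zero, ENNReal.ofReal_one, one_mul] at e1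
    rw [← e1]
    calc ∫⁻ v : ℝ, ENNReal.ofReal (Real.exp (-s * v)) *
        ∫⁻ ω, ENNReal.ofReal (phi b a v ‖g ω‖) ∂μ
        ≤ ∫⁻ v : ℝ, ENNReal.ofReal (M0 ^ b) * (ENNReal.ofReal (Real.exp (-s * v)) *
          ∫⁻ ω, ENNReal.ofReal (phi b a (v + k) ‖f ω‖) ∂μ) := by
          apply lintegral_mono
          intro v
          calc ENNReal.ofReal (Real.exp (-s * v)) * ∫⁻ ω, ENNReal.ofReal (phi b a v ‖g ω‖) ∂μ
              ≤ ENNReal.ofReal (Real.exp (-s * v)) * (ENNReal.ofReal (M0 ^ b) *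
                ∫⁻ ω, ENNReal.ofReal (phi b a (v + k) ‖f ω‖) ∂μ) := by
                gcongr
                exact step hb ha f g hf hfb h0 h1 H v
            _ = _ := by ring
      _ = ENNReal.ofReal (M0 ^ b) * ∫⁻ v : ℝ, (ENNReal.ofReal (Real.exp (-s * v)) *
          ∫⁻ ω, ENNReal.ofReal (phi b a (v + k) ‖f ω‖) ∂μ) := by
          rw [lintegral_const_mul' _ _ ENNReal.ofReal_ne_top]
      _ = _ := by
          rw [e2, ENNReal.ofReal_mul (Real.rpow_nonneg h0.le _)]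
          ring
  exact (ENNReal.mul_le_mul_iff_right (cc_pos hb ha) (cc_lt_top hb ha hs0 hs1)).1 hmain

end key

end Run7.h242.Lip
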