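import Pool.Agent.Run7.h242.LipKey
import Pool.Agent.Run7.h242.LipDefs

open MeasureTheory Filter Topology Set
open scoped ENNReal NNReal

namespace Run7.h242.Lip

instance : IsFiniteMeasure leb := by unfold leb; infer_instance

theorem eL {β : ℝ} (x y : Lp ℂ (ENNReal.ofReal β) leb) (p : ℝ≥0∞) :
    eLpNorm (x - y : Lp ℂ (ENNReal.ofReal β) leb) p leb = eLpNorm (fun t => x t - y t) p leb :=
  eLpNorm_congr_ae (Lp.coeFn_sub _ _)

section
variable {β α : ℝ} [hβ : Fact (1 ≤ ENNReal.ofReal β)]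
  {U : Lp ℂ (ENNReal.ofReal β) leb → Lp ℂ (ENNReal.ofReal β) leb}

theorem edist_eq' (x y : Lp ℂ (ENNReal.ofReal β) leb) :
    edist x y = eLpNorm (fun t => x t - y t) (ENNReal.ofReal β) leb := by
  rw [Lp.edist_def]; rfl

theorem cont {M0 : ℝ≥0} (h : LipOn U β M0) : Continuous U := by
  have : LipschitzWith M0 U := by
    intro x y
    rw [edist_eq', edist_eq']
    exact h.2 x y (Lp.memLp x) (Lp.memLp y)
  exact this.continuous

theorem exists_approx (y : Lp ℂ (ENNReal.ofReal β) leb) :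
    ∃ z : ℕ → Lp ℂ (ENNReal.ofReal β) leb, Tendsto z atTop (𝓝 y) ∧
      ∀ n p, MemLp (z n) p leb := by
  have hd := Lp.simpleFunc.denseRange (E := ℂ) (μ := leb) (p := ENNReal.ofReal β)
    ENNReal.ofReal_ne_top
  have hy := hd y
  rw [mem_closure_iff_seq_limit] at hy
  obtain ⟨z, hz, hlim⟩ := hy
  refine ⟨z, hlim, fun n p => ?_⟩
  obtain ⟨w, hw⟩ := hz n
  rw [← hw]
  exact ((Lp.simpleFunc.toSimpleFunc w).memLp_of_isFiniteMeasure p leb).ae_eq
    (Lp.simpleFunc.toSimpleFunc_eq_toFun w)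

theorem shift {M0 M1 : ℝ≥0} (h0 : LipOn U β M0) (h1 : LipOn U α M1)
    (y a : Lp ℂ (ENNReal.ofReal β) leb) (ha : MemLp a (ENNReal.ofReal α) leb) :
    eLpNorm (fun t => U (y + a) t - U y t) (ENNReal.ofReal α) leb ≤
      M1 * eLpNorm a (ENNReal.ofReal α) leb := by
  obtain ⟨z, hz, hzm⟩ := exists_approx y
  have hc := cont h0
  have hlim : Tendsto (fun n => U (z n + a) - U (z n)) atTop (𝓝 (U (y + a) - U y)) := by
    have e1 : Tendsto (fun n => U (z n + a)) atTop (𝓝 (U (y + a))) :=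
      (hc.tendsto _).comp (hz.add_const a)
    have e2 : Tendsto (fun n => U (z n)) atTop (𝓝 (U y)) := (hc.tendsto _).comp hz
    exact e1.sub e2
  have hm := tendstoInMeasure_of_tendsto_Lp hlim
  obtain ⟨ns, -, hns⟩ := hm.exists_seq_tendsto_ae
  have hb : ∀ n, eLpNorm (U (z n + a) - U (z n) : Lp ℂ (ENNReal.ofReal β) leb)
      (ENNReal.ofReal α) leb ≤ M1 * eLpNorm a (ENNReal.ofReal α) leb := by
    intro n
    have hza : MemLp (z n + a : Lp ℂ (ENNReal.ofReal β) leb) (ENNReal.ofReal α) leb :=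
      ((hzm n _).add ha).ae_eq (Lp.coeFn_add _ _).symm
    have h2 := h1.2 (z n + a) (z n) hza (hzm n _)
    have h3 : eLpNorm (fun t => (z n + a : Lp ℂ (ENNReal.ofReal β) leb) t - z n t)
        (ENNReal.ofReal α) leb = eLpNorm a (ENNReal.ofReal α) leb := by
      apply eLpNorm_congr_ae
      filter_upwards [Lp.coeFn_add (z n) a] with t ht
      rw [ht]; simp
    rw [h3] at h2
    refine le_trans (le_of_eq ?_) h2
    exact eLpNorm_congr_ae (Lp.coeFn_sub _ _)
  have hfin := Lp.eLpNorm_le_of_ae_tendsto (p := ENNReal.ofReal α) (μ := leb)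
    (u := atTop) (f := fun i => (U (z (ns i) + a) - U (z (ns i)) : Lp ℂ (ENNReal.ofReal β) leb))
    (g := (U (y + a) - U y : Lp ℂ (ENNReal.ofReal β) leb))
    (Eventually.of_forall fun i => hb (ns i)) (fun i => Lp.aestronglyMeasurable _) hns
  refine le_trans (le_of_eq ?_) hfin
  exact (eLpNorm_congr_ae (Lp.coeFn_sub _ _)).symm

end

theorem lint_le {p : ℝ} (hp : 0 < p) {f g : ℝ → ℂ} {M : ℝ} (hM : 0 < M)
    (h : eLpNorm g (ENNReal.ofReal p) leb ≤ ENNReal.ofReal M * eLpNorm f (ENNReal.ofReal p) leb) :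
    ∫⁻ t, ‖g t‖ₑ ^ p ∂leb ≤ ENNReal.ofReal (M ^ p) * ∫⁻ t, ‖f t‖ₑ ^ p ∂leb := by
  have hp' : ENNReal.ofReal p ≠ 0 := by simpa using hp
  rw [eLpNorm_eq_lintegral_rpow_enorm_toReal hp' ENNReal.ofReal_ne_top,
    eLpNorm_eq_lintegral_rpow_enorm_toReal hp' ENNReal.ofReal_ne_top,
    ENNReal.toReal_ofReal hp.le] at h
  have h2 := ENNReal.rpow_le_rpow h hp.le
  rw [ENNReal.mul_rpow_of_nonneg _ _ hp.le, ← ENNReal.rpow_mul, ← ENNReal.rpow_mul,
    one_div_mul_cancel hp.ne', ENNReal.rpow_one, ENNReal.rpow_one,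
    ENNReal.ofReal_rpow_of_nonneg hM.le hp.le] at h2
  exact h2

theorem of_lint_le {p : ℝ} (hp : 0 < p) {f g : ℝ → ℂ} {K : ℝ} (hK : 0 ≤ K)
    (h : ∫⁻ t, ‖g t‖ₑ ^ p ∂leb ≤ ENNReal.ofReal (K ^ p) * ∫⁻ t, ‖f t‖ₑ ^ p ∂leb) :
    eLpNorm g (ENNReal.ofReal p) leb ≤ ENNReal.ofReal K * eLpNorm f (ENNReal.ofReal p) leb := by
  have hp' : ENNReal.ofReal p ≠ 0 := by simpa using hp
  rw [eLpNorm_eq_lintegral_rpow_enorm_toReal hp' ENNReal.ofReal_ne_top,
    eLpNorm_eq_lintegral_rpow_enorm_toReal hp' ENNReal.ofReal_ne_top,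
    ENNReal.toReal_ofReal hp.le]
  have h2 := ENNReal.rpow_le_rpow h (one_div_nonneg.2 hp.le)
  rw [ENNReal.mul_rpow_of_nonneg _ _ (one_div_nonneg.2 hp.le),
    ENNReal.ofReal_rpow_of_nonneg (Real.rpow_nonneg hK _) (one_div_nonneg.2 hp.le),
    ← Real.rpow_mul hK, mul_one_div_cancel hp.ne', Real.rpow_one] at h2
  exact h2

theorem strict {β γ α θ : ℝ} (h1 : 1 ≤ β) (h2 : β < γ) (h3 : γ < α)
    (hθ : 1 / γ = (1 - θ) / β + θ / α)
    {U : Lp ℂ (ENNReal.ofReal β) leb → Lp ℂ (ENNReal.ofReal β) leb} {M0 M1 : ℝ≥0}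
    (p0 : 0 < M0) (p1 : 0 < M1) (u0 : LipOn U β M0) (u1 : LipOn U α M1)
    (x y : Lp ℂ (ENNReal.ofReal β) leb) :
    eLpNorm (fun t => U x t - U y t) (ENNReal.ofReal γ) leb ≤
      ENNReal.ofReal ((M0 : ℝ) ^ (1 - θ) * (M1 : ℝ) ^ θ) *
        eLpNorm (fun t => x t - y t) (ENNReal.ofReal γ) leb := by
  have : Fact (1 ≤ ENNReal.ofReal β) := ⟨by simpa using h1⟩
  have hb : 0 < β := by linarith
  have hg : 0 < γ := by linarith
  have ha : 0 < α := by linarith
  set s := (γ - β) / (α - β) with hs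
  have hs0 : 0 < s := div_pos (by linarith) (by linarith)
  have hs1 : s < 1 := by rw [hs, div_lt_one (by linarith)]; linarith
  have hsg : β + s * (α - β) = γ := by
    rw [hs, div_mul_cancel₀ _ (by linarith : α - β ≠ 0)]; ring
  have hθs : θ * γ = s * α := by
    have e1 : (α - β) ≠ 0 := by linarith
    have e2 : θ * (1 / β - 1 / α) = 1 / β - 1 / γ := by rw [hθ]; ring
    have e3 : θ * γ * (α - β) = (γ - β) * α := by
      field_simp at e2
      linarith
    rw [hs]; field_simp; linarith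
  have q0 : (0 : ℝ) < M0 := by exact_mod_cast p0
  have q1 : (0 : ℝ) < M1 := by exact_mod_cast p1
  have key' := key (μ := leb) (b := β) (a := α) (s := s) hb ha hs0 hs1 (by rw [hsg]; exact hg)
    (x - y : Lp ℂ (ENNReal.ofReal β) leb) (U x - U y : Lp ℂ (ENNReal.ofReal β) leb)
    (Lp.stronglyMeasurable _) (Lp.stronglyMeasurable _) (Lp.memLp _) q0 q1 ?_
  · rw [hsg] at key'
    have hK : (M0 : ℝ) ^ β * Real.exp (s * (α * Real.log M1 - β * Real.log M0)) =
        ((M0 : ℝ) ^ (1 - θ) * (M1 : ℝ) ^ θ) ^ γ := by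
      rw [Real.rpow_def_of_pos q0, Real.rpow_def_of_pos q0, Real.rpow_def_of_pos q1,
        ← Real.exp_add, ← Real.exp_add, ← Real.exp_mul]
      congr 1
      have e1 : (1 - θ) * γ = β * (1 - s) := by
        have : (1 - θ) * γ = γ - θ * γ := by ring
        rw [this, hθs, ← hsg]; ring
      linear_combination (Real.log M0) * (-e1) - (Real.log M1) * hθs
    rw [hK] at key'
    have h5 := of_lint_le hg (by positivity) key'
    calc eLpNorm (fun t => U x t - U y t) (ENNReal.ofReal γ) leb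
        = eLpNorm (U x - U y : Lp ℂ (ENNReal.ofReal β) leb) (ENNReal.ofReal γ) leb :=
          (eLpNorm_congr_ae (Lp.coeFn_sub _ _)).symm
      _ ≤ _ := h5
      _ = _ := by rw [eLpNorm_congr_ae (Lp.coeFn_sub x y)]; rfl
  · intro f0 f1 hf0 hf1 hsum
    have hle : ENNReal.ofReal β ≤ ENNReal.ofReal α := ENNReal.ofReal_le_ofReal (by linarith)
    have hf1b : MemLp f1 (ENNReal.ofReal β) leb := hf1.mono_exponent hle
    set a1 : Lp ℂ (ENNReal.ofReal β) leb := hf1b.toLp f1 with ha1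
    have ha1c : a1 =ᵐ[leb] f1 := hf1b.coeFn_toLp
    have ha1m : MemLp a1 (ENNReal.ofReal α) leb := hf1.ae_eq ha1c.symm
    refine ⟨(U x - U (y + a1) : Lp ℂ (ENNReal.ofReal β) leb),
      (U (y + a1) - U y : Lp ℂ (ENNReal.ofReal β) leb), ?_, Lp.aestronglyMeasurable _,
      Lp.aestronglyMeasurable _, ?_, ?_⟩
    · filter_upwards [Lp.coeFn_sub (U x) (U y), Lp.coeFn_sub (U x) (U (y + a1)),
        Lp.coeFn_sub (U (y + a1)) (U y)] with t e1 e2 e3
      rw [e1, e2, e3]; simp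
    · apply lint_le hb q0
      have h4 := u0.2 x (y + a1) (Lp.memLp _) (Lp.memLp _)
      rw [eL]
      refine h4.trans ?_
      rw [ENNReal.ofReal_coe_nnreal]
      gcongr
      apply le_of_eq
      apply eLpNorm_congr_ae
      filter_upwards [Lp.coeFn_add y a1, ha1c, Lp.coeFn_sub x y] with t e1 e2 e3
      have := hsum t
      rw [e3] at this
      simp only [Pi.sub_apply] at this
      rw [e1]
      simp only [Pi.add_apply]
      rw [e2]
      linear_combination -this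
    · apply lint_le ha q1
      have h4 := shift u0 u1 y a1 ha1m
      rw [eL]
      refine h4.trans ?_
      rw [ENNReal.ofReal_coe_nnreal, eLpNorm_congr_ae ha1c]

theorem mono {β : ℝ} {U : Lp ℂ (ENNReal.ofReal β) leb → Lp ℂ (ENNReal.ofReal β) leb} {p : ℝ}
    {M M' : ℝ≥0} (h : LipOn U p M) (hM : M ≤ M') : LipOn U p M' :=
  ⟨h.1, fun x y hx hy => (h.2 x y hx hy).trans (by gcongr)⟩

theorem main {β γ α θ : ℝ} (h1 : 1 ≤ β) (h2 : β < γ) (h3 : γ < α)
    (hθ : 1 / γ = (1 - θ) / β + θ / α)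
    {U : Lp ℂ (ENNReal.ofReal β) leb → Lp ℂ (ENNReal.ofReal β) leb} {M0 M1 : ℝ≥0}
    (u0 : LipOn U β M0) (u1 : LipOn U α M1) :
    0 < θ ∧ θ < 1 ∧ LipOn U γ (M0 ^ (1 - θ) * M1 ^ θ) := by
  have hb : 0 < β := by linarith
  have hg : 0 < γ := by linarith
  have ha : 0 < α := by linarith
  have e2 : θ * (1 / β - 1 / α) = 1 / β - 1 / γ := by rw [hθ]; ring
  have e3 : 0 < 1 / β - 1 / γ := sub_pos.2 (one_div_lt_one_div_of_lt hb h2)
  have e4 : 0 < 1 / γ - 1 / α := sub_pos.2 (one_div_lt_one_div_of_lt hg h3)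
  have e5 : 0 < 1 / β - 1 / α := by linarith
  have hθ0 : 0 < θ := by
    by_contra hcon
    push Not at hcon
    nlinarith
  have hθ1 : θ < 1 := by
    by_contra hcon
    push Not at hcon
    nlinarith
  refine ⟨hθ0, hθ1, ?_, ?_⟩
  · intro x hx
    have h0 : MemLp (U 0) (ENNReal.ofReal α) leb := u1.1 0 (by
      exact (MemLp.zero (ε := ℂ)).ae_eq (Lp.coeFn_zero _ _ _).symm)
    have h0' : MemLp (U 0) (ENNReal.ofReal γ) leb :=
      h0.mono_exponent (ENNReal.ofReal_le_ofReal h3.le)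
    have hM0 : M0 ≤ M0 + 1 := le_self_add
    have hM1 : M1 ≤ M1 + 1 := le_self_add
    have h4 := strict h1 h2 h3 hθ (M0 := M0 + 1) (M1 := M1 + 1) (by positivity) (by positivity)
      (mono u0 hM0) (mono u1 hM1) x 0
    have h5 : eLpNorm (fun t => x t - (0 : Lp ℂ (ENNReal.ofReal β) leb) t)
        (ENNReal.ofReal γ) leb = eLpNorm x (ENNReal.ofReal γ) leb := by
      rw [← eL, sub_zero]
    rw [h5] at h4
    have h6 : MemLp (fun t => U x t - U 0 t) (ENNReal.ofReal γ) leb :=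
      ⟨(Lp.aestronglyMeasurable _).sub (Lp.aestronglyMeasurable _),
        lt_of_le_of_lt h4 (ENNReal.mul_lt_top ENNReal.ofReal_lt_top hx.2)⟩
    have h7 := h6.add h0'
    refine h7.ae_eq (Eventually.of_forall fun t => ?_)
    simp
  · intro x y hx hy
    have hxy : MemLp (fun t => x t - y t) (ENNReal.ofReal γ) leb := hx.sub hy
    set N := eLpNorm (fun t => x t - y t) (ENNReal.ofReal γ) leb with hN
    have hNf : N ≠ ∞ := hxy.2.ne
    have hlim : Tendsto (fun n : ℕ => ENNReal.ofReal (((M0 : ℝ) + 1 / ((n : ℝ) + 1)) ^ (1 - θ) *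
        ((M1 : ℝ) + 1 / ((n : ℝ) + 1)) ^ θ) * N) atTop
        (𝓝 (ENNReal.ofReal (((M0 : ℝ) + 0) ^ (1 - θ) * ((M1 : ℝ) + 0) ^ θ) * N)) := by
      apply ENNReal.Tendsto.mul_const _ (Or.inr hNf)
      apply ENNReal.tendsto_ofReal
      apply Tendsto.mul
      · exact (Real.continuousAt_rpow_const _ _ (Or.inr (by linarith))).tendsto.comp
          (tendsto_one_div_add_atTop_nhds_zero_nat.const_add _)
      · exact (Real.continuousAt_rpow_const _ _ (Or.inr hθ0.le)).tendsto.comp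
          (tendsto_one_div_add_atTop_nhds_zero_nat.const_add _)
    have hle : ∀ n : ℕ, eLpNorm (fun t => U x t - U y t) (ENNReal.ofReal γ) leb ≤
        ENNReal.ofReal (((M0 : ℝ) + 1 / ((n : ℝ) + 1)) ^ (1 - θ) *
        ((M1 : ℝ) + 1 / ((n : ℝ) + 1)) ^ θ) * N := by
      intro n
      set d : ℝ≥0 := 1 / ((n : ℝ≥0) + 1) with hd
      have hdpos : 0 < d := by positivity
      have h4 := strict h1 h2 h3 hθ (M0 := M0 + d) (M1 := M1 + d) (by positivity) (by positivity)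
        (mono u0 le_self_add) (mono u1 le_self_add) x y
      rw [← hN] at h4
      refine h4.trans (le_of_eq ?_)
      push_cast [hd]
      rfl
    have hfin := ge_of_tendsto' hlim hle
    refine hfin.trans (le_of_eq ?_)
    rw [add_zero, add_zero]
    congr 1
    rw [← ENNReal.ofReal_coe_nnreal]
    congr 1

theorem geom_le_max {M0 M1 : ℝ≥0} {θ : ℝ} (h0 : 0 < θ) (h1 : θ < 1) :
    M0 ^ (1 - θ) * M1 ^ θ ≤ max M0 M1 := by
  calc M0 ^ (1 - θ) * M1 ^ θ ≤ (max M0 M1) ^ (1 - θ) * (max M0 M1) ^ θ := by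
        have : 0 ≤ 1 - θ := by linarith
        gcongr
        · exact le_max_left _ _
        · exact le_max_right _ _
    _ = max M0 M1 := by
        rw [← NNReal.rpow_add_of_nonneg _ (by linarith) h0.le]
        simp

end Run7.h242.Lip
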