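import Mathlib

/-!
# Elekes type point-line configurations over `ℤ[√2]`

`A k` is the box `{a + b √2 : 0 ≤ a, b < k}`. The main lemma says that a nonconstant real Moebius
map takes at most `2 k` elements of `A k` to integers.
-/

set_option autoImplicit false

open Finset

namespace Run7.h242.ST

/-- the number `a + b √2` -/
noncomputable def ph (q : ℕ × ℕ) : ℝ := (q.1 : ℝ) + (q.2 : ℝ) * √2

lemma ph_inj : Function.Injective ph := by
  rintro ⟨a, b⟩ ⟨c, d⟩ h
  simp only [ph] at h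
  have hirr := irrational_sqrt_two
  have h1 : ((b : ℝ) - d) * √2 = (c : ℝ) - a := by linarith
  by_cases hbd : (b : ℤ) - d = 0
  · have hb : (b : ℤ) = d := by omega
    have hb' : b = d := by exact_mod_cast hb
    subst hb'
    have : (c : ℝ) = a := by
      have h2 : ((b : ℝ) - b) * √2 = 0 := by ring
      linarith
    have hc : c = a := by exact_mod_cast this
    rw [hc]
  · exfalso
    have hne : ((b : ℝ) - d) ≠ 0 := by
      intro h0
      apply hbd
      exact_mod_cast (show (((b : ℤ) - d : ℤ) : ℝ) = 0 by push_cast; exact h0)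
    have h3 : √2 = (((c : ℤ) - a : ℤ) : ℝ) / (((b : ℤ) - d : ℤ) : ℝ) := by
      push_cast
      rw [eq_div_iff hne]
      linarith
    apply hirr
    exact ⟨((c : ℤ) - a : ℤ) / ((b : ℤ) - d : ℤ), by rw [h3]; push_cast; rfl⟩

/-- integer combinations of `1` and `√2` vanish only trivially -/
lemma lin_indep (x y : ℤ) (h : (x : ℝ) + (y : ℝ) * √2 = 0) : x = 0 ∧ y = 0 := by
  have hirr := irrational_sqrt_two
  by_cases hy : y = 0
  · subst hy
    simp at h
    exact ⟨by exact_mod_cast h, rfl⟩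
  · exfalso
    have hne : (y : ℝ) ≠ 0 := by exact_mod_cast hy
    apply hirr
    refine ⟨(-x : ℤ) / (y : ℤ), ?_⟩
    push_cast
    rw [div_eq_iff hne]
    linarith

/-- the box in `ℤ[√2]` -/
noncomputable def A (k : ℕ) : Finset ℝ := (range k ×ˢ range k).image ph

lemma card_A (k : ℕ) : (A k).card = k ^ 2 := by
  rw [A, card_image_of_injective _ ph_inj, card_product, card_range, sq]

lemma mem_A {k : ℕ} {x : ℝ} : x ∈ A k ↔ ∃ a b : ℕ, a < k ∧ b < k ∧ x = (a : ℝ) + (b : ℝ) * √2 := by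
  simp only [A, mem_image, mem_product, mem_range, ph, Prod.exists]
  constructor
  · rintro ⟨a, b, ⟨h1, h2⟩, h3⟩
    exact ⟨a, b, h1, h2, h3.symm⟩
  · rintro ⟨a, b, h1, h2, h3⟩
    exact ⟨a, b, ⟨h1, h2⟩, h3.symm⟩

/-- the key algebraic step: three values at points with the same rational part -/
lemma key {a b c d : ℝ} (hDl : a * d - b * c ≠ 0) (u u' v1 v2 v3 v' q1 q2 q3 q' : ℤ)
    (h12 : v1 ≠ v2) (h13 : v1 ≠ v3) (h23 : v2 ≠ v3) (x1 x2 x3 x' : ℝ)
    (e1 : x1 = u + v1 * √2) (e2 : x2 = u + v2 * √2) (e3 : x3 = u + v3 * √2)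
    (e' : x' = u' + v' * √2)
    (n1 : c * x1 + d ≠ 0) (n2 : c * x2 + d ≠ 0) (n3 : c * x3 + d ≠ 0) (n' : c * x' + d ≠ 0)
    (f1 : a * x1 + b = q1 * (c * x1 + d)) (f2 : a * x2 + b = q2 * (c * x2 + d))
    (f3 : a * x3 + b = q3 * (c * x3 + d)) (f' : a * x' + b = q' * (c * x' + d)) : u' = u := by
  by_contra hu
  have hs2 : (√2 : ℝ) ≠ 0 := by positivity
  -- differences
  have D : ∀ (s t : ℝ) (p q : ℤ), a * s + b = p * (c * s + d) → a * t + b = q * (c * t + d) →
      ((p : ℝ) - q) * ((c * s + d) * (c * t + d)) = (a * d - b * c) * (s - t) := by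
    intro s t p q hs ht
    linear_combination (-(c * t + d)) * hs + (c * s + d) * ht
  have d1 := D x' x1 q' q1 f' f1
  have d2 := D x2 x3 q2 q3 f2 f3
  have d3 := D x' x3 q' q3 f' f3
  have d4 := D x2 x1 q2 q1 f2 f1
  set Dl := a * d - b * c with hD
  -- the cross ratio
  have hPi : (c * x' + d) * (c * x1 + d) * ((c * x2 + d) * (c * x3 + d)) ≠ 0 :=
    mul_ne_zero (mul_ne_zero n' n1) (mul_ne_zero n2 n3)
  have hcr : ((q' : ℝ) - q1) * (q2 - q3) * ((x' - x3) * (x2 - x1)) =
      ((q' : ℝ) - q3) * (q2 - q1) * ((x' - x1) * (x2 - x3)) := by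
    have h1 : (((q' : ℝ) - q1) * (q2 - q3)) *
        ((c * x' + d) * (c * x1 + d) * ((c * x2 + d) * (c * x3 + d))) =
        Dl ^ 2 * ((x' - x1) * (x2 - x3)) := by
      calc _ = (((q' : ℝ) - q1) * ((c * x' + d) * (c * x1 + d))) *
            (((q2 : ℝ) - q3) * ((c * x2 + d) * (c * x3 + d))) := by ring
        _ = _ := by rw [d1, d2]; ring
    have h2 : (((q' : ℝ) - q3) * (q2 - q1)) *
        ((c * x' + d) * (c * x1 + d) * ((c * x2 + d) * (c * x3 + d))) =
        Dl ^ 2 * ((x' - x3) * (x2 - x1)) := by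
      calc _ = (((q' : ℝ) - q3) * ((c * x' + d) * (c * x3 + d))) *
            (((q2 : ℝ) - q1) * ((c * x2 + d) * (c * x1 + d))) := by ring
        _ = _ := by rw [d3, d4]; ring
    apply mul_right_cancel₀ hPi
    apply mul_right_cancel₀ (pow_ne_zero 2 hDl)
    linear_combination ((x' - x3) * (x2 - x1)) * Dl ^ 2 * h1 - ((x' - x1) * (x2 - x3)) * Dl ^ 2 * h2
  -- divide by `√2`
  have g1 : x2 - x1 = ((v2 : ℝ) - v1) * √2 := by rw [e1, e2]; ring
  have g2 : x2 - x3 = ((v2 : ℝ) - v3) * √2 := by rw [e3, e2]; ring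
  rw [g1, g2] at hcr
  have hcr2 : ((q' : ℝ) - q1) * (q2 - q3) * ((x' - x3) * ((v2 : ℝ) - v1)) =
      ((q' : ℝ) - q3) * (q2 - q1) * ((x' - x1) * ((v2 : ℝ) - v3)) := by
    apply mul_right_cancel₀ hs2
    linear_combination hcr
  have g3 : x' - x3 = ((u' : ℝ) - u) + ((v' : ℝ) - v3) * √2 := by rw [e', e3]; ring
  have g4 : x' - x1 = ((u' : ℝ) - u) + ((v' : ℝ) - v1) * √2 := by rw [e', e1]; ring
  rw [g3, g4] at hcr2
  obtain ⟨k1, k2⟩ := lin_indep
    (((q' - q1) * (q2 - q3) * (v2 - v1) - (q' - q3) * (q2 - q1) * (v2 - v3)) * (u' - u))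
    ((q' - q1) * (q2 - q3) * (v2 - v1) * (v' - v3) - (q' - q3) * (q2 - q1) * (v2 - v3) * (v' - v1))
    (by push_cast; linear_combination hcr2)
  have hu0 : u' - u ≠ 0 := sub_ne_zero.2 hu
  have k3 : (q' - q1) * (q2 - q3) * (v2 - v1) = (q' - q3) * (q2 - q1) * (v2 - v3) := by
    rcases mul_eq_zero.1 k1 with h | h
    · linarith
    · exact absurd h hu0
  rw [← k3] at k2
  have k4 : (q' - q1) * (q2 - q3) * (v2 - v1) * (v1 - v3) = 0 := by linear_combination k2
  have hv1 : v1 - v3 ≠ 0 := sub_ne_zero.2 h13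
  have hv2 : v2 - v1 ≠ 0 := sub_ne_zero.2 (Ne.symm h12)
  rcases mul_eq_zero.1 k4 with h | h
  · rcases mul_eq_zero.1 h with h | h
    · rcases mul_eq_zero.1 h with h | h
      · -- `q' = q1`
        have h0 : (q' : ℝ) - q1 = 0 := by exact_mod_cast h
        rw [h0, zero_mul] at d1
        have h5 : x' - x1 = 0 := by
          rcases mul_eq_zero.1 d1.symm with h6 | h6
          · exact absurd h6 hDl
          · exact h6
        rw [g4] at h5
        obtain ⟨h7, -⟩ := lin_indep (u' - u) (v' - v1) (by push_cast; exact h5)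
        exact hu0 h7
      · have h0 : (q2 : ℝ) - q3 = 0 := by exact_mod_cast h
        rw [h0, zero_mul] at d2
        have h5 : x2 - x3 = 0 := by
          rcases mul_eq_zero.1 d2.symm with h6 | h6
          · exact absurd h6 hDl
          · exact h6
        rw [g2] at h5
        rcases mul_eq_zero.1 h5 with h6 | h6
        · apply h23
          have : (v2 : ℝ) = v3 := by linarith
          exact_mod_cast this
        · exact hs2 h6
    · exact hv2 h
  · exact hv1 h

/-- a nonconstant Moebius map takes at most `2 k` elements of `A k` to integers -/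
lemma moebius {a b c d : ℝ} (hDl : a * d - b * c ≠ 0) (k : ℕ) (S : Finset ℝ) (hS : S ⊆ A k)
    (h : ∀ x ∈ S, c * x + d ≠ 0 ∧ ∃ q : ℤ, a * x + b = q * (c * x + d)) : S.card ≤ 2 * k := by
  classical
  set T : Finset (ℕ × ℕ) := (range k ×ˢ range k).filter (fun q => ph q ∈ S) with hT
  have hST : S = T.image ph := by
    ext x
    simp only [hT, mem_image, mem_filter]
    constructor
    · intro hx
      obtain ⟨q, hq, rfl⟩ := mem_image.1 (hS hx)
      exact ⟨q, ⟨hq, hx⟩, rfl⟩
    · rintro ⟨q, ⟨_, hq⟩, rfl⟩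
      exact hq
  have hcard : S.card = T.card := by
    rw [hST, card_image_of_injective _ ph_inj]
  rw [hcard]
  have hTk : ∀ q ∈ T, q.1 < k ∧ q.2 < k ∧ ph q ∈ S := by
    intro q hq
    simp only [hT, mem_filter, mem_product, mem_range] at hq
    exact ⟨hq.1.1, hq.1.2, hq.2⟩
  by_cases hrow : ∀ u ∈ range k, (T.filter (fun q => q.1 = u)).card ≤ 2
  · have h1 : T.card = ∑ u ∈ range k, (T.filter (fun q => q.1 = u)).card :=
      card_eq_sum_card_fiberwise (fun q hq => by
        simp only [coe_range, Set.mem_Iio]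
        exact (hTk q hq).1)
    rw [h1]
    calc ∑ u ∈ range k, (T.filter (fun q => q.1 = u)).card ≤ ∑ _u ∈ range k, 2 := sum_le_sum hrow
      _ = 2 * k := by rw [sum_const, card_range, smul_eq_mul, mul_comm]
  · push Not at hrow
    obtain ⟨u, _, hu3⟩ := hrow
    obtain ⟨p1, m1, p2, m2, p3, m3, n12, n13, n23⟩ := two_lt_card.1 hu3
    simp only [mem_filter] at m1 m2 m3
    have hall : T ⊆ (range k).image (fun v => (u, v)) := by
      intro q hq
      obtain ⟨hq1, hq2, hq3⟩ := hTk q hq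
      obtain ⟨w1, q1, f1⟩ := h _ (hTk _ m1.1).2.2
      obtain ⟨w2, q2, f2⟩ := h _ (hTk _ m2.1).2.2
      obtain ⟨w3, q3, f3⟩ := h _ (hTk _ m3.1).2.2
      obtain ⟨w, q', f'⟩ := h _ hq3
      have c12 : (p1.2 : ℤ) ≠ p2.2 := by
        intro he
        apply n12
        exact Prod.ext (m1.2.trans m2.2.symm) (by exact_mod_cast he)
      have c13 : (p1.2 : ℤ) ≠ p3.2 := by
        intro he
        apply n13
        exact Prod.ext (m1.2.trans m3.2.symm) (by exact_mod_cast he)
      have c23 : (p2.2 : ℤ) ≠ p3.2 := by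
        intro he
        apply n23
        exact Prod.ext (m2.2.trans m3.2.symm) (by exact_mod_cast he)
      have hk := key hDl (u : ℤ) (q.1 : ℤ) p1.2 p2.2 p3.2 q.2 q1 q2 q3 q' c12 c13 c23
        (ph p1) (ph p2) (ph p3) (ph q)
        (by simp only [ph]; rw [m1.2]; push_cast; ring)
        (by simp only [ph]; rw [m2.2]; push_cast; ring)
        (by simp only [ph]; rw [m3.2]; push_cast; ring)
        (by simp only [ph]; push_cast; ring) w1 w2 w3 w f1 f2 f3 f'
      rw [mem_image]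
      refine ⟨q.2, mem_range.2 hq2, ?_⟩
      have : q.1 = u := by exact_mod_cast hk
      rw [← this]
    calc T.card ≤ ((range k).image (fun v => (u, v))).card := card_le_card hall
      _ ≤ (range k).card := card_image_le
      _ ≤ 2 * k := by rw [card_range]; omega

/-- multiplication in the boxes -/
lemma mul_add_mem {r k : ℕ} {α x β : ℝ} (hα : α ∈ A r) (hx : x ∈ A k) (hβ : β ∈ A (r * k)) :
    α * x + β ∈ A (4 * (r * k)) := by
  obtain ⟨a1, b1, ha1, hb1, rfl⟩ := mem_A.1 hα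
  obtain ⟨a, b, ha, hb, rfl⟩ := mem_A.1 hx
  obtain ⟨a2, b2, ha2, hb2, rfl⟩ := mem_A.1 hβ
  refine mem_A.2 ⟨a1 * a + 2 * (b1 * b) + a2, a1 * b + b1 * a + b2, ?_, ?_, ?_⟩
  · have h1 : a1 * a ≤ r * k := Nat.mul_le_mul ha1.le ha.le
    have h2 : b1 * b ≤ r * k := Nat.mul_le_mul hb1.le hb.le
    omega
  · have h1 : a1 * b ≤ r * k := Nat.mul_le_mul ha1.le hb.le
    have h2 : b1 * a ≤ r * k := Nat.mul_le_mul hb1.le ha.le
    omega
  · have hs : √2 * √2 = (2 : ℝ) := Real.mul_self_sqrt (by norm_num)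
    push_cast
    linear_combination ((b1 : ℝ) * b) * hs

end Run7.h242.ST
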