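import Pool.Agent.Run7.h242.STCore

/-!
# Extremal point-line configurations that are far from lattices
-/

set_option autoImplicit false

open Finset

namespace Run7.h242.ST

/-- `l` is a line of the plane. -/
def IsLine (l : Set (ℝ × ℝ)) : Prop :=
  ∃ a b c : ℝ, (a ≠ 0 ∨ b ≠ 0) ∧ l = {p | a * p.1 + b * p.2 = c}

/-- The number of pairs `(p, l)` with `p ∈ P`, `l ∈ L` and `p ∈ l`. -/
noncomputable def incidences (P : Finset (ℝ × ℝ)) (L : Finset (Set (ℝ × ℝ))) : ℕ :=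
  Set.ncard {q : (ℝ × ℝ) × Set (ℝ × ℝ) | q.1 ∈ P ∧ q.2 ∈ L ∧ q.1 ∈ q.2}

/-- The coordinate `i` of the image of the point `(x, y, 1)` under the matrix `M`. -/
def hom (M : Matrix (Fin 3) (Fin 3) ℝ) (i : Fin 3) (p : ℝ × ℝ) : ℝ :=
  M i 0 * p.1 + M i 1 * p.2 + M i 2

/-- Some projective transformation, sending no point of `X` to the line at infinity, maps `X` into
the lattice section `{1,…,a} × {1,…,b}`, for some `a`, `b` with `a b ≤ s`. -/
def InLatticeSection (X : Set (ℝ × ℝ)) (s : ℝ) : Prop :=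
  ∃ M : Matrix (Fin 3) (Fin 3) ℝ, M.det ≠ 0 ∧ (∀ p ∈ X, hom M 2 p ≠ 0) ∧
    ∃ a b : ℕ, (a : ℝ) * b ≤ s ∧ ∀ p ∈ X, ∃ i j : ℕ, 1 ≤ i ∧ i ≤ a ∧ 1 ≤ j ∧ j ≤ b ∧
      (hom M 0 p / hom M 2 p, hom M 1 p / hom M 2 p) = ((i : ℝ), (j : ℝ))

/-- The non-vertical line `y = s x - t` with dual point `(s, t)`. -/
def dualLine (q : ℝ × ℝ) : Set (ℝ × ℝ) := {p | p.2 = q.1 * p.1 - q.2}

/-- Alternative (a): a proportion `c` of the points is projectively contained in a lattice section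
of size at most `C |P|`. -/
def PointsLattice (c C : ℝ) (P : Finset (ℝ × ℝ)) : Prop :=
  ∃ P' ⊆ P, c * P.card ≤ P'.card ∧ InLatticeSection (P' : Set (ℝ × ℝ)) (C * P.card)

/-- Alternative (b): the same for the dual points of non-vertical lines of `L`. -/
def LinesLattice (c C : ℝ) (L : Finset (Set (ℝ × ℝ))) : Prop :=
  ∃ D : Finset (ℝ × ℝ), (∀ q ∈ D, dualLine q ∈ L) ∧ c * L.card ≤ D.card ∧
    InLatticeSection (D : Set (ℝ × ℝ)) (C * L.card)

lemma dualLine_inj : Function.Injective dualLine := by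
  intro p q h
  have h0 : ((0 : ℝ), -p.2) ∈ dualLine p := by simp [dualLine]
  have h1 : ((1 : ℝ), p.1 - p.2) ∈ dualLine p := by simp [dualLine]
  rw [h] at h0 h1
  simp only [dualLine, Set.mem_ofPred_eq] at h0 h1
  apply Prod.ext <;> linarith

lemma isLine_dualLine (q : ℝ × ℝ) : IsLine (dualLine q) := by
  refine ⟨q.1, -1, q.2, Or.inr (by norm_num), ?_⟩
  ext p
  simp only [dualLine, Set.mem_setOf_eq]
  constructor <;> intro h <;> linarith

/-- the points of one row -/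
lemma row_bound (X : Set (ℝ × ℝ)) (s : ℝ) (hX : InLatticeSection X s) (k : ℕ) (y : ℝ)
    (S : Finset ℝ) (hS : S ⊆ A k) (h : ∀ x ∈ S, (x, y) ∈ X) : S.card ≤ 2 * k := by
  obtain ⟨M, hM, hinf, a, b, _, hab⟩ := hX
  have hv : ∀ x ∈ S, M 2 0 * x + (M 2 1 * y + M 2 2) ≠ 0 := by
    intro x hx
    have := hinf _ (h x hx)
    simp only [hom] at this
    intro h0
    apply this
    linarith
  have hval : ∀ x ∈ S, (∃ i : ℤ, M 0 0 * x + (M 0 1 * y + M 0 2) =
      i * (M 2 0 * x + (M 2 1 * y + M 2 2))) ∧ (∃ j : ℤ, M 1 0 * x + (M 1 1 * y + M 1 2) =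
      j * (M 2 0 * x + (M 2 1 * y + M 2 2))) := by
    intro x hx
    obtain ⟨i, j, _, _, _, _, he⟩ := hab _ (h x hx)
    have hw := hinf _ (h x hx)
    obtain ⟨h1, h2⟩ := Prod.mk.inj he
    rw [div_eq_iff hw] at h1 h2
    simp only [hom] at h1 h2
    refine ⟨⟨i, ?_⟩, ⟨j, ?_⟩⟩
    · push_cast
      linarith
    · push_cast
      linarith
  by_cases c1 : M 0 0 * (M 2 1 * y + M 2 2) - (M 0 1 * y + M 0 2) * M 2 0 ≠ 0
  · exact moebius c1 k S hS fun x hx => ⟨hv x hx, (hval x hx).1⟩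
  by_cases c2 : M 1 0 * (M 2 1 * y + M 2 2) - (M 1 1 * y + M 1 2) * M 2 0 ≠ 0
  · exact moebius c2 k S hS fun x hx => ⟨hv x hx, (hval x hx).2⟩
  push Not at c1 c2
  rcases S.eq_empty_or_nonempty with hSe | ⟨x, hx⟩
  · rw [hSe]
    simp
  exfalso
  have hw := hv x hx
  have hdet : M.det = M 0 0 * (M 1 1 * M 2 2 - M 1 2 * M 2 1) -
      M 0 1 * (M 1 0 * M 2 2 - M 1 2 * M 2 0) + M 0 2 * (M 1 0 * M 2 1 - M 1 1 * M 2 0) := by
    rw [Matrix.det_fin_three]
    ring
  -- the third minor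
  have c3 : M 0 0 * (M 1 1 * y + M 1 2) - (M 0 1 * y + M 0 2) * M 1 0 = 0 := by
    have h1 : (M 0 0 * (M 1 1 * y + M 1 2) - (M 0 1 * y + M 0 2) * M 1 0) *
        (M 2 0 * x + (M 2 1 * y + M 2 2)) = 0 := by
      linear_combination (M 1 0 * x + (M 1 1 * y + M 1 2)) * c1 -
        (M 0 0 * x + (M 0 1 * y + M 0 2)) * c2
    rcases mul_eq_zero.1 h1 with h2 | h2
    · exact h2
    · exact absurd h2 hw
  apply hM
  rw [hdet]
  linear_combination (M 1 1) * c1 - (M 0 1) * c2 - (M 2 1) * c3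

/-- the number of points of a product of which each row is bounded -/
lemma product_bound (X : Set (ℝ × ℝ)) (s : ℝ) (hX : InLatticeSection X s) (k : ℕ)
    (B : Finset ℝ) (D : Finset (ℝ × ℝ)) (hD : D ⊆ A k ×ˢ B) (hDX : ∀ p ∈ D, p ∈ X) :
    D.card ≤ 2 * k * B.card := by
  classical
  have h1 : D.card = ∑ y ∈ B, (D.filter (fun p => p.2 = y)).card :=
    card_eq_sum_card_fiberwise (fun p hp => by
      have := hD hp
      rw [mem_product] at this
      exact this.2)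
  rw [h1]
  calc ∑ y ∈ B, (D.filter (fun p => p.2 = y)).card ≤ ∑ _y ∈ B, 2 * k := by
        refine sum_le_sum fun y _ => ?_
        have h2 : (D.filter (fun p => p.2 = y)).card =
            ((D.filter (fun p => p.2 = y)).image Prod.fst).card := by
          rw [card_image_of_injOn]
          intro p hp q hq he
          simp only [coe_filter, Set.mem_setOf_eq] at hp hq
          exact Prod.ext he (hp.2.trans hq.2.symm)
        rw [h2]
        refine row_bound X s hX k y _ ?_ ?_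
        · intro x hx
          obtain ⟨p, hp, rfl⟩ := mem_image.1 hx
          have := hD (mem_filter.1 hp).1
          rw [mem_product] at this
          exact this.1
        · intro x hx
          obtain ⟨p, hp, rfl⟩ := mem_image.1 hx
          have h3 := mem_filter.1 hp
          rw [← h3.2]
          exact hDX _ h3.1
    _ = 2 * k * B.card := by rw [sum_const, smul_eq_mul, mul_comm]

/-- the points -/
noncomputable def Pts (r k : ℕ) : Finset (ℝ × ℝ) := A k ×ˢ A (4 * (r * k))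

/-- dual points of the lines -/
noncomputable def Dual (r k : ℕ) : Finset (ℝ × ℝ) :=
  A r ×ˢ (A (r * k)).image (fun t => -t)

open Classical in
/-- the lines -/
noncomputable def Lns (r k : ℕ) : Finset (Set (ℝ × ℝ)) := (Dual r k).image dualLine

lemma card_Pts (r k : ℕ) : (Pts r k).card = 16 * r ^ 2 * k ^ 4 := by
  rw [Pts, card_product, card_A, card_A]
  ring

lemma card_neg (k : ℕ) : ((A k).image (fun t => -t)).card = k ^ 2 := by
  rw [card_image_of_injective _ neg_injective, card_A]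

lemma card_Dual (r k : ℕ) : (Dual r k).card = r ^ 4 * k ^ 2 := by
  rw [Dual, card_product, card_A, card_neg]
  ring

open Classical in
lemma card_Lns (r k : ℕ) : (Lns r k).card = r ^ 4 * k ^ 2 := by
  rw [Lns, card_image_of_injective _ dualLine_inj, card_Dual]

open Classical in
lemma incidences_ge (r k : ℕ) : r ^ 4 * k ^ 4 ≤ incidences (Pts r k) (Lns r k) := by
  have hfin : ({q : (ℝ × ℝ) × Set (ℝ × ℝ) | q.1 ∈ Pts r k ∧ q.2 ∈ Lns r k ∧ q.1 ∈ q.2}).Finite := by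
    apply Set.Finite.subset ((Pts r k ×ˢ Lns r k).finite_toSet)
    rintro q ⟨h1, h2, _⟩
    simp only [coe_product, Set.mem_prod, mem_coe]
    exact ⟨h1, h2⟩
  let f : ℝ × (ℝ × ℝ) → (ℝ × ℝ) × Set (ℝ × ℝ) :=
    fun z => ((z.1, z.2.1 * z.1 - z.2.2), dualLine z.2)
  have hf : Function.Injective f := by
    rintro ⟨x, q⟩ ⟨x', q'⟩ h
    simp only [f, Prod.mk.injEq] at h
    exact Prod.ext h.1.1 (dualLine_inj h.2)
  have hsub : (((A k ×ˢ Dual r k).image f : Finset _) : Set ((ℝ × ℝ) × Set (ℝ × ℝ))) ⊆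
      {q | q.1 ∈ Pts r k ∧ q.2 ∈ Lns r k ∧ q.1 ∈ q.2} := by
    intro q hq
    obtain ⟨⟨x, d⟩, hz, rfl⟩ := mem_image.1 (mem_coe.1 hq)
    rw [mem_product] at hz
    obtain ⟨hx, hd⟩ := hz
    simp only at hx hd
    have hd' := hd
    rw [Dual, mem_product] at hd'
    obtain ⟨hα, hβ⟩ := hd'
    obtain ⟨t, ht, hte⟩ := mem_image.1 hβ
    refine ⟨?_, ?_, ?_⟩
    · simp only [f, Pts]
      rw [mem_product]
      refine ⟨hx, ?_⟩
      have := mul_add_mem hα hx ht
      rw [show d.1 * x - d.2 = d.1 * x + t by rw [← hte]; ring]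
      exact this
    · simp only [f, Lns]
      exact mem_image_of_mem _ hd
    · simp [f, dualLine]
  calc r ^ 4 * k ^ 4 = (A k ×ˢ Dual r k).card := by
        rw [card_product, card_A, card_Dual]
        ring
    _ = ((A k ×ˢ Dual r k).image f).card := (card_image_of_injective _ hf).symm
    _ = Set.ncard (((A k ×ˢ Dual r k).image f : Finset _) : Set ((ℝ × ℝ) × Set (ℝ × ℝ))) :=
        (Set.ncard_coe_finset _).symm
    _ ≤ _ := Set.ncard_le_ncard hsub hfin

/-- subsets of the point set in a lattice -/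
lemma points_bound (r k : ℕ) (P' : Finset (ℝ × ℝ)) (hP' : P' ⊆ Pts r k) (s : ℝ)
    (hsec : InLatticeSection (P' : Set (ℝ × ℝ)) s) : k * P'.card ≤ 2 * (Pts r k).card := by
  have h1 := product_bound _ _ hsec k (A (4 * (r * k))) P' hP' (fun p hp => mem_coe.2 hp)
  rw [card_A] at h1
  rw [card_Pts]
  calc k * P'.card ≤ k * (2 * k * (4 * (r * k)) ^ 2) := Nat.mul_le_mul le_rfl h1
    _ = 2 * (16 * r ^ 2 * k ^ 4) := by ring

/-- sets of lines whose dual points are in a lattice -/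
lemma lines_bound (r k : ℕ) (D : Finset (ℝ × ℝ)) (hD : ∀ q ∈ D, dualLine q ∈ Lns r k) (s : ℝ)
    (hsec : InLatticeSection (D : Set (ℝ × ℝ)) s) : r * D.card ≤ 2 * (Lns r k).card := by
  have hsub : D ⊆ A r ×ˢ (A (r * k)).image (fun t => -t) := by
    intro q hq
    have h1 := hD q hq
    rw [Lns] at h1
    obtain ⟨q', hq', he⟩ := mem_image.1 h1
    rw [← dualLine_inj he]
    exact hq'
  have h1 := product_bound _ _ hsec r _ D hsub (fun p hp => mem_coe.2 hp)
  rw [card_neg] at h1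
  rw [card_Lns]
  calc r * D.card ≤ r * (2 * r * (r * k) ^ 2) := Nat.mul_le_mul le_rfl h1
    _ = 2 * (r ^ 4 * k ^ 2) := by ring

/-- The alternatives fail if `r` and `k` are large. -/
theorem family (c : ℝ) (hc : 0 < c) (r k : ℕ) (hr : 2 / c < r) (hk : 2 / c < k) (C : ℝ) :
    ¬ PointsLattice c C (Pts r k) ∧ ¬ LinesLattice c C (Lns r k) := by
  have hr0 : 0 < r := by
    have : (0 : ℝ) < r := lt_trans (by positivity) hr
    exact_mod_cast this
  have hk0 : 0 < k := by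
    have : (0 : ℝ) < k := lt_trans (by positivity) hk
    exact_mod_cast this
  rw [div_lt_iff₀ hc] at hr hk
  constructor
  · rintro ⟨P', hP', hcard, hsec⟩
    have h1 : ((k * P'.card : ℕ) : ℝ) ≤ ((2 * (Pts r k).card : ℕ) : ℝ) := by
      exact_mod_cast points_bound r k P' hP' _ hsec
    push_cast at h1
    have h2 : (0 : ℝ) < (Pts r k).card := by
      rw [card_Pts]
      positivity
    have h3 : (k : ℝ) * (c * (Pts r k).card) ≤ 2 * (Pts r k).card :=
      (mul_le_mul_of_nonneg_left hcard (Nat.cast_nonneg k)).trans h1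
    nlinarith [h2, hk, h3]
  · rintro ⟨D, hD, hcard, hsec⟩
    have h1 : ((r * D.card : ℕ) : ℝ) ≤ ((2 * (Lns r k).card : ℕ) : ℝ) := by
      exact_mod_cast lines_bound r k D hD _ hsec
    push_cast at h1
    have h2 : (0 : ℝ) < (Lns r k).card := by
      rw [card_Lns]
      positivity
    have h3 : (r : ℝ) * (c * (Lns r k).card) ≤ 2 * (Lns r k).card :=
      (mul_le_mul_of_nonneg_left hcard (Nat.cast_nonneg r)).trans h1
    nlinarith [h2, hr, h3]

lemma lines_Lns (r k : ℕ) : ∀ l ∈ Lns r k, IsLine l := by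
  intro l hl
  rw [Lns] at hl
  obtain ⟨q, _, rfl⟩ := mem_image.1 hl
  exact isLine_dualLine q

/-- many incidences -/
lemma rich (r k : ℕ) : (1 / 16 : ℝ) * ((Pts r k).card : ℝ) ^ (2 / 3 : ℝ) *
    ((Lns r k).card : ℝ) ^ (2 / 3 : ℝ) ≤ incidences (Pts r k) (Lns r k) := by
  have h1 : ((r ^ 4 * k ^ 4 : ℕ) : ℝ) ≤ incidences (Pts r k) (Lns r k) := by
    exact_mod_cast incidences_ge r k
  refine le_trans ?_ h1
  rw [card_Pts, card_Lns, mul_assoc, ← Real.mul_rpow (by positivity) (by positivity)]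
  have h2 : ((16 * r ^ 2 * k ^ 4 : ℕ) : ℝ) * ((r ^ 4 * k ^ 2 : ℕ) : ℝ) ≤
      ((4 * (r : ℝ) ^ 2 * k ^ 2) ^ 3) := by
    push_cast
    have : (0 : ℝ) ≤ (r : ℝ) ^ 6 * k ^ 6 := by positivity
    nlinarith [this]
  have h3 : (((16 * r ^ 2 * k ^ 4 : ℕ) : ℝ) * ((r ^ 4 * k ^ 2 : ℕ) : ℝ)) ^ (2 / 3 : ℝ) ≤
      ((4 * (r : ℝ) ^ 2 * k ^ 2) ^ 3) ^ (2 / 3 : ℝ) :=
    Real.rpow_le_rpow (by positivity) h2 (by norm_num)
  have h4 : ((4 * (r : ℝ) ^ 2 * k ^ 2) ^ 3) ^ (2 / 3 : ℝ) = (4 * (r : ℝ) ^ 2 * k ^ 2) ^ 2 := by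
    rw [← Real.rpow_natCast, ← Real.rpow_mul (by positivity)]
    norm_num
  rw [h4] at h3
  push_cast at h3 ⊢
  nlinarith [h3]

end Run7.h242.ST
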